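import Pool.Agent.H246K2.Stubs

/-!
# Project K3: all knots with non-commutative group, several different blocks.
The statements of the tasks (as propositions `X_...`, `Y_...`)
-/

set_option autoImplicit false

namespace KN

open Finset Filter Topology
open scoped Classical

noncomputable section

/-! ## Part X: a knot with non-commutative group has no inverse -/

/-- the complement of a polygon -/
abbrev Cmp (l : List V) : Type := {x : V // x ∉ ps l}

/-- the knot group is not commutative -/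
def NCG (l : List V) : Prop := ∃ (x : Cmp l) (a b : FundamentalGroup (Cmp l) x), a * b ≠ b * a

/-- some locally flat function with values in a group has non-cyclic holonomy -/
def NAf (l : List V) : Prop := ∃ (G : Type) (_ : Group G) (T : V → V → G),
  Flat (ps l)ᶜ T ∧ ¬ AbOn (ps l)ᶜ T

/-- X1 -/
def X_ncg : Prop := ∀ l : List V, IsOpen (ps l)ᶜ → NCG l → NAf l

/-- X2: the set of points of a polygon is closed -/
def X_open : Prop := ∀ l : List V, IsOpen (ps l)ᶜ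

/-- X3: invariance -/
def X_naf : Prop := ∀ (l l' : List V) (h : V ≃ₜ V), h '' ps l = ps l' → NAf l → NAf l'

/-- the holonomy of a gauge field is cyclic -/
def Cyc {G : Type} [Group G] (g : Gauge G) : Prop := ∃ (φ : Z3 → G) (κ : G),
  ∀ (c : Z3) (d : Dir), φ c * gst g c d * (φ (c + vec d))⁻¹ ∈ Subgroup.zpowers κ

/-- X4: discretization -/
def X_disc : Prop := ∀ (G : Type) [Group G] (T : V → V → G) (w : List Dir), SAP w →
  Flat (ps (vl w))ᶜ T → ∃ g : Gauge G, GF g w ∧ (Cyc g → AbOn (ps (vl w))ᶜ T)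

/-- X5: open boxes around a point that contain no point of the polygon -/
def X_box : Prop := ∀ (w : List Dir), SAP w → ∀ (q m : Z3),
  (m.1 = 0 ∨ m.1 = 1) → (m.2.1 = 0 ∨ m.2.1 = 1) → (m.2.2 = 0 ∨ m.2.2 = 1) →
  (m.1 = 1 → m.2.1 = 1 → ¬ Eg w q .zp ∧ (m.2.2 = 1 → ¬ Eg w (q - (0, 0, 1)) .zp)) →
  (m.1 = 1 → m.2.2 = 1 → ¬ Eg w q .yp ∧ (m.2.1 = 1 → ¬ Eg w (q - (0, 1, 0)) .yp)) →
  (m.2.1 = 1 → m.2.2 = 1 → ¬ Eg w q .xp ∧ (m.1 = 1 → ¬ Eg w (q - (1, 0, 0)) .xp)) →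
  ∀ x : V, ((q.1 : ℝ) - m.1 < x.1 ∧ x.1 < q.1 + 1 ∧ (q.2.1 : ℝ) - m.2.1 < x.2.1 ∧
    x.2.1 < q.2.1 + 1 ∧ (q.2.2 : ℝ) - m.2.2 < x.2.2 ∧ x.2.2 < q.2.2 + 1) → x ∉ ps (vl w)

/-- X6: cyclic holonomy of the discrete field -/
def X_cyc : Prop := ∀ (G : Type) [Group G] (g : Gauge G) (w : List Dir), SAP w →
  AbOn (ps (vl w))ᶜ (TT g) → Cyc g

/-- X7: normalization -/
def X_norm : Prop := ∀ (G : Type) [Group G] (g : Gauge G) (v : List Dir),
  (∀ p ∈ path v, 0 ≤ p.1) → SAP (.zm :: v) → GF g (.zm :: v) → ∃ g' : Gauge G, GF g' (.zm :: v) ∧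
    (∀ c, g'.g1 c = 1) ∧ (∀ c : Z3, c.1 < 0 → g'.g2 c = 1 ∧ g'.g3 c = 1) ∧ (Cyc g' → Cyc g)

/-- signed number of letters `zp, zm` whose edge is the one between `(x', y, z)` and
`(x', y, z + 1)` for some `x' ≥ x` -/
def czs : List Dir → ℤ → ℤ → ℤ → ℤ
  | [], _, _, _ => 0
  | d :: w, x, y, z => czs w x y z +
      (if d = .zp ∧ x ≤ (pos w).1 ∧ (pos w).2.1 = y ∧ (pos w).2.2 = z then 1 else 0) -
      (if d = .zm ∧ x ≤ (pos w).1 ∧ (pos w).2.1 = y ∧ (pos w).2.2 = z + 1 then 1 else 0)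

/-- signed number of letters `yp, ym` whose edge is the one between `(x', y, z)` and
`(x', y + 1, z)` for some `x' ≥ x` -/
def cys : List Dir → ℤ → ℤ → ℤ → ℤ
  | [], _, _, _ => 0
  | d :: w, x, y, z => cys w x y z +
      (if d = .yp ∧ x ≤ (pos w).1 ∧ (pos w).2.1 = y ∧ (pos w).2.2 = z then 1 else 0) -
      (if d = .ym ∧ x ≤ (pos w).1 ∧ (pos w).2.1 = y + 1 ∧ (pos w).2.2 = z then 1 else 0)

/-- the gauge field of a closed word with values in the powers of `τ` -/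
def sgauge {G : Type} [Group G] (τ : G) (w : List Dir) : Gauge G where
  g1 := fun _ => 1
  g2 := fun c => τ ^ (czs w (c.1 + 1) (c.2.1 + 1) c.2.2)
  g3 := fun c => τ ^ (-(cys w (c.1 + 1) c.2.1 (c.2.2 + 1)))

/-- X8: it is flat outside the word -/
def X_sflat : Prop := ∀ (G : Type) [Group G] (τ : G) (w : List Dir), pos w = 0 →
  GF (sgauge τ w) w

/-- the gauge field of a connected sum; `y` is the point where the connector starts, `g` is the
gauge field of the right polygon -/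
def kgauge {G : Type} [Group G] (g : Gauge G) (y : Z3) (m : List Dir) : Gauge G where
  g1 := fun _ => 1
  g2 := fun c => if c.1 ≤ y.1 then (sgauge (g.g2 (0, -1, 0)) m).g2 c else g.g2 (c - y - (1, 0, 0))
  g3 := fun c => if c.1 ≤ y.1 then (sgauge (g.g2 (0, -1, 0)) m).g3 c else g.g3 (c - y - (1, 0, 0))

/-- X9 -/
def X_kflat : Prop := ∀ (G : Type) [Group G] (g : Gauge G) (l1 v l2 : List Dir), Facing l1 v l2 →
  GF g (.zm :: v) → (∀ c, g.g1 c = 1) → (∀ c : Z3, c.1 < 0 → g.g2 c = 1 ∧ g.g3 c = 1) →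
  GF (kgauge g (pos l2) (l1 ++ .xm :: .zp :: .xp :: l2)) (join l1 v l2)

/-- X10 -/
def X_kcyc : Prop := ∀ (G : Type) [Group G] (g : Gauge G) (l1 v l2 : List Dir), Facing l1 v l2 →
  GF g (.zm :: v) → (∀ c, g.g1 c = 1) → (∀ c : Z3, c.1 < 0 → g.g2 c = 1 ∧ g.g3 c = 1) →
  Cyc (kgauge g (pos l2) (l1 ++ .xm :: .zp :: .xp :: l2)) → Cyc g

/-- X11: main statement -/
def X_ninv : Prop := ∀ k : List V, NAf k → NonInv k

/-- X12: homotopy invariance of the transport -/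
def X_homot : Prop := ∀ (G : Type) [Group G] (l : List V) (T : V → V → G), Flat (ps l)ᶜ T →
  ∀ (x y : Cmp l) (p p' : Path x y), p.Homotopic p' → ∀ u u' : ℝ → G, u 0 = 1 → u' 0 = 1 →
  (∀ t : ℝ, 0 ≤ t → t ≤ 1 → ∀ᶠ s in 𝓝 t, 0 ≤ s → s ≤ 1 →
    u s = u t * T (p.extend t).1 (p.extend s).1) →
  (∀ t : ℝ, 0 ≤ t → t ≤ 1 → ∀ᶠ s in 𝓝 t, 0 ≤ s → s ≤ 1 →
    u' s = u' t * T (p'.extend t).1 (p'.extend s).1) → u 1 = u' 1

/-- X13: non-commuting holonomies give a non-commutative group -/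
def X_grp : Prop := ∀ (G : Type) [Group G] (g : Gauge G) (w : List Dir), SAP w → GF g w →
  ∀ (c : Z3) (A B : List Dir), pos A = 0 → pos B = 0 →
  hol g c A * hol g c B ≠ hol g c B * hol g c A → NCG (vl w)

/-- X14: the group of the trefoil -/
def X_tre : Prop := NCG tre

/-! ## Part Y: several blocks of different types -/

/-- letters and block symbols (`bl i d f`: a block of type `i` in direction `d` on an edge `f`) -/
inductive Sz
  | lt (f : Dir)
  | bl (i : ℕ) (d f : Dir)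
  deriving DecidableEq

/-- the letter of a symbol -/
def szl : Sz → Dir
  | .lt f => f
  | .bl _ _ f => f

/-- the word of a symbol -/
def szw (T : ℕ) (v : ℕ → List Dir) : Sz → List Dir
  | .lt f => [f]
  | .bl i d f => (blk T (v i)).map (rt d f)

/-- all blocks are replaced by edges -/
def BZ (W : List Sz) : List Dir := W.map szl

/-- all blocks are inserted -/
def EZ (T : ℕ) (v : ℕ → List Dir) (W : List Sz) : List Dir := W.flatMap (szw T v)

/-- the types of the blocks -/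
def lab (W : List Sz) : List ℕ := W.filterMap (fun s => match s with
  | .lt _ => none
  | .bl i _ _ => some i)

/-- rotation of symbols -/
def rZ (d f : Dir) : Sz → Sz
  | .lt e => .lt (rt d f e)
  | .bl i d' f' => .bl i (rt d f d') (rt d f f')

/-- words with blocks: the blocks have room, without blocks the polygon is unknotted -/
structure VaZ (T L : ℕ) (v : ℕ → List Dir) (W : List Sz) : Prop where
  u : U (BZ W)
  base : SAP (BZ W)
  ext : SAP (EZ T v W)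
  room : ∀ (A B : List Sz) (i : ℕ) (d f : Dir), W = A ++ .bl i d f :: B →
    perp d f ∧ RmD T L d f (EZ T v A ++ f :: EZ T v B) (pos (EZ T v B))

/-- the symbols with types less than `N` -/
def SyZ (N : ℕ) : Finset Sz := ((univ : Finset Dir).image Sz.lt) ∪
  ((range N ×ˢ (univ : Finset (Dir × Dir))).image (fun p => Sz.bl p.1 p.2.1 p.2.2))

/-- all words of length `n` with symbols of types less than `N` -/
def WZ (N n : ℕ) : Finset (List Sz) :=
  (Fintype.piFinset (fun _ : Fin n => SyZ N)).image List.ofFn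

/-- valid words of length `n` with one block of each type `0, ..., N - 1` -/
def VZ (T L : ℕ) (v : ℕ → List Dir) (N n : ℕ) : Finset (List Sz) :=
  (WZ N n).filter (fun W => (lab W).Perm (List.range N) ∧ VaZ T L v W)

/-- small right polygons of bounded length -/
def SmB (L B : ℕ) (v : ℕ → List Dir) : Prop := ∀ i, SmR L (v i) ∧ (blk 0 (v i)).length ≤ B

/-- a large radius -/
def raZ (T L B : ℕ) : ℕ := 4 * (B + 3 * T + L + 10)

/-- `y` is far from all blocks of `W` -/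
def faZ (T : ℕ) (v : ℕ → List Dir) (r : ℕ) (W : List Sz) (y : Z3) : Prop :=
  ∀ (A B : List Sz) (i : ℕ) (d f : Dir), W = A ++ .bl i d f :: B → ¬ near r y (pos (EZ T v B))

/-- Y1: membership -/
def Y_mem : Prop := ∀ (T L : ℕ) (v : ℕ → List Dir) (N n : ℕ) (W : List Sz),
  W ∈ VZ T L v N n ↔ W.length = n ∧ (lab W).Perm (List.range N) ∧ VaZ T L v W

/-- Y2: basic facts -/
def Y_bas : Prop := ∀ (T L B : ℕ) (v : ℕ → List Dir), SmB L B v → ∀ W : List Sz,
  pos (EZ T v W) = pos (BZ W) ∧ (∀ p ∈ path (BZ W), p ∈ path (EZ T v W)) ∧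
  (EZ T v W).length = W.length + ((lab W).map (fun i => (blk T (v i)).length - 1)).sum ∧
  (SAP (EZ T v W) → 4 ≤ W.length → SAP (BZ W)) ∧
  (∀ d f : Dir, perp d f → (∀ A B' i d' f', W = A ++ .bl i d' f' :: B' → perp d' f') →
    (EZ T v W).map (rt d f) = EZ T v (W.map (rZ d f)) ∧
    (BZ W).map (rt d f) = BZ (W.map (rZ d f)) ∧ lab (W.map (rZ d f)) = lab W)

/-- Y3: rotations -/
def Y_rot : Prop := ∀ (T L B : ℕ) (v : ℕ → List Dir), SmB L B v → ∀ W : List Sz, VaZ T L v W →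
  ∀ d f : Dir, perp d f → VaZ T L v (W.map (rZ d f))

/-- Y4: looking up a letter far from the blocks -/
def Y_look : Prop := ∀ (T L B : ℕ) (v : ℕ → List Dir), SmB L B v → ∀ (W : List Sz)
  (l1 l2 : List Dir) (z : Dir), EZ T v W = l1 ++ z :: l2 → faZ T v (B + 2 * T) W (pos l2) →
  (∀ A B' i d' f', W = A ++ .bl i d' f' :: B' → perp d' f') →
  ∃ A B' : List Sz, W = A ++ .lt z :: B' ∧ EZ T v A = l1 ∧ EZ T v B' = l2

/-- Y5: flips -/
def Y_flip : Prop := ∀ (T L B : ℕ) (v : ℕ → List Dir), SmB L B v → ∀ (A B' : List Sz) (a b : Dir),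
  VaZ T L v (A ++ .lt a :: .lt b :: B') → perp a b →
  pos (EZ T v B') + vec a ∉ path (EZ T v (A ++ .lt a :: .lt b :: B')) →
  faZ T v (T + L + 5) (A ++ .lt a :: .lt b :: B') (pos (EZ T v B')) →
  VaZ T L v (A ++ .lt b :: .lt a :: B')

/-- Y6: insertion of a block -/
def Y_ins : Prop := ∀ (T L B : ℕ) (v : ℕ → List Dir), SmB L B v → ∀ (A B' : List Sz) (i : ℕ),
  VaZ T L v (A ++ .lt .zp :: B') → Spot T L (EZ T v A) (EZ T v B') →
  faZ T v (raZ T L B - 20) (A ++ .lt .zp :: B') (pos (EZ T v B')) →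
  VaZ T L v (A ++ .bl i .xp .zp :: B')

/-- the relation between a word with blocks and the one with one more block -/
def RlZ (W : List Sz) (d f : Dir) (A B : List Sz) : Prop :=
  W.map (rZ d f) = A ++ .lt .zp :: B ∨
    (∃ M, A = M ++ [.lt .xm] ∧ W.map (rZ d f) = M ++ .lt .zp :: .lt .xm :: B) ∨
    (∃ M, B = .lt .xp :: M ∧ W.map (rZ d f) = A ++ .lt .xp :: .lt .zp :: M)

/-- Y7: a contact far from the blocks gives a place for a new block -/
def Y_con : Prop := ∀ (T L B R : ℕ) (v : ℕ → List Dir), SmB L B v → LLat T L R → ∀ W : List Sz,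
  VaZ T L v W → ∀ x N : Z3, Cont R {p | p ∈ path (EZ T v W)} x N → ¬ near 6 x 0 →
  faZ T v (raZ T L B) W x → ∀ i : ℕ, ∃ (d f : Dir) (A B' : List Sz), perp d f ∧
    VaZ T L v (A ++ .bl i .xp .zp :: B') ∧ near 6 (pos (EZ T v B')) (Rp d f x) ∧ RlZ W d f A B'

/-- Y8: counting -/
def Y_cnt : Prop := ∀ (T L B R : ℕ) (v : ℕ → List Dir), SmB L B v → LLat T L R → 1 ≤ R →
  ∀ N : ℕ, ∃ c : ℝ, 0 < c ∧ ∀ᶠ n : ℕ in atTop,
    c * (n : ℝ) ^ (2 / 3 : ℝ) * (VZ T L v N n).card ≤ (VZ T L v (N + 1) n).card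

/-- Y9: no blocks -/
def Y_zero : Prop := ∀ (T L : ℕ) (v : ℕ → List Dir) (n : ℕ), (VZ T L v 0 n).card = a U n

/-- Y10: every block of `W` overlaps a block of `W₀` -/
def Y_over : Prop := ∀ (ks : ℕ → List V), (∀ i, NonInv (ks i)) → ∀ (T L B : ℕ)
  (v : ℕ → List Dir), SmB L B v → (∀ i, Same (vl (.zm :: v i)) (ks i)) → ∀ W₀ W : List Sz,
  VaZ T L v W₀ → VaZ T L v W → B + 2 * T + 3 ≤ W₀.length →
  EZ T v W₀ = EZ T v W → ∀ (A B' : List Sz) (i : ℕ) (d f : Dir), W = A ++ .bl i d f :: B' →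
  ∃ (A₀ B₀ : List Sz) (i₀ : ℕ) (d₀ f₀ : Dir), W₀ = A₀ ++ .bl i₀ d₀ f₀ :: B₀ ∧
    (EZ T v A).length < (EZ T v A₀).length + (B + 2 * T) ∧
    (EZ T v A₀).length < (EZ T v A).length + (B + 2 * T)

/-- Y11: bounded multiplicity -/
def Y_mul : Prop := ∀ (ks : ℕ → List V), (∀ i, NonInv (ks i)) → ∀ (T L B : ℕ)
  (v : ℕ → List Dir), SmB L B v → (∀ i, Same (vl (.zm :: v i)) (ks i)) → ∀ N : ℕ, ∃ C : ℕ,
  ∀ (n : ℕ) (w : List Dir), ((VZ T L v N n).filter (fun W => EZ T v W = w)).card ≤ C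

/-- connected sums of `ks 0, ..., ks (N - 1)` -/
def Sums (ks : ℕ → List V) : ℕ → List V → Prop
  | 0 => fun l => Same l sq
  | N + 1 => fun l => ∃ l1 v l2 : List Dir, Facing l1 v l2 ∧ Sums ks N (vl (l1 ++ .zp :: l2)) ∧
      Same (vl (.zm :: v)) (ks N) ∧ Same l (vl (join l1 v l2))

/-- Y12: uniqueness -/
def Y_sumu : Prop := ∀ (ks : ℕ → List V) (N : ℕ) (l l' : List V), Sums ks N l → Sums ks N l' →
  Same l l'

/-- Y13: existence -/
def Y_sume : Prop := ∀ (ks : ℕ → List V) (N : ℕ), (∀ i < N, ∃ w, SAP w ∧ Same (vl w) (ks i)) →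
  ∃ w, SAP w ∧ Sums ks N (vl w)

/-- Y14: the knot type of a word with blocks -/
def Y_type : Prop := ∀ (ks : ℕ → List V) (T L B : ℕ) (v : ℕ → List Dir), SmB L B v →
  (∀ i, Same (vl (.zm :: v i)) (ks i)) → ∀ (N : ℕ) (W : List Sz), (lab W).Perm (List.range N) →
  VaZ T L v W → Sums ks N (vl (EZ T v W))

/-- Y15: several blocks -/
def Y_all : Prop := ∀ (ks : ℕ → List V) (N : ℕ), (∀ i < N, NonInv (ks i)) →
  (∀ i < N, ∃ w, SAP w ∧ Same (vl w) (ks i)) → ∀ l : List V, Sums ks N l →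
  ∃ (c : ℝ) (m : ℕ), 0 < c ∧ m % 2 = 0 ∧ ∀ᶠ n : ℕ in atTop,
    c * (n : ℝ) ^ (2 * N / 3 : ℝ) * a U n ≤ a (KT l) (n + m)

end

end KN
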