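import Pool.Agent.H246K3.Stubs

set_option autoImplicit false

namespace KN

open Filter Topology

namespace K3XBOX

theorem path_cons (w : List Dir) : path w = pos w :: (path w).tail := by
  cases w <;> rfl

theorem chain_snoc (p q : V) (L : List V) (z : V × V) (hz : z ∈ chain p (L ++ [q])) :
    z ∈ chain p L ∨ z = ((p :: L).getLast (by simp), q) := by
  induction L generalizing p with
  | nil =>
    simp only [List.nil_append, chain, List.mem_cons, List.not_mem_nil, or_false] at hz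
    right
    simpa using hz
  | cons r L ih =>
    simp only [List.cons_append, chain, List.mem_cons] at hz
    rcases hz with rfl | hz
    · left
      simp [chain]
    · rcases ih r hz with h | h
      · left
        simp [chain, h]
      · right
        rw [h]
        simp only [List.getLast_cons_cons]

theorem chain_path (l : List Dir) : ∀ e ∈ chain (emb (pos l)) ((path l).tail.map emb),
    ∃ l1 d l2, l = l1 ++ d :: l2 ∧ e = (emb (pos l2 + vec d), emb (pos l2)) := by
  induction l with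
  | nil => intro e he; simp [path, chain] at he
  | cons d l ih =>
    intro e he
    simp only [path, List.tail_cons] at he
    rw [path_cons l, List.map_cons, chain, List.mem_cons] at he
    rcases he with rfl | he
    · exact ⟨[], d, l, rfl, rfl⟩
    · obtain ⟨l1, d', l2, h1, h2⟩ := ih e he
      exact ⟨d :: l1, d', l2, by rw [h1]; rfl, h2⟩

theorem edges_vl (w : List Dir) (hw : SAP w) : ∀ e ∈ edges (vl w),
    ∃ l1 d l2, w = l1 ++ d :: l2 ∧ e = (emb (pos l2 + vec d), emb (pos l2)) := by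
  obtain ⟨h4, h0, hnd⟩ := hw
  cases w with
  | nil => simp at h4
  | cons d l =>
    intro e he
    have hp := path_cons l
    have hvl : vl (d :: l) = emb (pos l) :: (path l).tail.map emb := by
      unfold vl
      rw [List.tail_cons]
      conv_lhs => rw [hp]
      rfl
    rw [hvl, edges] at he
    rcases chain_snoc _ _ _ _ he with he | he
    · obtain ⟨l1, d', l2, h1, h2⟩ := chain_path l e he
      exact ⟨d :: l1, d', l2, by rw [h1]; rfl, h2⟩
    · have hlast : (emb (pos l) :: (path l).tail.map emb).getLast (by simp) = emb 0 := by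
        have h1 : (emb (pos l) :: (path l).tail.map emb) = (path l).map emb := by
          conv_rhs => rw [hp]
          rfl
        have h2 : ((path l).map emb).getLast (by simp [path_ne_nil l]) = emb 0 := by
          rw [List.getLast_map, path_getLast]
        rw [← h2]
        congr 1
      rw [hlast] at he
      refine ⟨[], d, l, rfl, ?_⟩
      have h0' : pos l + vec d = 0 := h0
      rw [h0']
      exact he

theorem lerp_comm (p q : V) (u : ℝ) : lerp p q u = lerp q p (1 - u) := by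
  unfold lerp
  rw [sub_sub_cancel, add_comm]

theorem ps_edge (w : List Dir) (hw : SAP w) (x : V) (hx : x ∈ ps (vl w)) :
    ∃ (q : Z3) (f : Dir) (u : ℝ), (f = .xp ∨ f = .yp ∨ f = .zp) ∧ Eg w q f ∧ 0 ≤ u ∧ u ≤ 1 ∧
      x = lerp (emb q) (emb (q + vec f)) u := by
  obtain ⟨e, he, u, hu0, hu1, hxu⟩ := hx
  obtain ⟨l1, d, l2, h1, h2⟩ := edges_vl w hw e he
  rw [h2] at hxu
  have pos_case : (d = .xp ∨ d = .yp ∨ d = .zp) → ∃ (q : Z3) (f : Dir) (u : ℝ),
      (f = .xp ∨ f = .yp ∨ f = .zp) ∧ Eg w q f ∧ 0 ≤ u ∧ u ≤ 1 ∧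
      x = lerp (emb q) (emb (q + vec f)) u := by
    intro hd
    refine ⟨pos l2, d, 1 - u, hd, ⟨l1, l2, Or.inl ⟨h1, rfl⟩⟩, by linarith, by linarith, ?_⟩
    rw [hxu]
    exact lerp_comm _ _ _
  have neg_case : ∀ f : Dir, (f = .xp ∨ f = .yp ∨ f = .zp) → d = neg f → ∃ (q : Z3) (f : Dir) (u : ℝ),
      (f = .xp ∨ f = .yp ∨ f = .zp) ∧ Eg w q f ∧ 0 ≤ u ∧ u ≤ 1 ∧
      x = lerp (emb q) (emb (q + vec f)) u := by
    intro f hf hd
    have e1 : pos l2 = pos l2 + vec d + vec f := by
      rw [hd, vec_neg]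
      abel
    refine ⟨pos l2 + vec d, f, u, hf, ⟨l1, l2, Or.inr ⟨by rw [← hd]; exact h1, e1⟩⟩, hu0, hu1, ?_⟩
    rw [← e1]
    exact hxu
  cases d
  · exact pos_case (Or.inl rfl)
  · exact neg_case .xp (Or.inl rfl) rfl
  · exact pos_case (Or.inr (Or.inl rfl))
  · exact neg_case .yp (Or.inr (Or.inl rfl)) rfl
  · exact pos_case (Or.inr (Or.inr rfl))
  · exact neg_case .zp (Or.inr (Or.inr rfl)) rfl

/-- an integer coordinate -/
theorem int_case {a b m : ℤ} (hm : m = 0 ∨ m = 1) (h1 : (a : ℝ) - m < b) (h2 : (b : ℝ) < a + 1) :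
    m = 1 ∧ b = a := by
  have h1' : a - m < b := by exact_mod_cast h1
  have h2' : b < a + 1 := by exact_mod_cast h2
  omega

/-- the coordinate of the direction -/
theorem dir_case {a b m : ℤ} {u : ℝ} (hm : m = 0 ∨ m = 1) (hu0 : 0 ≤ u) (hu1 : u ≤ 1)
    (h1 : (a : ℝ) - m < b + u) (h2 : (b : ℝ) + u < a + 1) : b = a ∨ (m = 1 ∧ b = a - 1) := by
  have h1' : a - m < b + 1 := by
    have : (a : ℝ) - m < b + 1 := by linarith
    exact_mod_cast this
  have h2' : b < a + 1 := by
    have : (b : ℝ) < a + 1 := by linarith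
    exact_mod_cast this
  omega

end K3XBOX

open K3XBOX

theorem X_box_proof : X_box := by
  intro w hw q m hm1 hm2 hm3 hz hy hx x ⟨a1, a2, b1, b2, c1, c2⟩ hmem
  obtain ⟨q', f, u, hf, hE, hu0, hu1, rfl⟩ := ps_edge w hw x hmem
  obtain ⟨q1, q2, q3⟩ := q
  obtain ⟨m1, m2, m3⟩ := m
  obtain ⟨r1, r2, r3⟩ := q'
  have e1 : (lerp (emb (r1, r2, r3)) (emb ((r1, r2, r3) + vec f)) u).1 =
      r1 + u * ((vec f).1 : ℝ) := by
    simp [lerp, emb]; ring
  have e2 : (lerp (emb (r1, r2, r3)) (emb ((r1, r2, r3) + vec f)) u).2.1 =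
      r2 + u * ((vec f).2.1 : ℝ) := by
    simp [lerp, emb]; ring
  have e3 : (lerp (emb (r1, r2, r3)) (emb ((r1, r2, r3) + vec f)) u).2.2 =
      r3 + u * ((vec f).2.2 : ℝ) := by
    simp [lerp, emb]; ring
  rw [e1] at a1 a2
  rw [e2] at b1 b2
  rw [e3] at c1 c2
  simp only at a1 a2 b1 b2 c1 c2 hm1 hm2 hm3 hx hy hz
  rcases hf with rfl | rfl | rfl
  · simp only [vec, Int.cast_zero, Int.cast_one, mul_zero, mul_one, add_zero] at a1 a2 b1 b2 c1 c2
    obtain ⟨i2, rfl⟩ := int_case hm2 b1 b2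
    obtain ⟨i3, rfl⟩ := int_case hm3 c1 c2
    obtain ⟨k1, k2⟩ := hx i2 i3
    rcases dir_case hm1 hu0 hu1 a1 a2 with rfl | ⟨i1, rfl⟩
    · exact k1 hE
    · apply k2 i1
      simpa using hE
  · simp only [vec, Int.cast_zero, Int.cast_one, mul_zero, mul_one, add_zero] at a1 a2 b1 b2 c1 c2
    obtain ⟨i1, rfl⟩ := int_case hm1 a1 a2
    obtain ⟨i3, rfl⟩ := int_case hm3 c1 c2
    obtain ⟨k1, k2⟩ := hy i1 i3
    rcases dir_case hm2 hu0 hu1 b1 b2 with rfl | ⟨i2, rfl⟩
    · exact k1 hE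
    · apply k2 i2
      simpa using hE
  · simp only [vec, Int.cast_zero, Int.cast_one, mul_zero, mul_one, add_zero] at a1 a2 b1 b2 c1 c2
    obtain ⟨i1, rfl⟩ := int_case hm1 a1 a2
    obtain ⟨i2, rfl⟩ := int_case hm2 b1 b2
    obtain ⟨k1, k2⟩ := hz i1 i2
    rcases dir_case hm3 hu0 hu1 c1 c2 with rfl | ⟨i3, rfl⟩
    · exact k1 hE
    · apply k2 i3
      simpa using hE

end KN
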