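import Pool.Agent.H246K3.Stubs
import Pool.Agent.H246K2.NONAB

namespace KN

open Set Filter Topology

theorem X_cyc_proof : X_cyc := by
  intro G _ g w hw hab
  obtain ⟨φ, κ, hφ⟩ := hab
  exact ⟨fun c => φ (K2NONAB.mid c), κ, fun c d => K2NONAB.step g w hw φ κ hφ c d⟩

end KN
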