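import Pool.Agent.H246K3.Stubs
import Pool.Agent.H246K2.GAUGE

/-! Task XDISC (helper724): discretization of a locally flat function. -/

set_option autoImplicit false

namespace KN

open Filter Topology

namespace K3XDISC

/-- open box -/
def Bx (q m : Z3) : Set V := {x | (q.1 : ℝ) - m.1 < x.1 ∧ x.1 < q.1 + 1 ∧
  (q.2.1 : ℝ) - m.2.1 < x.2.1 ∧ x.2.1 < q.2.1 + 1 ∧ (q.2.2 : ℝ) - m.2.2 < x.2.2 ∧ x.2.2 < q.2.2 + 1}

theorem Bx_eq (q m : Z3) : Bx q m = Set.Ioo ((q.1 : ℝ) - m.1) (q.1 + 1) ×ˢ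
    (Set.Ioo ((q.2.1 : ℝ) - m.2.1) (q.2.1 + 1) ×ˢ Set.Ioo ((q.2.2 : ℝ) - m.2.2) (q.2.2 + 1)) := by
  ext x
  constructor
  · rintro ⟨h1, h2, h3, h4, h5, h6⟩
    exact ⟨⟨h1, h2⟩, ⟨h3, h4⟩, ⟨h5, h6⟩⟩
  · rintro ⟨⟨h1, h2⟩, ⟨h3, h4⟩, ⟨h5, h6⟩⟩
    exact ⟨h1, h2, h3, h4, h5, h6⟩

theorem Bx_open (q m : Z3) : IsOpen (Bx q m) := by
  rw [Bx_eq]
  exact isOpen_Ioo.prod (isOpen_Ioo.prod isOpen_Ioo)

theorem Bx_convex (q m : Z3) : Convex ℝ (Bx q m) := by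
  rw [Bx_eq]
  exact (convex_Ioo _ _).prod ((convex_Ioo _ _).prod (convex_Ioo _ _))

/-- the hypotheses of `X_box` -/
structure Good (w : List Dir) (q m : Z3) : Prop where
  a1 : m.1 = 0 ∨ m.1 = 1
  a2 : m.2.1 = 0 ∨ m.2.1 = 1
  a3 : m.2.2 = 0 ∨ m.2.2 = 1
  e12 : m.1 = 1 → m.2.1 = 1 → ¬ Eg w q .zp ∧ (m.2.2 = 1 → ¬ Eg w (q - (0, 0, 1)) .zp)
  e13 : m.1 = 1 → m.2.2 = 1 → ¬ Eg w q .yp ∧ (m.2.1 = 1 → ¬ Eg w (q - (0, 1, 0)) .yp)
  e23 : m.2.1 = 1 → m.2.2 = 1 → ¬ Eg w q .xp ∧ (m.1 = 1 → ¬ Eg w (q - (1, 0, 0)) .xp)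

/-- the centre of a cube -/
noncomputable def mc (c : Z3) : V := ((c.1 : ℝ) + 1 / 2, (c.2.1 : ℝ) + 1 / 2, (c.2.2 : ℝ) + 1 / 2)

/-- the cubes of a block -/
def inb (q m c : Z3) : Prop := q.1 - m.1 ≤ c.1 ∧ c.1 ≤ q.1 ∧ q.2.1 - m.2.1 ≤ c.2.1 ∧ c.2.1 ≤ q.2.1 ∧
  q.2.2 - m.2.2 ≤ c.2.2 ∧ c.2.2 ≤ q.2.2

theorem mc_mem {q m c : Z3} (h : inb q m c) : mc c ∈ Bx q m := by
  obtain ⟨h1, h2, h3, h4, h5, h6⟩ := h
  have g1 : ((q.1 : ℝ) - m.1) ≤ c.1 := by exact_mod_cast h1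
  have g2 : (c.1 : ℝ) ≤ q.1 := by exact_mod_cast h2
  have g3 : ((q.2.1 : ℝ) - m.2.1) ≤ c.2.1 := by exact_mod_cast h3
  have g4 : (c.2.1 : ℝ) ≤ q.2.1 := by exact_mod_cast h4
  have g5 : ((q.2.2 : ℝ) - m.2.2) ≤ c.2.2 := by exact_mod_cast h5
  have g6 : (c.2.2 : ℝ) ≤ q.2.2 := by exact_mod_cast h6
  refine ⟨?_, ?_, ?_, ?_, ?_, ?_⟩ <;> simp only [mc] <;> linarith

theorem floor_bd {a : ℝ} {q m : ℤ} (h1 : (q : ℝ) - m < a) (h2 : a < q + 1) :
    q - m ≤ ⌊a⌋ ∧ ⌊a⌋ ≤ q := by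
  constructor
  · rw [Int.le_floor]; push_cast; linarith
  · rw [← Int.lt_add_one_iff, Int.floor_lt]; push_cast; exact h2

theorem cube_inb {q m : Z3} {a : V} (h : a ∈ Bx q m) : inb q m (cube a) := by
  obtain ⟨h1, h2, h3, h4, h5, h6⟩ := h
  have g1 := floor_bd h1 h2
  have g2 := floor_bd h3 h4
  have g3 := floor_bd h5 h6
  exact ⟨g1.1, g1.2, g2.1, g2.2, g3.1, g3.2⟩

theorem exists_D (hpot : T_pot2) {G : Type} [Group G] (T : V → V → G) (w : List Dir) :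
    ∃ D : V → V → G, ∀ (q m : Z3) (ψ : V → G), Good w q m → Pot (Bx q m) T ψ →
      ∀ a ∈ Bx q m, ∀ b ∈ Bx q m, D a b = (ψ a)⁻¹ * ψ b := by
  classical
  have : ∀ a b : V, ∃ d : G, ∀ (q m : Z3) (ψ : V → G), Good w q m → Pot (Bx q m) T ψ →
      a ∈ Bx q m → b ∈ Bx q m → d = (ψ a)⁻¹ * ψ b := by
    intro a b
    by_cases h : ∃ (q m : Z3) (ψ : V → G), Good w q m ∧ Pot (Bx q m) T ψ ∧ a ∈ Bx q m ∧ b ∈ Bx q m
    · obtain ⟨q, m, ψ, hg, hψ, ha, hb⟩ := h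
      refine ⟨(ψ a)⁻¹ * ψ b, ?_⟩
      intro q' m' ψ' hg' hψ' ha' hb'
      obtain ⟨κ, hκ⟩ := hpot G T (Bx q m) (Bx q' m') ψ ψ' hψ hψ'
        ((Bx_convex q m).inter (Bx_convex q' m')).isPreconnected
      rw [hκ a ⟨ha, ha'⟩, hκ b ⟨hb, hb'⟩]
      group
    · exact ⟨1, fun q m ψ h1 h2 h3 h4 => absurd ⟨q, m, ψ, h1, h2, h3, h4⟩ h⟩
  choose D hD using this
  exact ⟨D, fun q m ψ h1 h2 a ha b hb => hD a b q m ψ h1 h2 ha hb⟩

open Classical in
/-- is the number an integer? -/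
noncomputable def mm (x : ℝ) : ℤ := if x = (⌊x⌋ : ℤ) then 1 else 0

theorem mm_cases (x : ℝ) : mm x = 0 ∨ mm x = 1 := by
  unfold mm; split_ifs <;> simp

theorem mm_one {x : ℝ} (h : mm x = 1) : x = (⌊x⌋ : ℤ) := by
  unfold mm at h
  split_ifs at h with h1
  · exact h1
  · exact absurd h (by norm_num)

theorem mm_lt (x : ℝ) : ((⌊x⌋ : ℤ) : ℝ) - (mm x : ℤ) < x := by
  unfold mm
  split_ifs with h
  · push_cast; linarith
  · push_cast
    have : (⌊x⌋ : ℝ) < x := lt_of_le_of_ne (Int.floor_le x) (fun h' => h h'.symm)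
    linarith

theorem self_mem (x : V) : x ∈ Bx (cube x) (mm x.1, mm x.2.1, mm x.2.2) :=
  ⟨mm_lt _, Int.lt_floor_add_one _, mm_lt _, Int.lt_floor_add_one _, mm_lt _, Int.lt_floor_add_one _⟩

theorem self_inb (x : V) : inb (cube x) (mm x.1, mm x.2.1, mm x.2.2) (cube x) :=
  cube_inb (self_mem x)

open K2GAUGE in
theorem good_self (w : List Dir) (hw : SAP w) (x : V) (hx : x ∉ ps (vl w)) :
    Good w (cube x) (mm x.1, mm x.2.1, mm x.2.2) := by
  have hps : ∀ (q : Z3) (f : Dir) (u : ℝ), 0 ≤ u → u ≤ 1 →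
      x = lerp (emb q) (emb (q + vec f)) u → ¬ Eg w q f := by
    intro q f u h0 h1 hxu he
    apply hx
    rw [hxu]
    exact mem_ps w hw q f he u h0 h1
  refine ⟨mm_cases _, mm_cases _, mm_cases _, ?_, ?_, ?_⟩
  · intro h1 h2
    have e1 := mm_one h1
    have e2 := mm_one h2
    refine ⟨?_, fun h3 => ?_⟩
    · refine hps _ _ (x.2.2 - (⌊x.2.2⌋ : ℤ)) (fl_nonneg _) (fl_le _) ?_
      ext <;> simp [lerp, emb, cube, vec, -Int.self_sub_floor] <;> linarith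
    · have e3 := mm_one h3
      refine hps _ _ 1 (by norm_num) (by norm_num) ?_
      rw [lerp_one]
      ext <;> simp [emb, cube, vec] <;> linarith
  · intro h1 h3
    have e1 := mm_one h1
    have e3 := mm_one h3
    refine ⟨?_, fun h2 => ?_⟩
    · refine hps _ _ (x.2.1 - (⌊x.2.1⌋ : ℤ)) (fl_nonneg _) (fl_le _) ?_
      ext <;> simp [lerp, emb, cube, vec, -Int.self_sub_floor] <;> linarith
    · have e2 := mm_one h2
      refine hps _ _ 1 (by norm_num) (by norm_num) ?_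
      rw [lerp_one]
      ext <;> simp [emb, cube, vec] <;> linarith
  · intro h2 h3
    have e2 := mm_one h2
    have e3 := mm_one h3
    refine ⟨?_, fun h1 => ?_⟩
    · refine hps _ _ (x.1 - (⌊x.1⌋ : ℤ)) (fl_nonneg _) (fl_le _) ?_
      ext <;> simp [lerp, emb, cube, vec, -Int.self_sub_floor] <;> linarith
    · have e1 := mm_one h1
      refine hps _ _ 1 (by norm_num) (by norm_num) ?_
      rw [lerp_one]
      ext <;> simp [emb, cube, vec] <;> linarith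

end K3XDISC

open K3XDISC

theorem X_disc_proof (hconv : T_convex) (hpot : T_pot2) (hbox : X_box) : X_disc := by
  intro G _ T w hw hfl
  have hsub : ∀ q m, Good w q m → Bx q m ⊆ (ps (vl w))ᶜ := fun q m h x hx =>
    hbox w hw q m h.a1 h.a2 h.a3 h.e12 h.e13 h.e23 x hx
  have hψ : ∀ q m, Good w q m → ∃ ψ, Pot (Bx q m) T ψ := fun q m h =>
    hconv G _ T hfl (Bx q m) (Bx_open q m) (Bx_convex q m) (hsub q m h)
  obtain ⟨D, hD⟩ := exists_D hpot T w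
  let g : Gauge G := ⟨fun c => D (mc c) (mc (c + (1, 0, 0))), fun c => D (mc c) (mc (c + (0, 1, 0))),
    fun c => D (mc c) (mc (c + (0, 0, 1)))⟩
  have G1 : ∀ (q m : Z3) (ψ : V → G), Good w q m → Pot (Bx q m) T ψ → ∀ c c' : Z3,
      c + (1, 0, 0) = c' → inb q m c → inb q m c' → g.g1 c = (ψ (mc c))⁻¹ * ψ (mc c') := by
    intro q m ψ h1 h2 c c' h3 h4 h5
    subst h3
    exact hD q m ψ h1 h2 _ (mc_mem h4) _ (mc_mem h5)
  have G2 : ∀ (q m : Z3) (ψ : V → G), Good w q m → Pot (Bx q m) T ψ → ∀ c c' : Z3,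
      c + (0, 1, 0) = c' → inb q m c → inb q m c' → g.g2 c = (ψ (mc c))⁻¹ * ψ (mc c') := by
    intro q m ψ h1 h2 c c' h3 h4 h5
    subst h3
    exact hD q m ψ h1 h2 _ (mc_mem h4) _ (mc_mem h5)
  have G3 : ∀ (q m : Z3) (ψ : V → G), Good w q m → Pot (Bx q m) T ψ → ∀ c c' : Z3,
      c + (0, 0, 1) = c' → inb q m c → inb q m c' → g.g3 c = (ψ (mc c))⁻¹ * ψ (mc c') := by
    intro q m ψ h1 h2 c c' h3 h4 h5
    subst h3
    exact hD q m ψ h1 h2 _ (mc_mem h4) _ (mc_mem h5)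
  refine ⟨g, ?_, ?_⟩
  · intro q
    refine ⟨?_, ?_, ?_⟩
    · by_cases h : Eg w q .zp
      · exact Or.inl h
      · right
        have hg : Good w q (1, 1, 0) := ⟨Or.inr rfl, Or.inr rfl, Or.inl rfl,
          fun _ _ => ⟨h, fun h0 => absurd h0 (by decide)⟩, fun _ h0 => absurd h0 (by decide),
          fun _ h0 => absurd h0 (by decide)⟩
        obtain ⟨ψ, hψ1⟩ := hψ q _ hg
        unfold Fl12
        rw [G1 q _ ψ hg hψ1 (q - (1, 1, 0)) (q - (0, 1, 0)) (by ext <;> simp)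
            (by refine ⟨?_, ?_, ?_, ?_, ?_, ?_⟩ <;> simp) (by refine ⟨?_, ?_, ?_, ?_, ?_, ?_⟩ <;> simp),
          G2 q _ ψ hg hψ1 (q - (0, 1, 0)) q (by ext <;> simp)
            (by refine ⟨?_, ?_, ?_, ?_, ?_, ?_⟩ <;> simp) (by refine ⟨?_, ?_, ?_, ?_, ?_, ?_⟩ <;> simp),
          G2 q _ ψ hg hψ1 (q - (1, 1, 0)) (q - (1, 0, 0)) (by ext <;> simp)
            (by refine ⟨?_, ?_, ?_, ?_, ?_, ?_⟩ <;> simp) (by refine ⟨?_, ?_, ?_, ?_, ?_, ?_⟩ <;> simp),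
          G1 q _ ψ hg hψ1 (q - (1, 0, 0)) q (by ext <;> simp)
            (by refine ⟨?_, ?_, ?_, ?_, ?_, ?_⟩ <;> simp) (by refine ⟨?_, ?_, ?_, ?_, ?_, ?_⟩ <;> simp)]
        group
    · by_cases h : Eg w q .yp
      · exact Or.inl h
      · right
        have hg : Good w q (1, 0, 1) := ⟨Or.inr rfl, Or.inl rfl, Or.inr rfl,
          fun _ h0 => absurd h0 (by decide), fun _ _ => ⟨h, fun h0 => absurd h0 (by decide)⟩,
          fun h0 => absurd h0 (by decide)⟩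
        obtain ⟨ψ, hψ1⟩ := hψ q _ hg
        unfold Fl13
        rw [G1 q _ ψ hg hψ1 (q - (1, 0, 1)) (q - (0, 0, 1)) (by ext <;> simp)
            (by refine ⟨?_, ?_, ?_, ?_, ?_, ?_⟩ <;> simp) (by refine ⟨?_, ?_, ?_, ?_, ?_, ?_⟩ <;> simp),
          G3 q _ ψ hg hψ1 (q - (0, 0, 1)) q (by ext <;> simp)
            (by refine ⟨?_, ?_, ?_, ?_, ?_, ?_⟩ <;> simp) (by refine ⟨?_, ?_, ?_, ?_, ?_, ?_⟩ <;> simp),
          G3 q _ ψ hg hψ1 (q - (1, 0, 1)) (q - (1, 0, 0)) (by ext <;> simp)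
            (by refine ⟨?_, ?_, ?_, ?_, ?_, ?_⟩ <;> simp) (by refine ⟨?_, ?_, ?_, ?_, ?_, ?_⟩ <;> simp),
          G1 q _ ψ hg hψ1 (q - (1, 0, 0)) q (by ext <;> simp)
            (by refine ⟨?_, ?_, ?_, ?_, ?_, ?_⟩ <;> simp) (by refine ⟨?_, ?_, ?_, ?_, ?_, ?_⟩ <;> simp)]
        group
    · by_cases h : Eg w q .xp
      · exact Or.inl h
      · right
        have hg : Good w q (0, 1, 1) := ⟨Or.inl rfl, Or.inr rfl, Or.inr rfl,
          fun h0 => absurd h0 (by decide), fun h0 => absurd h0 (by decide),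
          fun _ _ => ⟨h, fun h0 => absurd h0 (by decide)⟩⟩
        obtain ⟨ψ, hψ1⟩ := hψ q _ hg
        unfold Fl23
        rw [G2 q _ ψ hg hψ1 (q - (0, 1, 1)) (q - (0, 0, 1)) (by ext <;> simp)
            (by refine ⟨?_, ?_, ?_, ?_, ?_, ?_⟩ <;> simp) (by refine ⟨?_, ?_, ?_, ?_, ?_, ?_⟩ <;> simp),
          G3 q _ ψ hg hψ1 (q - (0, 0, 1)) q (by ext <;> simp)
            (by refine ⟨?_, ?_, ?_, ?_, ?_, ?_⟩ <;> simp) (by refine ⟨?_, ?_, ?_, ?_, ?_, ?_⟩ <;> simp),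
          G3 q _ ψ hg hψ1 (q - (0, 1, 1)) (q - (0, 1, 0)) (by ext <;> simp)
            (by refine ⟨?_, ?_, ?_, ?_, ?_, ?_⟩ <;> simp) (by refine ⟨?_, ?_, ?_, ?_, ?_, ?_⟩ <;> simp),
          G2 q _ ψ hg hψ1 (q - (0, 1, 0)) q (by ext <;> simp)
            (by refine ⟨?_, ?_, ?_, ?_, ?_, ?_⟩ <;> simp) (by refine ⟨?_, ?_, ?_, ?_, ?_, ?_⟩ <;> simp)]
        group
  · rintro ⟨φ, κ, hcyc⟩
    refine ⟨fun x => φ (cube x) * D (mc (cube x)) x, κ, ?_⟩
    intro x hx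
    have hg := good_self w hw x hx
    set q := cube x with hq
    set m : Z3 := (mm x.1, mm x.2.1, mm x.2.2) with hm
    obtain ⟨ψ, hψ1⟩ := hψ q m hg
    obtain ⟨N, hN, hNT⟩ := hψ1 x (self_mem x)
    refine ⟨N ∩ Bx q m, inter_mem hN ((Bx_open q m).mem_nhds (self_mem x)), ?_⟩
    intro a ha b hb
    rw [hNT a ha.1 b hb.1]
    have hca := cube_inb ha.2
    have hcb := cube_inb hb.2
    show φ (cube a) * D (mc (cube a)) a * ((ψ a)⁻¹ * ψ b) * (φ (cube b) * D (mc (cube b)) b)⁻¹ ∈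
      Subgroup.zpowers κ
    rw [hD q m ψ hg hψ1 _ (mc_mem hca) a ha.2, hD q m ψ hg hψ1 _ (mc_mem hcb) b hb.2]
    -- the function `F`
    set F : Z3 → G := fun c => φ c * (ψ (mc c))⁻¹ with hF
    have f1 : ∀ c c' : Z3, c + (1, 0, 0) = c' → inb q m c → inb q m c' →
        F c * (F c')⁻¹ ∈ Subgroup.zpowers κ := by
      intro c c' h1 h2 h3
      have := hcyc c .xp
      have e : gst g c .xp = (ψ (mc c))⁻¹ * ψ (mc c') := G1 q m ψ hg hψ1 c c' h1 h2 h3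
      have e2 : c + vec .xp = c' := h1
      rw [e, e2] at this
      convert this using 1
      simp only [hF]
      group
    have f2 : ∀ c c' : Z3, c + (0, 1, 0) = c' → inb q m c → inb q m c' →
        F c * (F c')⁻¹ ∈ Subgroup.zpowers κ := by
      intro c c' h1 h2 h3
      have := hcyc c .yp
      have e : gst g c .yp = (ψ (mc c))⁻¹ * ψ (mc c') := G2 q m ψ hg hψ1 c c' h1 h2 h3
      have e2 : c + vec .yp = c' := h1
      rw [e, e2] at this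
      convert this using 1
      simp only [hF]
      group
    have f3 : ∀ c c' : Z3, c + (0, 0, 1) = c' → inb q m c → inb q m c' →
        F c * (F c')⁻¹ ∈ Subgroup.zpowers κ := by
      intro c c' h1 h2 h3
      have := hcyc c .zp
      have e : gst g c .zp = (ψ (mc c))⁻¹ * ψ (mc c') := G3 q m ψ hg hψ1 c c' h1 h2 h3
      have e2 : c + vec .zp = c' := h1
      rw [e, e2] at this
      convert this using 1
      simp only [hF]
      group
    have hm1 := hg.a1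
    have hm2 := hg.a2
    have hm3 := hg.a3
    have key : ∀ c : Z3, inb q m c → F c * (F q)⁻¹ ∈ Subgroup.zpowers κ := by
      rintro ⟨c1, c2, c3⟩ ⟨h1, h2, h3, h4, h5, h6⟩
      simp only at h1 h2 h3 h4 h5 h6
      have s1 : F (c1, c2, c3) * (F (q.1, c2, c3))⁻¹ ∈ Subgroup.zpowers κ := by
        by_cases h : c1 = q.1
        · rw [h, mul_inv_cancel]; exact one_mem _
        · apply f1
          · ext <;> simp; omega
          · exact ⟨h1, h2, h3, h4, h5, h6⟩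
          · exact ⟨by simp only; omega, le_refl _, h3, h4, h5, h6⟩
      have s2 : F (q.1, c2, c3) * (F (q.1, q.2.1, c3))⁻¹ ∈ Subgroup.zpowers κ := by
        by_cases h : c2 = q.2.1
        · rw [h, mul_inv_cancel]; exact one_mem _
        · apply f2
          · ext <;> simp; omega
          · exact ⟨by simp only; omega, le_refl _, h3, h4, h5, h6⟩
          · exact ⟨by simp only; omega, le_refl _, by simp only; omega, le_refl _, h5, h6⟩
      have s3 : F (q.1, q.2.1, c3) * (F (q.1, q.2.1, q.2.2))⁻¹ ∈ Subgroup.zpowers κ := by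
        by_cases h : c3 = q.2.2
        · rw [h, mul_inv_cancel]; exact one_mem _
        · apply f3
          · ext <;> simp; omega
          · exact ⟨by simp only; omega, le_refl _, by simp only; omega, le_refl _, h5, h6⟩
          · exact ⟨by simp only; omega, le_refl _, by simp only; omega, le_refl _,
              by simp only; omega, le_refl _⟩
      have s := mul_mem (mul_mem s1 s2) s3
      have e : F (c1, c2, c3) * (F (q.1, c2, c3))⁻¹ * (F (q.1, c2, c3) * (F (q.1, q.2.1, c3))⁻¹) *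
          (F (q.1, q.2.1, c3) * (F (q.1, q.2.1, q.2.2))⁻¹) = F (c1, c2, c3) * (F q)⁻¹ := by
        group
      rw [e] at s
      exact s
    have := mul_mem (key _ hca) (inv_mem (key _ hcb))
    convert this using 1
    simp only [hF]
    group

end KN
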