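import Pool.Agent.H246K3.Stubs
import Pool.Agent.H246K2.NONAB

set_option autoImplicit false

namespace KN

open Set Filter Topology

namespace K3XGRP

open K2NONAB

variable {G : Type} [Group G]

/-- `v` is the transport of `T` along the path `p` -/
def Tr {l : List V} (T : V → V → G) {x y : Cmp l} (p : Path x y) (v : G) : Prop :=
  ∃ u : ℝ → G, u 0 = 1 ∧ u 1 = v ∧ ∀ t : ℝ, 0 ≤ t → t ≤ 1 → ∀ᶠ s in 𝓝 t, 0 ≤ s → s ≤ 1 →
    u s = u t * T (p.extend t).1 (p.extend s).1

theorem tr_trans {l : List V} {T : V → V → G} {x y z : Cmp l} {p : Path x y} {q : Path y z}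
    {v v' : G} (hp : Tr T p v) (hq : Tr T q v') : Tr T (p.trans q) (v * v') := by
  obtain ⟨u, hu0, hu1, hu⟩ := hp
  obtain ⟨u', hu'0, hu'1, hu'⟩ := hq
  refine ⟨fun t => if t ≤ 1 / 2 then u (2 * t) else v * u' (2 * t - 1), ?_, ?_, ?_⟩
  · simp [hu0]
  · norm_num [hu'1]
  · -- left half
    have hL : ∀ t : ℝ, 0 ≤ t → t ≤ 1 / 2 → ∀ᶠ s in 𝓝 t, 0 ≤ s → s ≤ 1 / 2 →
        u (2 * s) = u (2 * t) * T ((p.trans q).extend t).1 ((p.trans q).extend s).1 := by
      intro t h0 h1
      have h2 := hu (2 * t) (by linarith) (by linarith)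
      have hc : Tendsto (fun s : ℝ => 2 * s) (𝓝 t) (𝓝 (2 * t)) :=
        (continuous_const.mul continuous_id).tendsto t
      filter_upwards [hc.eventually h2] with s hs a0 a1
      rw [Path.extend_trans_of_le_half _ _ h1, Path.extend_trans_of_le_half _ _ a1]
      exact hs (by linarith) (by linarith)
    have hR : ∀ t : ℝ, 1 / 2 ≤ t → t ≤ 1 → ∀ᶠ s in 𝓝 t, 1 / 2 ≤ s → s ≤ 1 →
        v * u' (2 * s - 1) =
          v * u' (2 * t - 1) * T ((p.trans q).extend t).1 ((p.trans q).extend s).1 := by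
      intro t h0 h1
      have h2 := hu' (2 * t - 1) (by linarith) (by linarith)
      have hc : Tendsto (fun s : ℝ => 2 * s - 1) (𝓝 t) (𝓝 (2 * t - 1)) :=
        ((continuous_const.mul continuous_id).sub continuous_const).tendsto t
      filter_upwards [hc.eventually h2] with s hs a0 a1
      rw [Path.extend_trans_of_half_le _ _ h0, Path.extend_trans_of_half_le _ _ a0,
        hs (by linarith) (by linarith), mul_assoc]
    intro t h0 h1
    rcases lt_trichotomy t (1 / 2) with h | h | h
    · filter_upwards [hL t h0 h.le, eventually_lt_nhds h] with s hs h2 a0 a1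
      rw [if_pos h2.le, if_pos h.le]
      exact hs a0 h2.le
    · subst h
      have e1 : u (2 * (1 / 2)) = v := by norm_num [hu1]
      have e2 : v * u' (2 * (1 / 2) - 1) = v := by norm_num [hu'0]
      filter_upwards [hL (1 / 2) h0 le_rfl, hR (1 / 2) le_rfl h1] with s hs hs' a0 a1
      rw [if_pos le_rfl]
      split_ifs with h2
      · exact hs a0 h2
      · rw [e1]
        have := hs' (not_le.1 h2).le a1
        rwa [e2] at this
    · filter_upwards [hR t h.le h1, eventually_gt_nhds h] with s hs h2 a0 a1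
      rw [if_neg (not_le.2 h2), if_neg (not_le.2 h)]
      exact hs h2.le a1

theorem tr_refl {l : List V} {T : V → V → G} (x : Cmp l) (h : T x.1 x.1 = 1) :
    Tr T (Path.refl x) 1 := by
  refine ⟨fun _ => 1, rfl, rfl, fun t _ _ => Eventually.of_forall fun s _ _ => ?_⟩
  simp [h]

/-- the centre of a cube in the complement -/
noncomputable def mc (w : List Dir) (hw : SAP w) (c : Z3) : Cmp (vl w) :=
  ⟨mid c, by rw [← gam_zero c .xp]; exact gam_not_mem w hw c .xp 0⟩

/-- a straight dual edge -/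
noncomputable def ed (w : List Dir) (hw : SAP w) (c : Z3) (d : Dir) :
    Path (mc w hw c) (mc w hw (c + vec d)) where
  toFun t := ⟨gam c d t, gam_not_mem w hw c d t⟩
  continuous_toFun := ((gam_cont c d).comp continuous_subtype_val).subtype_mk _
  source' := by
    apply Subtype.ext
    exact gam_zero c d
  target' := by
    apply Subtype.ext
    exact gam_one c d

theorem tr_ed (g : Gauge G) (w : List Dir) (hw : SAP w) (c : Z3) (d : Dir) :
    Tr (TT g) (ed w hw c d) (gst g c d) := by
  refine ⟨fun s => gtr g c (cube (gam c d s)), ?_, ?_, ?_⟩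
  · simp only [gam_zero, cube_mid, gtr_self]
  · simp only [gam_one, cube_mid, gtr_step]
  · intro t h0 h1
    refine Eventually.of_forall fun s a0 a1 => ?_
    rw [Path.extend_apply _ ⟨h0, h1⟩, Path.extend_apply _ ⟨a0, a1⟩]
    show gtr g c (cube (gam c d s)) = gtr g c (cube (gam c d t)) *
      gtr g (cube (gam c d t)) (cube (gam c d s))
    rw [gtr_two g c d _ _ (cube_gam c d t h0 h1) (cube_gam c d s a0 a1)]
    group

theorem word (g : Gauge G) (w : List Dir) (hw : SAP w) (c : Z3) (A : List Dir) :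
    ∃ p : Path (mc w hw c) (mc w hw (c + pos A)), Tr (TT g) p (hol g c A) := by
  induction A with
  | nil =>
    simp only [pos, add_zero]
    exact ⟨Path.refl _, tr_refl _ (gtr_self g _)⟩
  | cons d A ih =>
    obtain ⟨p, hp⟩ := ih
    simp only [pos, hol]
    rw [← add_assoc]
    exact ⟨p.trans (ed w hw _ d), tr_trans hp (tr_ed g w hw _ d)⟩

theorem loop (g : Gauge G) (w : List Dir) (hw : SAP w) (c : Z3) (A : List Dir) (hA : pos A = 0) :
    ∃ p : Path (mc w hw c) (mc w hw c), Tr (TT g) p (hol g c A) := by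
  have := word g w hw c A
  rwa [hA, add_zero] at this

end K3XGRP

open K3XGRP in
theorem X_grp_proof (hhom : X_homot) (hgauge : T_gauge) : X_grp := by
  intro G _ g w hw hg c A B hA hB hne
  obtain ⟨p, u, hu0, hu1, hu⟩ := loop g w hw c A hA
  obtain ⟨q, u', hu'0, hu'1, hu'⟩ := loop g w hw c B hB
  have hp : Tr (TT g) p (hol g c A) := ⟨u, hu0, hu1, hu⟩
  have hq : Tr (TT g) q (hol g c B) := ⟨u', hu'0, hu'1, hu'⟩
  refine ⟨mc w hw c, FundamentalGroup.fromPath (Path.Homotopic.Quotient.mk p),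
    FundamentalGroup.fromPath (Path.Homotopic.Quotient.mk q), fun h => ?_⟩
  have h1 : Path.Homotopic.Quotient.mk (q.trans p) = Path.Homotopic.Quotient.mk (p.trans q) := h
  have h2 : (q.trans p).Homotopic (p.trans q) := Path.Homotopic.Quotient.exact h1
  obtain ⟨v, v0, v1, hv⟩ := tr_trans hp hq
  obtain ⟨v', v'0, v'1, hv'⟩ := tr_trans hq hp
  have h3 := hhom G (vl w) (TT g) (hgauge G g w hw hg) _ _ _ _ h2 v' v v'0 v0 hv' hv
  rw [v1, v'1] at h3
  exact hne h3.symm

end KN
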