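import Pool.Agent.H246K3.Stubs

/-! # X12: homotopy invariance of the transport (task XHOMOT, helper781) -/

set_option autoImplicit false

namespace KN

open Finset Filter Topology
open scoped Classical

theorem X_homot_proof (h1 : T_lift) (h2 : T_luniq) : X_homot := by
  intro G _ l T hF x y p p' hpp u u' hu0 hu0' hu hu'
  obtain ⟨H⟩ := hpp
  -- the map of the plane
  obtain ⟨P, hP⟩ : ∃ P : ℝ → unitInterval, P = Set.projIcc (0 : ℝ) 1 zero_le_one := ⟨_, rfl⟩
  have hPu : UniformContinuous P := by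
    rw [hP]
    exact (LipschitzWith.projIcc zero_le_one).uniformContinuous
  obtain ⟨Φ, hΦ⟩ : ∃ Φ : ℝ × ℝ → V, Φ = fun z => (H (P z.1, P z.2)).1 := ⟨_, rfl⟩
  have hHc : Continuous (fun z : unitInterval × unitInterval => (H z).1) :=
    continuous_subtype_val.comp H.continuous
  have hΦu : UniformContinuous Φ := by
    rw [hΦ]
    exact (CompactSpace.uniformContinuous_of_continuous hHc).comp (hPu.prodMap hPu)
  have hΦX : ∀ z, Φ z ∈ (ps l)ᶜ := by
    intro z
    rw [hΦ]
    exact (H (P z.1, P z.2)).2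
  have hK : IsCompact (Set.range Φ) := by
    have h3 : Set.range Φ ⊆ Set.range (fun z : unitInterval × unitInterval => (H z).1) := by
      rintro _ ⟨z, rfl⟩
      rw [hΦ]
      exact ⟨(P z.1, P z.2), rfl⟩
    have h4 : Set.range (fun z : unitInterval × unitInterval => (H z).1) ⊆ Set.range Φ := by
      rintro _ ⟨z, rfl⟩
      refine ⟨(z.1.1, z.2.1), ?_⟩
      rw [hΦ, hP]
      simp only [Set.projIcc_val]
    rw [Set.Subset.antisymm h3 h4]
    exact isCompact_range hHc
  have hc : ∀ i : V, ∃ N : Set V, IsOpen N ∧ (i ∈ (ps l)ᶜ → i ∈ N) ∧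
      ∀ a ∈ N, ∀ b ∈ N, ∀ c ∈ N, T a b * T b c = T a c := by
    intro i
    by_cases hi : i ∈ (ps l)ᶜ
    · obtain ⟨N, hN, hN2⟩ := hF i hi
      exact ⟨interior N, isOpen_interior, fun _ => mem_interior_iff_mem_nhds.2 hN,
        fun a ha b hb c hc => hN2 a (interior_subset ha) b (interior_subset hb) c
          (interior_subset hc)⟩
    · exact ⟨∅, isOpen_empty, fun h => absurd h hi, fun a ha => absurd ha (Set.notMem_empty a)⟩
  choose N hNo hNm hNT using hc
  obtain ⟨δ, hδ, hδN⟩ := lebesgue_number_lemma_of_metric hK hNo (by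
    rintro _ ⟨z, rfl⟩
    exact Set.mem_iUnion.2 ⟨Φ z, hNm _ (hΦX z)⟩)
  have hmul : ∀ z : ℝ × ℝ, ∀ a ∈ Metric.ball (Φ z) δ, ∀ b ∈ Metric.ball (Φ z) δ,
      ∀ c ∈ Metric.ball (Φ z) δ, T a b * T b c = T a c := by
    intro z a ha b hb c hc
    obtain ⟨i, hi⟩ := hδN (Φ z) ⟨z, rfl⟩
    exact hNT i a (hi ha) b (hi hb) c (hi hc)
  have hself : ∀ z : ℝ × ℝ, T (Φ z) (Φ z) = 1 := by
    intro z
    have hm : Φ z ∈ Metric.ball (Φ z) δ := Metric.mem_ball_self hδ
    exact mul_eq_left.1 (hmul z _ hm _ hm _ hm)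
  -- transports
  have hcs : ∀ s : ℝ, Continuous (fun t => Φ (s, t)) := fun s =>
    hΦu.continuous.comp (by fun_prop)
  have hlift : ∀ s : ℝ, ∃ v : ℝ → G, v 0 = 1 ∧ ∀ t : ℝ, 0 ≤ t → t ≤ 1 →
      ∀ᶠ r in 𝓝 t, 0 ≤ r → r ≤ 1 → v r = v t * T (Φ (s, t)) (Φ (s, r)) := fun s =>
    h1 G (ps l)ᶜ T hF (fun t => Φ (s, t)) (hcs s) (fun t _ _ => hΦX _)
  choose v hv0 hv using hlift
  obtain ⟨η, hη, hηΦ⟩ := Metric.uniformContinuous_iff.1 hΦu (δ / 2) (by positivity)
  have hend0 : ∀ s : ℝ, Φ (s, 0) = x.1 := by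
    intro s
    rw [hΦ, hP]
    show (H (Set.projIcc (0 : ℝ) 1 zero_le_one s, Set.projIcc (0 : ℝ) 1 zero_le_one 0)).1 = x.1
    rw [Set.projIcc_left]
    have := H.source (Set.projIcc (0 : ℝ) 1 zero_le_one s)
    exact congrArg Subtype.val this
  have hend1 : ∀ s : ℝ, Φ (s, 1) = y.1 := by
    intro s
    rw [hΦ, hP]
    show (H (Set.projIcc (0 : ℝ) 1 zero_le_one s, Set.projIcc (0 : ℝ) 1 zero_le_one 1)).1 = y.1
    rw [Set.projIcc_right]
    have := H.target (Set.projIcc (0 : ℝ) 1 zero_le_one s)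
    exact congrArg Subtype.val this
  have key : ∀ s s' : ℝ, dist s s' < η → v s 1 = v s' 1 := by
    intro s s' hss
    have hclose : ∀ t : ℝ, dist (Φ (s', t)) (Φ (s, t)) < δ / 2 := by
      intro t
      refine hηΦ ?_
      rw [Prod.dist_eq]
      refine max_lt ?_ ?_
      · show dist s' s < η
        rw [dist_comm]
        exact hss
      · show dist t t < η
        rw [dist_self]
        exact hη
    have hfin := h2 G (ps l)ᶜ T hF (fun t => Φ (s', t)) (hcs s') (fun t _ _ => hΦX _)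
      (fun t => v s t * T (Φ (s, t)) (Φ (s', t))) (v s')
      (by
        show v s 0 * T (Φ (s, 0)) (Φ (s', 0)) = v s' 0
        rw [hv0, hv0, hend0 s', ← hend0 s, hself, one_mul])
      (by
        intro t ht0 ht1
        have e1 : ∀ᶠ r in 𝓝 t, dist (Φ (s, r)) (Φ (s, t)) < δ / 2 :=
          (Metric.tendsto_nhds.1 ((hcs s).continuousAt (x := t))) (δ / 2) (by positivity)
        have e2 : ∀ᶠ r in 𝓝 t, dist (Φ (s', r)) (Φ (s', t)) < δ / 2 :=
          (Metric.tendsto_nhds.1 ((hcs s').continuousAt (x := t))) (δ / 2) (by positivity)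
        filter_upwards [hv s t ht0 ht1, e1, e2] with r hr hr1 hr2 h0 h1'
        have m1 : Φ (s, t) ∈ Metric.ball (Φ (s, t)) δ := Metric.mem_ball_self hδ
        have m2 : Φ (s, r) ∈ Metric.ball (Φ (s, t)) δ := by
          rw [Metric.mem_ball]; linarith
        have m3 : Φ (s', t) ∈ Metric.ball (Φ (s, t)) δ := by
          rw [Metric.mem_ball]
          have := hclose t
          linarith
        have m4 : Φ (s', r) ∈ Metric.ball (Φ (s, t)) δ := by
          rw [Metric.mem_ball]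
          have := hclose t
          have := dist_triangle (Φ (s', r)) (Φ (s', t)) (Φ (s, t))
          linarith
        have q1 := hmul (s, t) _ m1 _ m2 _ m4
        have q2 := hmul (s, t) _ m1 _ m3 _ m4
        show v s r * T (Φ (s, r)) (Φ (s', r)) =
          v s t * T (Φ (s, t)) (Φ (s', t)) * T (Φ (s', t)) (Φ (s', r))
        rw [hr h0 h1', mul_assoc, mul_assoc, q1, q2])
      (hv s')
    have hfin' : v s 1 * T (Φ (s, 1)) (Φ (s', 1)) = v s' 1 := hfin
    rw [hend1 s', ← hend1 s, hself, mul_one] at hfin'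
    exact hfin'
  have hloc : IsLocallyConstant (fun s : ℝ => v s 1) := by
    rw [IsLocallyConstant.iff_eventually_eq]
    intro s
    filter_upwards [Metric.ball_mem_nhds s hη] with r hr
    exact key r s (Metric.mem_ball.1 hr)
  have h01 : v 0 1 = v 1 1 := hloc.apply_eq_of_preconnectedSpace 0 1
  have hu1 : u 1 = v 0 1 := by
    refine h2 G (ps l)ᶜ T hF (fun t => Φ (0, t)) (hcs 0) (fun t _ _ => hΦX _) u (v 0)
      (by rw [hu0, hv0]) ?_ (hv 0)
    have e : ∀ t : ℝ, Φ (0, t) = (p.extend t).1 := by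
      intro t
      rw [hΦ, hP]
      show (H (Set.projIcc (0 : ℝ) 1 zero_le_one 0, Set.projIcc (0 : ℝ) 1 zero_le_one t)).1 = _
      rw [Set.projIcc_left]
      have h5 : H ((⟨0, Set.left_mem_Icc.2 zero_le_one⟩ : unitInterval),
          Set.projIcc (0 : ℝ) 1 zero_le_one t) = p (Set.projIcc (0 : ℝ) 1 zero_le_one t) :=
        H.apply_zero (Set.projIcc (0 : ℝ) 1 zero_le_one t)
      rw [h5]
      rfl
    intro t ht0 ht1
    filter_upwards [hu t ht0 ht1] with r hr h0 h1'
    rw [e, e]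
    exact hr h0 h1'
  have hu1' : u' 1 = v 1 1 := by
    refine h2 G (ps l)ᶜ T hF (fun t => Φ (1, t)) (hcs 1) (fun t _ _ => hΦX _) u' (v 1)
      (by rw [hu0', hv0]) ?_ (hv 1)
    have e : ∀ t : ℝ, Φ (1, t) = (p'.extend t).1 := by
      intro t
      rw [hΦ, hP]
      show (H (Set.projIcc (0 : ℝ) 1 zero_le_one 1, Set.projIcc (0 : ℝ) 1 zero_le_one t)).1 = _
      rw [Set.projIcc_right]
      have h5 : H ((⟨1, Set.right_mem_Icc.2 zero_le_one⟩ : unitInterval),
          Set.projIcc (0 : ℝ) 1 zero_le_one t) = p' (Set.projIcc (0 : ℝ) 1 zero_le_one t) :=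
        H.apply_one (Set.projIcc (0 : ℝ) 1 zero_le_one t)
      rw [h5]
      rfl
    intro t ht0 ht1
    filter_upwards [hu' t ht0 ht1] with r hr h0 h1'
    rw [e, e]
    exact hr h0 h1'
  rw [hu1, hu1', h01]

end KN
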