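import Pool.Agent.H246K3.Stubs

set_option autoImplicit false

namespace KN

namespace K3XKCYC

open Finset Filter Topology
open scoped Classical

theorem czs_skip (b : List Dir) (x Y Z : ℤ) (a : List Dir)
    (h : ∀ a1 a2, a = a1 ++ a2 → a1 ≠ [] → (pos (a2 ++ b)).1 < x) :
    czs (a ++ b) x Y Z = czs b x Y Z := by
  induction a with
  | nil => rfl
  | cons d a ih =>
    have h0 := h [d] a rfl (by simp)
    rw [List.cons_append, czs, ih (fun a1 a2 e _ => h (d :: a1) a2 (by rw [e]; rfl) (by simp)),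
      if_neg (by rintro ⟨-, h1, -⟩; omega), if_neg (by rintro ⟨-, h1, -⟩; omega)]
    ring

theorem cys_skip (b : List Dir) (x Y Z : ℤ) (a : List Dir)
    (h : ∀ a1 a2, a = a1 ++ a2 → a1 ≠ [] → (pos (a2 ++ b)).1 < x) :
    cys (a ++ b) x Y Z = cys b x Y Z := by
  induction a with
  | nil => rfl
  | cons d a ih =>
    have h0 := h [d] a rfl (by simp)
    rw [List.cons_append, cys, ih (fun a1 a2 e _ => h (d :: a1) a2 (by rw [e]; rfl) (by simp)),
      if_neg (by rintro ⟨-, h1, -⟩; omega), if_neg (by rintro ⟨-, h1, -⟩; omega)]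
    ring

theorem suffix_mem (a b : List Dir) : pos b ∈ path (a ++ b) := by
  rw [mem_path_iff]
  exact ⟨a.length, by simp, by rw [List.drop_left]⟩

theorem l1_pts {l1 v l2 : List Dir} (h : Facing l1 v l2) (a1 a2 : List Dir) (e : l1 = a1 ++ a2) :
    (pos (a2 ++ .xm :: .zp :: .xp :: l2)).1 < (pos l2).1 + 1 := by
  have h1 := h.2.1 (pos (a2 ++ .zp :: l2)) (by
    rw [e, List.append_assoc]; exact suffix_mem _ _)
  rw [pos_append] at h1 ⊢
  simp only [pos, vec, Prod.fst_add] at h1 ⊢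
  omega

theorem l2_pts {l1 v l2 : List Dir} (h : Facing l1 v l2) (a1 a2 : List Dir) (e : l2 = a1 ++ a2) :
    (pos (a2 ++ [])).1 < (pos l2).1 + 1 := by
  have h1 := h.2.1 (pos a2) (by
    have : l1 ++ .zp :: l2 = (l1 ++ .zp :: a1) ++ a2 := by rw [e]; simp
    rw [this]; exact suffix_mem _ _)
  rw [List.append_nil]
  omega

theorem czs_m {l1 v l2 : List Dir} (h : Facing l1 v l2) (Y Z : ℤ) :
    czs (l1 ++ .xm :: .zp :: .xp :: l2) ((pos l2).1 + 1) Y Z =
      if (pos l2).2.1 = Y ∧ (pos l2).2.2 = Z then 1 else 0 := by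
  rw [czs_skip _ _ _ _ l1 (fun a1 a2 e _ => l1_pts h a1 a2 e)]
  have h2 : czs l2 ((pos l2).1 + 1) Y Z = 0 := by
    have := czs_skip [] ((pos l2).1 + 1) Y Z l2 (fun a1 a2 e _ => l2_pts h a1 a2 e)
    rw [List.append_nil] at this
    rw [this]; rfl
  simp [czs, h2, pos, vec]

theorem cys_m {l1 v l2 : List Dir} (h : Facing l1 v l2) (Y Z : ℤ) :
    cys (l1 ++ .xm :: .zp :: .xp :: l2) ((pos l2).1 + 1) Y Z = 0 := by
  rw [cys_skip _ _ _ _ l1 (fun a1 a2 e _ => l1_pts h a1 a2 e)]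
  have h2 : cys l2 ((pos l2).1 + 1) Y Z = 0 := by
    have := cys_skip [] ((pos l2).1 + 1) Y Z l2 (fun a1 a2 e _ => l2_pts h a1 a2 e)
    rw [List.append_nil] at this
    rw [this]; rfl
  simp [cys, h2]

section grp

variable {G : Type} [Group G]

theorem rel_trans {Z : Subgroup G} {a b c : G} (h1 : a * b⁻¹ ∈ Z) (h2 : b * c⁻¹ ∈ Z) :
    a * c⁻¹ ∈ Z := by
  have := Z.mul_mem h1 h2
  rwa [mul_assoc, inv_mul_cancel_left] at this

theorem rel_symm {Z : Subgroup G} {a b : G} (h1 : a * b⁻¹ ∈ Z) : b * a⁻¹ ∈ Z := by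
  have := Z.inv_mem h1
  rwa [mul_inv_rev, inv_inv] at this

theorem int_chain {Z : Subgroup G} (f : ℤ → G) (h : ∀ n, f n * (f (n + 1))⁻¹ ∈ Z) (n m : ℤ) :
    f n * (f m)⁻¹ ∈ Z := by
  have key : ∀ (k : ℕ) (n : ℤ), f n * (f (n + k))⁻¹ ∈ Z := by
    intro k
    induction k with
    | zero => intro n; simp
    | succ k ih =>
      intro n
      have e : n + ((k + 1 : ℕ) : ℤ) = n + k + 1 := by push_cast; ring
      rw [e]
      exact rel_trans (ih n) (h _)
  rcases le_total n m with hnm | hnm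
  · have := key (m - n).toNat n
    rwa [Int.toNat_of_nonneg (by omega), add_sub_cancel] at this
  · have := key (n - m).toNat m
    rw [Int.toNat_of_nonneg (by omega), add_sub_cancel] at this
    exact rel_symm this

theorem cyc_of_pos {g : Gauge G} {φ : Z3 → G} {Z : Subgroup G}
    (h1 : ∀ c, φ c * g.g1 c * (φ (c + (1, 0, 0)))⁻¹ ∈ Z)
    (h2 : ∀ c, φ c * g.g2 c * (φ (c + (0, 1, 0)))⁻¹ ∈ Z)
    (h3 : ∀ c, φ c * g.g3 c * (φ (c + (0, 0, 1)))⁻¹ ∈ Z) (c : Z3) (d : Dir) :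
    φ c * gst g c d * (φ (c + vec d))⁻¹ ∈ Z := by
  cases d with
  | xp => exact h1 c
  | yp => exact h2 c
  | zp => exact h3 c
  | xm =>
    have h := Z.inv_mem (h1 (c - (1, 0, 0)))
    have e : c - (1, 0, 0) + (1, 0, 0) = c := sub_add_cancel _ _
    have e' : c + vec .xm = c - (1, 0, 0) := by
      ext <;> simp [vec, sub_eq_add_neg]
    rw [e, mul_inv_rev, mul_inv_rev, inv_inv, ← mul_assoc] at h
    rw [e']
    exact h
  | ym =>
    have h := Z.inv_mem (h2 (c - (0, 1, 0)))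
    have e : c - (0, 1, 0) + (0, 1, 0) = c := sub_add_cancel _ _
    have e' : c + vec .ym = c - (0, 1, 0) := by
      ext <;> simp [vec, sub_eq_add_neg]
    rw [e, mul_inv_rev, mul_inv_rev, inv_inv, ← mul_assoc] at h
    rw [e']
    exact h
  | zm =>
    have h := Z.inv_mem (h3 (c - (0, 0, 1)))
    have e : c - (0, 0, 1) + (0, 0, 1) = c := sub_add_cancel _ _
    have e' : c + vec .zm = c - (0, 0, 1) := by
      ext <;> simp [vec, sub_eq_add_neg]
    rw [e, mul_inv_rev, mul_inv_rev, inv_inv, ← mul_assoc] at h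
    rw [e']
    exact h

theorem main {g : Gauge G} {l1 v l2 : List Dir} (hF : Facing l1 v l2)
    (hg1 : ∀ c, g.g1 c = 1) (hg : ∀ c : Z3, c.1 < 0 → g.g2 c = 1 ∧ g.g3 c = 1)
    (hc : Cyc (kgauge g (pos l2) (l1 ++ .xm :: .zp :: .xp :: l2))) : Cyc g := by
  obtain ⟨φ, κ, h⟩ := hc
  set y := pos l2 with hy
  set jg := kgauge g y (l1 ++ .xm :: .zp :: .xp :: l2) with hjg
  set Z := Subgroup.zpowers κ with hZ
  have j1 : ∀ c, jg.g1 c = 1 := fun c => rfl
  have j2 : ∀ c : Z3, c.1 = y.1 → ¬ (y.2.1 = c.2.1 + 1 ∧ y.2.2 = c.2.2) → jg.g2 c = 1 := by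
    intro c hc hn
    have e : jg.g2 c = (g.g2 (0, -1, 0)) ^
        (czs (l1 ++ .xm :: .zp :: .xp :: l2) (c.1 + 1) (c.2.1 + 1) c.2.2) := by
      show (if c.1 ≤ y.1 then _ else _) = _
      rw [if_pos hc.le]
      rfl
    rw [e, hc, hy, czs_m hF, if_neg hn, zpow_zero]
  have j3 : ∀ c : Z3, c.1 = y.1 → jg.g3 c = 1 := by
    intro c hc
    have e : jg.g3 c = (g.g2 (0, -1, 0)) ^
        (-(cys (l1 ++ .xm :: .zp :: .xp :: l2) (c.1 + 1) c.2.1 (c.2.2 + 1))) := by
      show (if c.1 ≤ y.1 then _ else _) = _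
      rw [if_pos hc.le]
      rfl
    rw [e, hc, hy, cys_m hF, neg_zero, zpow_zero]
  have p1 : ∀ c, φ c * (φ (c + (1, 0, 0)))⁻¹ ∈ Z := by
    intro c
    have := h c .xp
    rwa [show gst jg c .xp = 1 from j1 c, mul_one] at this
  have p2 : ∀ c, φ c * jg.g2 c * (φ (c + (0, 1, 0)))⁻¹ ∈ Z := fun c => h c .yp
  have p3 : ∀ c, φ c * jg.g3 c * (φ (c + (0, 0, 1)))⁻¹ ∈ Z := fun c => h c .zp
  -- the layer
  have lz : ∀ a b b' : ℤ, φ (y.1, a, b) * (φ (y.1, a, b'))⁻¹ ∈ Z := by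
    intro a b b'
    refine int_chain (fun n => φ (y.1, a, n)) (fun n => ?_) b b'
    have := p3 (y.1, a, n)
    rw [j3 (y.1, a, n) rfl, mul_one] at this
    simpa using this
  have ly : ∀ a a' : ℤ, φ (y.1, a, y.2.2 + 1) * (φ (y.1, a', y.2.2 + 1))⁻¹ ∈ Z := by
    intro a a'
    refine int_chain (fun n => φ (y.1, n, y.2.2 + 1)) (fun n => ?_) a a'
    have := p2 (y.1, n, y.2.2 + 1)
    rw [j2 (y.1, n, y.2.2 + 1) rfl (by rintro ⟨-, h⟩; simp at h), mul_one] at this
    simpa using this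
  have lay : ∀ c : Z3, c.1 = y.1 → φ y * (φ c)⁻¹ ∈ Z := by
    rintro ⟨a, b, c⟩ hc
    simp only at hc
    subst hc
    exact rel_trans (rel_trans (lz y.2.1 y.2.2 (y.2.2 + 1)) (ly y.2.1 b)) (lz b _ c)
  -- the potential
  refine ⟨fun c => if 0 ≤ c.1 then φ (c + (y + (1, 0, 0))) else φ y, κ, ?_⟩
  have o1 : ∀ c : Z3, 0 ≤ c.1 → ¬ ((c + (y + (1, 0, 0))).1 ≤ y.1) := by
    intro c hc
    simp only [Prod.fst_add]
    omega
  refine cyc_of_pos ?_ ?_ ?_
  · intro c
    rw [hg1, mul_one]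
    simp only [Prod.fst_add]
    by_cases hc : 0 ≤ c.1
    · rw [if_pos hc, if_pos (by omega)]
      have := p1 (c + (y + (1, 0, 0)))
      rwa [add_right_comm] at this
    · rw [if_neg hc]
      by_cases hc' : 0 ≤ c.1 + 1
      · rw [if_pos hc']
        have := p1 (c + (y + (1, 0, 0)))
        rw [add_right_comm] at this
        refine rel_trans (lay _ ?_) this
        simp only [Prod.fst_add]
        omega
      · rw [if_neg hc', mul_inv_cancel]
        exact one_mem _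
  · intro c
    simp only [Prod.fst_add, add_zero]
    by_cases hc : 0 ≤ c.1
    · rw [if_pos hc, if_pos hc]
      have := p2 (c + (y + (1, 0, 0)))
      have e : jg.g2 (c + (y + (1, 0, 0))) = g.g2 c := by
        show (if (c + (y + (1, 0, 0))).1 ≤ y.1 then _ else _) = _
        rw [if_neg (o1 c hc)]
        congr 1
        abel
      rw [e] at this
      rwa [add_right_comm] at this
    · rw [if_neg hc, if_neg hc, (hg c (by omega)).1, mul_one, mul_inv_cancel]
      exact one_mem _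
  · intro c
    simp only [Prod.fst_add, add_zero]
    by_cases hc : 0 ≤ c.1
    · rw [if_pos hc, if_pos hc]
      have := p3 (c + (y + (1, 0, 0)))
      have e : jg.g3 (c + (y + (1, 0, 0))) = g.g3 c := by
        show (if (c + (y + (1, 0, 0))).1 ≤ y.1 then _ else _) = _
        rw [if_neg (o1 c hc)]
        congr 1
        abel
      rw [e] at this
      rwa [add_right_comm] at this
    · rw [if_neg hc, if_neg hc, (hg c (by omega)).2, mul_one, mul_inv_cancel]
      exact one_mem _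

end grp

end K3XKCYC

theorem X_kcyc_proof : X_kcyc :=
  fun _ _ _ _ _ _ hF _ h1 h2 hc => K3XKCYC.main hF h1 h2 hc

end KN
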