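import Pool.Agent.H246K3.Stubs
import Pool.Agent.H246K2.JFLAT

/-!
# XKFLAT: the gauge field of a connected sum is flat outside the polygon
-/

set_option autoImplicit false

namespace KN

open Finset Filter Topology
open scoped Classical

noncomputable section

namespace K3XKFLAT

open K2JFLAT (At eg_iff at_nil at_cons at_append mem_left mem_right sh f1)

/-- letters with a small first coordinate do not contribute -/
theorem cz_append (u w : List Dir) (x y z : ℤ) (h : ∀ p ∈ path u, (p + pos w).1 < x) :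
    czs (u ++ w) x y z = czs w x y z := by
  induction u with
  | nil => rfl
  | cons d u ih =>
    rw [List.cons_append, czs, ih (fun p hp => h p (by simp [path, hp]))]
    have h1 : (pos (u ++ w)).1 < x := by
      rw [pos_append]; exact h _ (by simp [path, pos_mem_path])
    rw [if_neg (fun hh => by omega), if_neg (fun hh => by omega)]
    simp

theorem cy_append (u w : List Dir) (x y z : ℤ) (h : ∀ p ∈ path u, (p + pos w).1 < x) :
    cys (u ++ w) x y z = cys w x y z := by
  induction u with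
  | nil => rfl
  | cons d u ih =>
    rw [List.cons_append, cys, ih (fun p hp => h p (by simp [path, hp]))]
    have h1 : (pos (u ++ w)).1 < x := by
      rw [pos_append]; exact h _ (by simp [path, pos_mem_path])
    rw [if_neg (fun hh => by omega), if_neg (fun hh => by omega)]
    simp

theorem cz_zero (w : List Dir) (x y z : ℤ) (h : ∀ p ∈ path w, p.1 < x) : czs w x y z = 0 := by
  have := cz_append w [] x y z (fun p hp => by simpa [pos] using h p hp)
  rw [List.append_nil] at this
  rw [this]; rfl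

theorem cy_zero (w : List Dir) (x y z : ℤ) (h : ∀ p ∈ path w, p.1 < x) : cys w x y z = 0 := by
  have := cy_append w [] x y z (fun p hp => by simpa [pos] using h p hp)
  rw [List.append_nil] at this
  rw [this]; rfl

section

variable {l1 v l2 : List Dir} (hF : Facing l1 v l2)
include hF

theorem pos_v : pos v = (0, 0, 1) := by
  have h := hF.2.2.1.2.1
  simp only [pos, vec] at h
  have h1 := congrArg Prod.fst h
  have h2 := congrArg (fun p => p.2.1) h
  have h3 := congrArg (fun p => p.2.2) h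
  simp only [Prod.fst_add, Prod.snd_add, Prod.fst_zero, Prod.snd_zero] at h1 h2 h3
  ext
  · simp only; omega
  · simp only; omega
  · simp only; omega

theorem posm : pos (l1 ++ .xm :: .zp :: .xp :: l2) = 0 := by
  have h := hF.1.2.1
  rw [pos_append] at h ⊢
  rw [← h]
  simp only [pos, vec]
  congr 1
  ext <;> simp

theorem czm (b c : ℤ) : czs (l1 ++ .xm :: .zp :: .xp :: l2) ((pos l2).1 + 1) b c =
    if b = (pos l2).2.1 ∧ c = (pos l2).2.2 then 1 else 0 := by
  rw [cz_append]
  · rw [czs, czs, czs, cz_zero l2]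
    · simp only [pos, vec, Prod.fst_add, Prod.snd_add, reduceCtorEq, false_and, if_false, add_zero,
        zero_add, true_and, le_refl, sub_zero]
      simp only [eq_comm]
    · intro p hp
      have := hF.2.1 p (mem_right l1 l2 .zp p hp)
      omega
  · intro p hp
    have := hF.2.1 _ (mem_left l1 l2 .zp p hp)
    simp only [pos, vec, Prod.fst_add] at this ⊢
    omega

theorem cym (b c : ℤ) : cys (l1 ++ .xm :: .zp :: .xp :: l2) ((pos l2).1 + 1) b c = 0 := by
  rw [cy_append]
  · rw [cys, cys, cys, cy_zero l2]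
    · simp
    · intro p hp
      have := hF.2.1 p (mem_right l1 l2 .zp p hp)
      omega
  · intro p hp
    have := hF.2.1 _ (mem_left l1 l2 .zp p hp)
    simp only [pos, vec, Prod.fst_add] at this ⊢
    omega

/-- letters of `m` are letters of the connected sum, except for `zp` at `O` -/
theorem at_m (d : Dir) (p : Z3)
    (h : At (l1 ++ .xm :: .zp :: .xp :: l2) d p) :
    At (join l1 v l2) d p ∨ (d = .zp ∧ p = pos l2 + (1, 0, 0)) := by
  unfold join
  rw [at_append, at_cons, at_cons, at_cons] at h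
  rw [at_append, at_cons, at_append, at_cons]
  have e : pos (v ++ .xp :: l2) = pos (.zp :: .xp :: l2) := by
    rw [pos_append, pos_v hF]; simp only [pos, vec]; abel
  rcases h with h | ⟨h, h'⟩ | ⟨h, h'⟩ | h | h
  · left; left
    have e2 : pos (.xm :: (v ++ .xp :: l2)) = pos (.xm :: .zp :: .xp :: l2) := by
      rw [pos, e]; rfl
    rw [e2]; exact h
  · left; right; left; exact ⟨h, by rw [e]; exact h'⟩
  · right; exact ⟨h, h'.symm⟩
  · left; right; right; right; left; exact h
  · left; right; right; right; right; exact h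

end

/-- letters of `v` are letters of the connected sum -/
theorem at_v (l1 v l2 : List Dir) (d : Dir) (p : Z3) (h : At v d (p - (pos l2 + (1, 0, 0)))) :
    At (join l1 v l2) d p := by
  unfold join
  rw [at_append, at_cons, at_append, at_cons]
  right; right; left
  exact h

theorem eg_v (l1 v l2 : List Dir) (f : Dir) (q : Z3) (h : Eg v (q - (pos l2 + (1, 0, 0))) f) :
    Eg (join l1 v l2) q f := by
  rw [eg_iff] at h ⊢
  rcases h with h | h
  · exact Or.inl (at_v _ _ _ _ _ h)
  · refine Or.inr (at_v _ _ _ _ _ ?_)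
    rw [add_sub_right_comm]; exact h

section

variable {G : Type} [Group G] (g : Gauge G)

theorem jl1 (y : Z3) (m : List Dir) (c : Z3) : (kgauge g y m).g1 c = 1 := rfl
theorem ml1 (τ : G) (m : List Dir) (c : Z3) : (sgauge τ m).g1 c = 1 := rfl

theorem jl2 (y : Z3) (m : List Dir) (c : Z3) (h : c.1 ≤ y.1) :
    (kgauge g y m).g2 c = (sgauge (g.g2 (0, -1, 0)) m).g2 c := if_pos h
theorem jl3 (y : Z3) (m : List Dir) (c : Z3) (h : c.1 ≤ y.1) :
    (kgauge g y m).g3 c = (sgauge (g.g2 (0, -1, 0)) m).g3 c := if_pos h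
theorem jr2 (y : Z3) (m : List Dir) (c : Z3) (h : y.1 < c.1) :
    (kgauge g y m).g2 c = g.g2 (c - y - (1, 0, 0)) := if_neg (not_le.2 h)
theorem jr3 (y : Z3) (m : List Dir) (c : Z3) (h : y.1 < c.1) :
    (kgauge g y m).g3 c = g.g3 (c - y - (1, 0, 0)) := if_neg (not_le.2 h)

/-- the gauge field of `m` next to the interface -/
theorem mg2 {l1 v l2 : List Dir} (hF : Facing l1 v l2) (τ : G) (q : Z3)
    (he : q.1 = (pos l2).1 + 1) :
    (sgauge τ (l1 ++ .xm :: .zp :: .xp :: l2)).g2 (q - (1, 1, 0)) =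
      if q.2.1 - (pos l2).2.1 = 0 ∧ q.2.2 - (pos l2).2.2 = 0 then τ else 1 := by
  have e2 : (q - (1, 1, 0)).1 + 1 = (pos l2).1 + 1 := by simp [he]
  have e3 : (q - (1, 1, 0)).2.1 + 1 = q.2.1 := by simp
  have e4 : (q - (1, 1, 0)).2.2 = q.2.2 := by simp
  have e5 : czs (l1 ++ .xm :: .zp :: .xp :: l2) ((q - (1, 1, 0)).1 + 1) ((q - (1, 1, 0)).2.1 + 1)
      (q - (1, 1, 0)).2.2 = if q.2.1 = (pos l2).2.1 ∧ q.2.2 = (pos l2).2.2 then 1 else 0 := by
    rw [e2, e3, e4]; exact czm hF _ _
  unfold sgauge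
  simp only
  rw [e5]
  by_cases hc : q.2.1 = (pos l2).2.1 ∧ q.2.2 = (pos l2).2.2
  · rw [if_pos hc, if_pos ⟨by omega, by omega⟩, zpow_one]
  · rw [if_neg hc, if_neg (fun hh => hc ⟨by omega, by omega⟩), zpow_zero]

theorem mg3 {l1 v l2 : List Dir} (hF : Facing l1 v l2) (τ : G) (q : Z3)
    (he : q.1 = (pos l2).1 + 1) :
    (sgauge τ (l1 ++ .xm :: .zp :: .xp :: l2)).g3 (q - (1, 0, 1)) = 1 := by
  have e2 : (q - (1, 0, 1)).1 + 1 = (pos l2).1 + 1 := by simp [he]
  have e5 : cys (l1 ++ .xm :: .zp :: .xp :: l2) ((q - (1, 0, 1)).1 + 1) (q - (1, 0, 1)).2.1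
      ((q - (1, 0, 1)).2.2 + 1) = 0 := by
    rw [e2]; exact cym hF _ _
  unfold sgauge
  simp only
  rw [e5, neg_zero, zpow_zero]

end

end K3XKFLAT

open K3XKFLAT K2JFLAT in
theorem X_kflat_proof (h1 : X_sflat) : X_kflat := by
  intro G _ g l1 v l2 hF hg hg1 hgneg q
  have hM := h1 G (g.g2 (0, -1, 0)) _ (K3XKFLAT.posm hF)
  have hpv := pos_v hF
  rcases le_or_gt q.1 (pos l2).1 with hq | hq
  · -- left part
    obtain ⟨M1, M2, M3⟩ := hM q
    have key : ∀ f : Dir, f ≠ .zm → Eg (l1 ++ .xm :: .zp :: .xp :: l2) q f →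
        Eg (join l1 v l2) q f := by
      intro f hf h
      rw [eg_iff] at h ⊢
      rcases h with h | h
      · rcases K3XKFLAT.at_m hF _ _ h with h | ⟨h, h'⟩
        · exact Or.inl h
        · exfalso
          rw [h'] at hq
          simp only [Prod.fst_add] at hq
          omega
      · rcases K3XKFLAT.at_m hF _ _ h with h | ⟨h, h'⟩
        · exact Or.inr h
        · exfalso
          apply hf
          rw [← neg_neg_dir f, h]
          rfl
    refine ⟨M1.imp (key _ (by decide)) ?_, M2.imp (key _ (by decide)) ?_,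
      M3.imp (key _ (by decide)) ?_⟩
    · intro h
      unfold Fl12 at h ⊢
      rw [K3XKFLAT.jl1, K3XKFLAT.jl1, K3XKFLAT.jl2 _ _ _ _ (by rw [f1]; omega),
        K3XKFLAT.jl2 _ _ _ _ (by rw [f1]; omega)]
      exact h
    · intro h
      unfold Fl13 at h ⊢
      rw [K3XKFLAT.jl1, K3XKFLAT.jl1, K3XKFLAT.jl3 _ _ _ _ (by rw [f1]; omega),
        K3XKFLAT.jl3 _ _ _ _ (by rw [f1]; omega)]
      exact h
    · intro h
      unfold Fl23 at h ⊢
      rw [K3XKFLAT.jl2 _ _ _ _ (by rw [f1]; omega), K3XKFLAT.jl3 _ _ _ _ (by rw [f1]; omega),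
        K3XKFLAT.jl3 _ _ _ _ (by rw [f1]; omega), K3XKFLAT.jl2 _ _ _ _ (by rw [f1]; omega)]
      exact h
  · obtain ⟨N1, N2, N3⟩ := hg (q - (pos l2 + (1, 0, 0)))
    have key : ∀ f : Dir, f ≠ .zm → (f ≠ .zp ∨ q ≠ pos l2 + (1, 0, 0)) →
        Eg (.zm :: v) (q - (pos l2 + (1, 0, 0))) f → Eg (join l1 v l2) q f := by
      intro f hf hf2 h
      apply K3XKFLAT.eg_v
      rw [eg_iff] at h ⊢
      rw [at_cons, at_cons] at h
      rcases h with (⟨h, _⟩ | h) | (⟨h, h'⟩ | h)
      · exact absurd h hf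
      · exact Or.inl h
      · exfalso
        have hfz : f = .zp := by rw [← neg_neg_dir f, h]; rfl
        rcases hf2 with hf2 | hf2
        · exact hf2 hfz
        · apply hf2
          rw [hfz, hpv] at h'
          simp only [vec] at h'
          have h3 : q - (pos l2 + (1, 0, 0)) = 0 := by
            have : ((0 : ℤ), (0 : ℤ), (1 : ℤ)) = 0 + (0, 0, 1) := by simp
            rw [this] at h'
            exact (add_right_cancel h').symm
          exact sub_eq_zero.1 h3
      · exact Or.inr h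
    have G3 : Eg (join l1 v l2) q .xp ∨
        Fl23 (kgauge g (pos l2) (l1 ++ .xm :: .zp :: .xp :: l2)) q := by
      refine N3.imp (key _ (by decide) (Or.inl (by decide))) ?_
      intro h
      unfold Fl23 at h ⊢
      rw [K3XKFLAT.jr2 _ _ _ _ (by rw [f1]; omega), K3XKFLAT.jr3 _ _ _ _ (by rw [f1]; omega),
        K3XKFLAT.jr3 _ _ _ _ (by rw [f1]; omega), K3XKFLAT.jr2 _ _ _ _ (by rw [f1]; omega)]
      simp only [sh]
      exact h
    rcases eq_or_ne q.1 ((pos l2).1 + 1) with he | he
    · -- the interface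
      have e0 : q - (pos l2 + (1, 0, 0)) =
          (0, q.2.1 - (pos l2).2.1, q.2.2 - (pos l2).2.2) := by
        ext
        · simp [he]
        · simp
        · simp
      refine ⟨?_, ?_, G3⟩
      · by_cases hQ : q = pos l2 + (1, 0, 0)
        · right
          unfold Fl12
          rw [K3XKFLAT.jl1, K3XKFLAT.jl1, K3XKFLAT.jr2 _ _ _ _ (by rw [f1]; omega),
            K3XKFLAT.jl2 _ _ _ _ (by rw [f1]; omega), K3XKFLAT.mg2 hF _ q he, sh, e0]
          have hz : q.2.1 - (pos l2).2.1 = 0 ∧ q.2.2 - (pos l2).2.2 = 0 := by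
            rw [hQ]
            simp
          rw [if_pos hz, one_mul, mul_one, hz.1, hz.2]
          congr 1
        · refine N1.imp (key _ (by decide) (Or.inr hQ)) ?_
          intro h
          have hz : ¬ (q.2.1 - (pos l2).2.1 = 0 ∧ q.2.2 - (pos l2).2.2 = 0) := by
            intro hh
            apply hQ
            rw [← sub_eq_zero, e0, hh.1, hh.2]
            rfl
          unfold Fl12 at h ⊢
          rw [hg1, hg1, one_mul, mul_one, (hgneg (q - (pos l2 + (1, 0, 0)) - (1, 1, 0)) (by rw [e0, f1]; norm_num)).1] at h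
          rw [K3XKFLAT.jl1, K3XKFLAT.jl1, K3XKFLAT.jr2 _ _ _ _ (by rw [f1]; omega),
            K3XKFLAT.jl2 _ _ _ _ (by rw [f1]; omega), K3XKFLAT.mg2 hF _ q he, sh,
            if_neg hz, one_mul, mul_one]
          exact h
      · refine N2.imp (key _ (by decide) (Or.inl (by decide))) ?_
        intro h
        unfold Fl13 at h ⊢
        rw [hg1, hg1, one_mul, mul_one, (hgneg (q - (pos l2 + (1, 0, 0)) - (1, 0, 1)) (by rw [e0, f1]; norm_num)).2] at h
        rw [K3XKFLAT.jl1, K3XKFLAT.jl1, K3XKFLAT.jr3 _ _ _ _ (by rw [f1]; omega),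
          K3XKFLAT.jl3 _ _ _ _ (by rw [f1]; omega), K3XKFLAT.mg3 hF _ q he, sh, one_mul,
          mul_one]
        exact h
    · -- right part
      have hne : q ≠ pos l2 + (1, 0, 0) := by
        intro h
        apply he
        rw [h]
        rfl
      refine ⟨N1.imp (key _ (by decide) (Or.inr hne)) ?_,
        N2.imp (key _ (by decide) (Or.inl (by decide))) ?_, G3⟩
      · intro h
        unfold Fl12 at h ⊢
        rw [hg1, hg1] at h
        rw [K3XKFLAT.jl1, K3XKFLAT.jl1, K3XKFLAT.jr2 _ _ _ _ (by rw [f1]; omega),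
          K3XKFLAT.jr2 _ _ _ _ (by rw [f1]; omega)]
        simp only [sh]
        exact h
      · intro h
        unfold Fl13 at h ⊢
        rw [hg1, hg1] at h
        rw [K3XKFLAT.jl1, K3XKFLAT.jl1, K3XKFLAT.jr3 _ _ _ _ (by rw [f1]; omega),
          K3XKFLAT.jr3 _ _ _ _ (by rw [f1]; omega)]
        simp only [sh]
        exact h

end

end KN
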