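import Pool.Agent.H246K3.Stubs

/-!
# Invariance of non-cyclic holonomy under homeomorphisms (task XNAF)
-/

set_option autoImplicit false

namespace KN

open Finset Filter Topology
open scoped Classical

theorem X_naf_proof : X_naf := by
  rintro l l' h hh ⟨G, _, T, hflat, hab⟩
  refine ⟨G, inferInstance, fun a b => T (h.symm a) (h.symm b), ?_, fun hab' => hab ?_⟩
  · intro x hx
    have hx' : h.symm x ∈ (ps l)ᶜ := by
      intro hcon
      apply hx
      rw [← hh]
      exact ⟨h.symm x, hcon, h.apply_symm_apply x⟩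
    obtain ⟨N, hN, hN2⟩ := hflat (h.symm x) hx'
    refine ⟨h.symm ⁻¹' N, h.symm.continuous.continuousAt hN, ?_⟩
    intro a ha b hb c hc
    exact hN2 _ ha _ hb _ hc
  · obtain ⟨φ', κ, hφ⟩ := hab'
    refine ⟨fun a => φ' (h a), κ, ?_⟩
    intro x hx
    have hx' : h x ∈ (ps l')ᶜ := by
      intro hcon
      apply hx
      rw [← hh] at hcon
      obtain ⟨y, hy, hyx⟩ := hcon
      rwa [← h.injective hyx]
    obtain ⟨N, hN, hN2⟩ := hφ (h x) hx'
    refine ⟨h ⁻¹' N, h.continuous.continuousAt hN, ?_⟩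
    intro a ha b hb
    have h3 := hN2 (h a) ha (h b) hb
    simpa only [Homeomorph.symm_apply_apply] using h3

end KN
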