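import Mathlib
import Pool.Agent.H246K3.Stubs

/-! Task XNCG (helper311): a non-commutative knot group gives non-cyclic holonomy. -/

set_option autoImplicit false

namespace KN

open Filter Topology CategoryTheory
open scoped unitInterval

namespace K3XNCG

/-! ### groupoids -/

section groupoid

variable {C : Type} [Groupoid C] (x0 : C)

open Classical in
/-- morphisms transported to the base point -/
noncomputable def W {a b : C} (m : a ⟶ b) : End x0 :=
  if h : Nonempty (x0 ⟶ a) ∧ Nonempty (x0 ⟶ b) then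
    (h.1.some ≫ m ≫ Groupoid.inv h.2.some : x0 ⟶ x0) else (𝟙 x0 : x0 ⟶ x0)

theorem W_comp {a b c : C} (m : a ⟶ b) (m' : b ⟶ c) : W x0 (m ≫ m') = W x0 m' * W x0 m := by
  by_cases ha : Nonempty (x0 ⟶ a)
  · have hb : Nonempty (x0 ⟶ b) := ⟨ha.some ≫ m⟩
    have hc : Nonempty (x0 ⟶ c) := ⟨ha.some ≫ m ≫ m'⟩
    unfold W
    rw [dif_pos ⟨ha, hc⟩, dif_pos ⟨hb, hc⟩, dif_pos ⟨ha, hb⟩, End.mul_def]
    simp
  · have hb : ¬ Nonempty (x0 ⟶ b) := fun h => ha ⟨h.some ≫ Groupoid.inv m⟩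
    unfold W
    rw [dif_neg (fun h => ha h.1), dif_neg (fun h => hb h.1), dif_neg (fun h => ha h.1),
      End.mul_def]
    simp

theorem W_id (a : C) : W x0 (𝟙 a) = 1 := by
  unfold W
  split_ifs with h
  · rw [End.one_def]; simp
  · rw [End.one_def]

theorem W_inj {m m' : x0 ⟶ x0} (h : W x0 m = W x0 m') : m = m' := by
  unfold W at h
  rw [dif_pos ⟨⟨𝟙 x0⟩, ⟨𝟙 x0⟩⟩, dif_pos ⟨⟨𝟙 x0⟩, ⟨𝟙 x0⟩⟩] at h
  have h2 := (cancel_epi _).mp h
  exact (cancel_mono _).mp h2

end groupoid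

/-! ### paths in convex sets -/

theorem conv_hom {P : V → Prop} {a b : {x : V // P x}} (C : Set V) (hC : Convex ℝ C)
    (hCX : ∀ x ∈ C, P x) (p q : Path a b) (hp : ∀ t, (p t).1 ∈ C) (hq : ∀ t, (q t).1 ∈ C) :
    p.Homotopic q :=
  ⟨{ toFun := fun x => ⟨(1 - (x.1 : ℝ)) • (p x.2).1 + (x.1 : ℝ) • (q x.2).1,
        hCX _ (hC (hp _) (hq _) (by linarith [x.1.2.2]) x.1.2.1 (by ring))⟩
     continuous_toFun := by fun_prop
     map_zero_left := by intro t; ext <;> simp
     map_one_left := by intro t; ext <;> simp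
     prop' := by
      intro t x hx
      rcases hx with rfl | rfl
      · apply Subtype.ext
        simp [← add_smul]
      · apply Subtype.ext
        simp [← add_smul] }⟩

/-- the straight path -/
noncomputable def sgp {P : V → Prop} (a b : {x : V // P x})
    (h : ∀ x ∈ segment ℝ a.1 b.1, P x) : Path a b where
  toFun t := ⟨(1 - (t : ℝ)) • a.1 + (t : ℝ) • b.1,
    h _ ⟨1 - (t : ℝ), t, by linarith [t.2.2], t.2.1, by ring, rfl⟩⟩
  continuous_toFun := by fun_prop
  source' := by apply Subtype.ext; simp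
  target' := by apply Subtype.ext; simp

theorem sgp_mem {P : V → Prop} (a b : {x : V // P x}) (h : ∀ x ∈ segment ℝ a.1 b.1, P x)
    (C : Set V) (hC : Convex ℝ C) (ha : a.1 ∈ C) (hb : b.1 ∈ C) (t : I) : (sgp a b h t).1 ∈ C :=
  hC ha hb (by linarith [t.2.2]) t.2.1 (by ring)

/-- the class of a path -/
noncomputable def cl {P : V → Prop} {a b : {x : V // P x}} (p : Path a b) :
    FundamentalGroupoid.mk a ⟶ FundamentalGroupoid.mk b :=
  FundamentalGroupoid.fromPath (Path.Homotopic.Quotient.mk p)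

theorem cl_trans {P : V → Prop} {a b c : {x : V // P x}} (p : Path a b) (q : Path b c) :
    cl (p.trans q) = cl p ≫ cl q := rfl

theorem cl_refl {P : V → Prop} (a : {x : V // P x}) :
    cl (Path.refl a) = 𝟙 (FundamentalGroupoid.mk a) := rfl

theorem cl_eq {P : V → Prop} {a b : {x : V // P x}} {p q : Path a b} (h : p.Homotopic q) :
    cl p = cl q := (FundamentalGroupoid.fromPath_eq_iff_homotopic p q).mpr h

open Classical in
/-- transport along segments -/
noncomputable def TS {P : V → Prop} (x0 : {x : V // P x}) (a b : V) :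
    End (FundamentalGroupoid.mk x0) :=
  if h : ∀ x ∈ segment ℝ b a, P x then
    W (FundamentalGroupoid.mk x0)
      (cl (sgp ⟨b, h _ (left_mem_segment ℝ b a)⟩ ⟨a, h _ (right_mem_segment ℝ b a)⟩ h)) else 1

theorem trans_mem {P : V → Prop} {a b c : {x : V // P x}} (p : Path a b) (q : Path b c)
    (C : Set V) (hp : ∀ t, (p t).1 ∈ C) (hq : ∀ t, (q t).1 ∈ C) (t : I) :
    ((p.trans q) t).1 ∈ C := by
  rw [Path.trans_apply]
  split_ifs
  · exact hp _
  · exact hq _

theorem TS_flat {P : V → Prop} (hP : IsOpen {x | P x}) (x0 : {x : V // P x}) (x : V) (hx : P x) :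
    ∃ N ∈ 𝓝 x, ∀ a ∈ N, ∀ b ∈ N, ∀ c ∈ N, TS x0 a b * TS x0 b c = TS x0 a c := by
  obtain ⟨r, hr, hb⟩ := Metric.isOpen_iff.mp hP x hx
  refine ⟨Metric.ball x r, Metric.ball_mem_nhds x hr, ?_⟩
  intro a ha b hb' c hc
  have hC : Convex ℝ (Metric.ball x r) := convex_ball x r
  have h1 : ∀ x ∈ segment ℝ b a, P x := fun y hy => hb (hC.segment_subset hb' ha hy)
  have h2 : ∀ x ∈ segment ℝ c b, P x := fun y hy => hb (hC.segment_subset hc hb' hy)
  have h3 : ∀ x ∈ segment ℝ c a, P x := fun y hy => hb (hC.segment_subset hc ha hy)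
  unfold TS
  rw [dif_pos h1, dif_pos h2, dif_pos h3, ← W_comp, ← cl_trans]
  congr 1
  apply cl_eq
  apply conv_hom (Metric.ball x r) hC (fun y hy => hb hy)
  · intro t
    exact trans_mem _ _ _ (fun t => sgp_mem _ _ _ _ hC hc hb' t)
      (fun t => sgp_mem _ _ _ _ hC hb' ha t) t
  · intro t
    exact sgp_mem _ _ _ _ hC hc ha t

section holonomy

variable {P : V → Prop} (hP : IsOpen {x | P x}) (x0 : {x : V // P x})
  (φ : V → End (FundamentalGroupoid.mk x0)) (κ : End (FundamentalGroupoid.mk x0))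

/-- cyclic holonomy of a morphism -/
def PP {a b : {x : V // P x}} (m : FundamentalGroupoid.mk a ⟶ FundamentalGroupoid.mk b) : Prop :=
  φ b.1 * W (FundamentalGroupoid.mk x0) m * (φ a.1)⁻¹ ∈ Subgroup.zpowers κ

theorem PP_comp {a b c : {x : V // P x}}
    (m : FundamentalGroupoid.mk a ⟶ FundamentalGroupoid.mk b)
    (m' : FundamentalGroupoid.mk b ⟶ FundamentalGroupoid.mk c) (h : PP x0 φ κ m)
    (h' : PP x0 φ κ m') : PP x0 φ κ (m ≫ m') := by
  unfold PP at *
  have := Subgroup.mul_mem _ h' h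
  rw [W_comp]
  convert this using 1
  group

theorem PP_cancel {a b c : {x : V // P x}}
    (m : FundamentalGroupoid.mk a ⟶ FundamentalGroupoid.mk b)
    (m' : FundamentalGroupoid.mk b ⟶ FundamentalGroupoid.mk c) (h : PP x0 φ κ (m ≫ m'))
    (h' : PP x0 φ κ m') : PP x0 φ κ m := by
  unfold PP at *
  have := Subgroup.mul_mem _ (Subgroup.inv_mem _ h') h
  rw [W_comp] at this
  convert this using 1
  group

theorem PP_id (a : {x : V // P x}) : PP x0 φ κ (𝟙 (FundamentalGroupoid.mk a)) := by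
  unfold PP
  rw [W_id, mul_one, mul_inv_cancel]
  exact Subgroup.one_mem _

theorem PP_cast {a b a' b' : {x : V // P x}} (p : Path a b) (ha : a' = a) (hb : b' = b)
    (h : PP x0 φ κ (cl (p.cast ha hb))) : PP x0 φ κ (cl p) := by
  subst ha hb
  exact h

include hP in
theorem PP_path (hφ : ∀ x, P x → ∃ N ∈ 𝓝 x, ∀ a ∈ N, ∀ b ∈ N,
    φ a * TS x0 a b * (φ b)⁻¹ ∈ Subgroup.zpowers κ) {a b : {x : V // P x}} (p : Path a b) :
    PP x0 φ κ (cl p) := by
  have hloc : ∀ t0 : I, ∃ U ∈ 𝓝 t0, ∀ s ∈ U, PP x0 φ κ (cl (p.subpath t0 s)) := by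
    intro t0
    obtain ⟨N, hN, hN2⟩ := hφ (p t0).1 (p t0).2
    have hN3 : N ∩ {x | P x} ∈ 𝓝 (p t0).1 := Filter.inter_mem hN (hP.mem_nhds (p t0).2)
    obtain ⟨r, hr, hb⟩ := Metric.mem_nhds_iff.mp hN3
    have hcont : Continuous (fun t : I => (p t).1) := by fun_prop
    have hU : (fun t : I => (p t).1) ⁻¹' Metric.ball (p t0).1 r ∈ 𝓝 t0 :=
      hcont.continuousAt (Metric.ball_mem_nhds _ hr)
    obtain ⟨ε, hε, hb2⟩ := Metric.mem_nhds_iff.mp hU
    refine ⟨Metric.ball t0 ε, Metric.ball_mem_nhds _ hε, ?_⟩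
    intro s hs
    have hC : Convex ℝ (Metric.ball (p t0).1 r) := convex_ball _ _
    have hs0 : (p t0).1 ∈ Metric.ball (p t0).1 r := Metric.mem_ball_self hr
    have hs1 : (p s).1 ∈ Metric.ball (p t0).1 r := hb2 hs
    have hmem : ∀ v, ((p.subpath t0 s) v).1 ∈ Metric.ball (p t0).1 r := by
      intro v
      have h1 : (p.subpath t0 s) v ∈ Set.range (p.subpath t0 s) := ⟨v, rfl⟩
      rw [Path.range_subpath] at h1
      obtain ⟨u, hu, hu2⟩ := h1
      rw [← hu2]
      apply hb2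
      rw [Metric.mem_ball] at hs ⊢
      refine lt_of_le_of_lt ?_ hs
      rw [Subtype.dist_eq, Subtype.dist_eq, Real.dist_eq, Real.dist_eq]
      rcases Set.mem_uIcc.mp hu with ⟨h1, h2⟩ | ⟨h1, h2⟩
      · have h1' : (t0 : ℝ) ≤ u := h1
        have h2' : (u : ℝ) ≤ s := h2
        rw [abs_of_nonneg (by linarith), abs_of_nonneg (by linarith)]
        linarith
      · have h1' : (s : ℝ) ≤ u := h1
        have h2' : (u : ℝ) ≤ t0 := h2
        rw [abs_of_nonpos (by linarith), abs_of_nonpos (by linarith)]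
        linarith
    have hseg : ∀ x ∈ segment ℝ (p t0).1 (p s).1, P x :=
      fun y hy => (hb (hC.segment_subset hs0 hs1 hy)).2
    have h2 : cl (p.subpath t0 s) = cl (sgp (p t0) (p s) hseg) := by
      apply cl_eq
      apply conv_hom (Metric.ball (p t0).1 r) hC (fun y hy => (hb hy).2) _ _ hmem
      intro t
      exact sgp_mem _ _ _ _ hC hs0 hs1 t
    rw [h2]
    have h3 := hN2 (p s).1 (hb hs1).1 (p t0).1 (hb hs0).1
    unfold TS at h3
    rw [dif_pos hseg] at h3
    exact h3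
  have hiff : ∀ t0 : I, ∃ U ∈ 𝓝 t0, ∀ s ∈ U,
      (PP x0 φ κ (cl (p.subpath 0 s)) ↔ PP x0 φ κ (cl (p.subpath 0 t0))) := by
    intro t0
    obtain ⟨U, hU, hU2⟩ := hloc t0
    refine ⟨U, hU, fun s hs => ?_⟩
    have h1 : cl (p.subpath 0 s) = cl (p.subpath 0 t0) ≫ cl (p.subpath t0 s) := by
      rw [← cl_trans]
      exact (cl_eq ⟨Path.Homotopy.subpathTransSubpath p 0 t0 s⟩).symm
    rw [h1]
    exact ⟨fun h => PP_cancel x0 φ κ _ _ h (hU2 s hs), fun h => PP_comp x0 φ κ _ _ h (hU2 s hs)⟩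
  have hclopen : IsClopen {t : I | PP x0 φ κ (cl (p.subpath 0 t))} := by
    constructor
    · rw [← isOpen_compl_iff, isOpen_iff_mem_nhds]
      intro t0 ht0
      obtain ⟨U, hU, hU2⟩ := hiff t0
      filter_upwards [hU] with s hs
      intro h
      exact ht0 ((hU2 s hs).mp h)
    · rw [isOpen_iff_mem_nhds]
      intro t0 ht0
      obtain ⟨U, hU, hU2⟩ := hiff t0
      filter_upwards [hU] with s hs
      exact (hU2 s hs).mpr ht0
  have h0 : (0 : I) ∈ {t : I | PP x0 φ κ (cl (p.subpath 0 t))} := by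
    show PP x0 φ κ (cl (p.subpath 0 0))
    rw [Path.subpath_self, cl_refl]
    exact PP_id x0 φ κ _
  have h1 := hclopen.eq_univ ⟨0, h0⟩
  have h2 : (1 : I) ∈ {t : I | PP x0 φ κ (cl (p.subpath 0 t))} := by rw [h1]; trivial
  have h3 : PP x0 φ κ (cl (p.subpath 0 1)) := h2
  rw [Path.subpath_zero_one] at h3
  exact PP_cast x0 φ κ p _ _ h3

end holonomy

end K3XNCG

/-- Task XNCG -/
theorem X_ncg_proof : X_ncg := by
  rintro l hl ⟨x0, a, b, hab⟩
  refine ⟨End (FundamentalGroupoid.mk x0), inferInstance, K3XNCG.TS x0, ?_, ?_⟩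
  · intro x hx
    exact K3XNCG.TS_flat hl x0 x hx
  · rintro ⟨φ, κ, hφ⟩
    apply hab
    have key : ∀ c : FundamentalGroup (Cmp l) x0,
        K3XNCG.PP x0 φ κ (c : FundamentalGroupoid.mk x0 ⟶ FundamentalGroupoid.mk x0) := by
      intro c
      obtain ⟨p, rfl⟩ := Path.Homotopic.Quotient.mk_surjective c
      exact K3XNCG.PP_path hl x0 φ κ (fun x hx => hφ x hx) p
    have h1 := key a
    have h2 := key b
    unfold K3XNCG.PP at h1 h2
    have h3 : Commute (φ x0.1 * K3XNCG.W (FundamentalGroupoid.mk x0) a * (φ x0.1)⁻¹)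
        (φ x0.1 * K3XNCG.W (FundamentalGroupoid.mk x0) b * (φ x0.1)⁻¹) := by
      obtain ⟨m, hm⟩ := Subgroup.mem_zpowers_iff.mp h1
      obtain ⟨n, hn⟩ := Subgroup.mem_zpowers_iff.mp h2
      rw [← hm, ← hn]
      exact (Commute.refl κ).zpow_zpow m n
    have h4 : K3XNCG.W (FundamentalGroupoid.mk x0) a * K3XNCG.W (FundamentalGroupoid.mk x0) b =
        K3XNCG.W (FundamentalGroupoid.mk x0) b * K3XNCG.W (FundamentalGroupoid.mk x0) a := by
      have h5 : φ x0.1 * (K3XNCG.W (FundamentalGroupoid.mk x0) a *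
          K3XNCG.W (FundamentalGroupoid.mk x0) b) * (φ x0.1)⁻¹ =
          φ x0.1 * (K3XNCG.W (FundamentalGroupoid.mk x0) b *
          K3XNCG.W (FundamentalGroupoid.mk x0) a) * (φ x0.1)⁻¹ := by
        have := h3.eq
        convert this using 1 <;> group
      exact mul_left_cancel (mul_right_cancel h5)
    rw [← K3XNCG.W_comp, ← K3XNCG.W_comp] at h4
    exact K3XNCG.W_inj _ h4

end KN
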