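import Pool.Agent.H246K3.Stubs
import Pool.Agent.H246KN.GSAP

/-!
# Task XNINV (helper978): a knot with non-commutative group has no inverse
-/

set_option autoImplicit false

namespace KN

open Finset Filter Topology
open scoped Classical

theorem X_ninv_proof (hAmb : T_amb) (hGauge : T_gauge) (hUnab : T_unab) (hNaf : X_naf)
    (hDisc : X_disc) (hCyc : X_cyc) (hNorm : X_norm) (hKflat : X_kflat) (hKcyc : X_kcyc) :
    X_ninv := by
  intro k hk l1 v l2 hF hS hU
  obtain ⟨h, hh⟩ := hAmb _ _ hS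
  have hk' : NAf (vl (.zm :: v)) := by
    refine hNaf k (vl (.zm :: v)) h.symm ?_ hk
    rw [← hh]
    exact h.toEquiv.symm_image_image _
  obtain ⟨G, instG, T, hT, hnA⟩ := hk'
  have hSv : SAP (.zm :: v) := hF.2.2.1
  obtain ⟨g, hg, hgc⟩ := hDisc G T _ hSv hT
  have hnc : ¬ Cyc g := fun h => hnA (hgc h)
  obtain ⟨g', hg', h1, h2, h3⟩ := hNorm G g v hF.2.2.2 hSv hg
  have hK := hKflat G g' l1 v l2 hF hg' h1 h2
  have hSJ : SAP (join l1 v l2) := S_glueSAP_proof l1 v l2 hF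
  have hflat := hGauge G _ _ hSJ hK
  have hab := hUnab _ hSJ hU G _ hflat
  have hcy := hCyc G _ _ hSJ hab
  exact hnc (h3 (hKcyc G g' l1 v l2 hF hg' h1 h2 hcy))

end KN
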