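import Pool.Agent.H246K3.Stubs

/-!
# XNORM: normalization of a gauge field by a gauge transformation
-/

set_option autoImplicit false

namespace KN

open Finset Filter Topology

namespace K3XNORM

/-! ### integration over the integers -/

theorem exists_integ {G : Type} [Group G] (a : ℤ → G) (t0 : ℤ) (u : G) :
    ∃ s : ℤ → G, s t0 = u ∧ ∀ t, s (t + 1) = s t * a t := by
  let f : ℕ → G := fun n => Nat.rec u (fun n x => x * a (t0 + n)) n
  let h : ℕ → G := fun n => Nat.rec u (fun n x => x * (a (t0 - n - 1))⁻¹) n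
  have hf0 : f 0 = u := rfl
  have hf : ∀ n : ℕ, f (n + 1) = f n * a (t0 + n) := fun n => rfl
  have hh0 : h 0 = u := rfl
  have hh : ∀ n : ℕ, h (n + 1) = h n * (a (t0 - n - 1))⁻¹ := fun n => rfl
  refine ⟨fun t => if t0 ≤ t then f (t - t0).toNat else h (t0 - t).toNat, ?_, ?_⟩
  · show (if t0 ≤ t0 then f (t0 - t0).toNat else h (t0 - t0).toNat) = u
    rw [if_pos le_rfl, sub_self]
    exact hf0
  · intro t
    show (if t0 ≤ t + 1 then f (t + 1 - t0).toNat else h (t0 - (t + 1)).toNat) =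
      (if t0 ≤ t then f (t - t0).toNat else h (t0 - t).toNat) * a t
    by_cases h1 : t0 ≤ t
    · rw [if_pos (by omega), if_pos h1]
      obtain ⟨n, hn⟩ : ∃ n : ℕ, t = t0 + n := ⟨(t - t0).toNat, by omega⟩
      have e1 : (t + 1 - t0).toNat = n + 1 := by omega
      have e2 : (t - t0).toNat = n := by omega
      rw [e1, e2, hf, hn]
    · rw [if_neg h1]
      obtain ⟨n, hn⟩ : ∃ n : ℕ, t = t0 - n - 1 := ⟨(t0 - t - 1).toNat, by omega⟩
      have e2 : (t0 - t).toNat = n + 1 := by omega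
      rw [e2, hh, hn, inv_mul_cancel_right]
      by_cases h2 : t0 ≤ t0 - n - 1 + 1
      · have hn0 : n = 0 := by omega
        subst hn0
        rw [if_pos h2]
        have e3 : (t0 - ((0 : ℕ) : ℤ) - 1 + 1 - t0).toNat = 0 := by
          push_cast
          omega
        rw [e3, hf0, hh0]
      · rw [if_neg h2]
        have e3 : (t0 - (t0 - n - 1 + 1)).toNat = n := by omega
        rw [e3]

theorem const_of_step {G : Type} (f : ℤ → G) (h : ∀ t, f (t + 1) = f t) (t : ℤ) : f t = f 0 := by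
  induction t using Int.induction_on with
  | zero => rfl
  | succ n ih => rw [h, ih]
  | pred n ih =>
    rw [← ih, ← h (-(n : ℤ) - 1)]
    congr 1
    ring

theorem const_below {G : Type} (f : ℤ → G) (h : ∀ t, t ≤ -2 → f (t + 1) = f t) (t : ℤ)
    (ht : t < 0) : f t = f (-1) := by
  obtain ⟨n, hn⟩ : ∃ n : ℕ, t = -1 - n := ⟨(-1 - t).toNat, by omega⟩
  subst hn
  clear ht
  induction n with
  | zero => simp
  | succ n ih =>
    rw [← ih, ← h (-1 - ((n + 1 : ℕ) : ℤ)) (by push_cast; omega)]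
    congr 1
    push_cast
    ring

/-! ### gauge transformations -/

/-- the transformed field -/
def tr {G : Type} [Group G] (g : Gauge G) (ψ : Z3 → G) : Gauge G where
  g1 := fun c => ψ c * g.g1 c * (ψ (c + (1, 0, 0)))⁻¹
  g2 := fun c => ψ c * g.g2 c * (ψ (c + (0, 1, 0)))⁻¹
  g3 := fun c => ψ c * g.g3 c * (ψ (c + (0, 0, 1)))⁻¹

theorem aux {G : Type} [Group G] {a b c d e f x y z w : G} (h : x * y = z * w) (hae : a = e)
    (hdf : d = f) : a * x * b⁻¹ * (b * y * d⁻¹) = e * z * c⁻¹ * (c * w * f⁻¹) := by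
  subst hae hdf
  have e1 : a * x * b⁻¹ * (b * y * d⁻¹) = a * (x * y) * d⁻¹ := by group
  have e2 : a * z * c⁻¹ * (c * w * d⁻¹) = a * (z * w) * d⁻¹ := by group
  rw [e1, e2, h]

theorem Fl12_tr {G : Type} [Group G] {g : Gauge G} (ψ : Z3 → G) {q : Z3} (h : Fl12 g q) :
    Fl12 (tr g ψ) q := by
  unfold Fl12 at h ⊢
  show ψ (q - (1, 1, 0)) * g.g1 (q - (1, 1, 0)) * (ψ (q - (1, 1, 0) + (1, 0, 0)))⁻¹ *
      (ψ (q - (0, 1, 0)) * g.g2 (q - (0, 1, 0)) * (ψ (q - (0, 1, 0) + (0, 1, 0)))⁻¹) =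
    ψ (q - (1, 1, 0)) * g.g2 (q - (1, 1, 0)) * (ψ (q - (1, 1, 0) + (0, 1, 0)))⁻¹ *
      (ψ (q - (1, 0, 0)) * g.g1 (q - (1, 0, 0)) * (ψ (q - (1, 0, 0) + (1, 0, 0)))⁻¹)
  have e1 : q - (1, 1, 0) + (1, 0, 0) = q - (0, 1, 0) := by ext <;> simp
  have e2 : q - (1, 1, 0) + (0, 1, 0) = q - (1, 0, 0) := by ext <;> simp
  rw [e1, e2, sub_add_cancel, sub_add_cancel]
  exact aux h rfl rfl

theorem Fl13_tr {G : Type} [Group G] {g : Gauge G} (ψ : Z3 → G) {q : Z3} (h : Fl13 g q) :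
    Fl13 (tr g ψ) q := by
  unfold Fl13 at h ⊢
  show ψ (q - (1, 0, 1)) * g.g1 (q - (1, 0, 1)) * (ψ (q - (1, 0, 1) + (1, 0, 0)))⁻¹ *
      (ψ (q - (0, 0, 1)) * g.g3 (q - (0, 0, 1)) * (ψ (q - (0, 0, 1) + (0, 0, 1)))⁻¹) =
    ψ (q - (1, 0, 1)) * g.g3 (q - (1, 0, 1)) * (ψ (q - (1, 0, 1) + (0, 0, 1)))⁻¹ *
      (ψ (q - (1, 0, 0)) * g.g1 (q - (1, 0, 0)) * (ψ (q - (1, 0, 0) + (1, 0, 0)))⁻¹)
  have e1 : q - (1, 0, 1) + (1, 0, 0) = q - (0, 0, 1) := by ext <;> simp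
  have e2 : q - (1, 0, 1) + (0, 0, 1) = q - (1, 0, 0) := by ext <;> simp
  rw [e1, e2, sub_add_cancel, sub_add_cancel]
  exact aux h rfl rfl

theorem Fl23_tr {G : Type} [Group G] {g : Gauge G} (ψ : Z3 → G) {q : Z3} (h : Fl23 g q) :
    Fl23 (tr g ψ) q := by
  unfold Fl23 at h ⊢
  show ψ (q - (0, 1, 1)) * g.g2 (q - (0, 1, 1)) * (ψ (q - (0, 1, 1) + (0, 1, 0)))⁻¹ *
      (ψ (q - (0, 0, 1)) * g.g3 (q - (0, 0, 1)) * (ψ (q - (0, 0, 1) + (0, 0, 1)))⁻¹) =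
    ψ (q - (0, 1, 1)) * g.g3 (q - (0, 1, 1)) * (ψ (q - (0, 1, 1) + (0, 0, 1)))⁻¹ *
      (ψ (q - (0, 1, 0)) * g.g2 (q - (0, 1, 0)) * (ψ (q - (0, 1, 0) + (0, 1, 0)))⁻¹)
  have e1 : q - (0, 1, 1) + (0, 1, 0) = q - (0, 0, 1) := by ext <;> simp
  have e2 : q - (0, 1, 1) + (0, 0, 1) = q - (0, 1, 0) := by ext <;> simp
  rw [e1, e2, sub_add_cancel, sub_add_cancel]
  exact aux h rfl rfl

theorem GF_tr {G : Type} [Group G] {g : Gauge G} (ψ : Z3 → G) {w : List Dir} (h : GF g w) :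
    GF (tr g ψ) w := by
  intro q
  obtain ⟨h1, h2, h3⟩ := h q
  exact ⟨h1.imp id (Fl12_tr ψ), h2.imp id (Fl13_tr ψ), h3.imp id (Fl23_tr ψ)⟩

theorem gst_tr {G : Type} [Group G] (g : Gauge G) (ψ : Z3 → G) (c : Z3) (d : Dir) :
    gst (tr g ψ) c d = ψ c * gst g c d * (ψ (c + vec d))⁻¹ := by
  cases d
  · rfl
  · show (ψ (c - (1, 0, 0)) * g.g1 (c - (1, 0, 0)) * (ψ (c - (1, 0, 0) + (1, 0, 0)))⁻¹)⁻¹ =
      ψ c * (g.g1 (c - (1, 0, 0)))⁻¹ * (ψ (c + (-1, 0, 0)))⁻¹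
    have e : c + (-1, 0, 0) = c - (1, 0, 0) := by ext <;> simp [sub_eq_add_neg]
    rw [sub_add_cancel, e]
    group
  · rfl
  · show (ψ (c - (0, 1, 0)) * g.g2 (c - (0, 1, 0)) * (ψ (c - (0, 1, 0) + (0, 1, 0)))⁻¹)⁻¹ =
      ψ c * (g.g2 (c - (0, 1, 0)))⁻¹ * (ψ (c + (0, -1, 0)))⁻¹
    have e : c + (0, -1, 0) = c - (0, 1, 0) := by ext <;> simp [sub_eq_add_neg]
    rw [sub_add_cancel, e]
    group
  · rfl
  · show (ψ (c - (0, 0, 1)) * g.g3 (c - (0, 0, 1)) * (ψ (c - (0, 0, 1) + (0, 0, 1)))⁻¹)⁻¹ =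
      ψ c * (g.g3 (c - (0, 0, 1)))⁻¹ * (ψ (c + (0, 0, -1)))⁻¹
    have e : c + (0, 0, -1) = c - (0, 0, 1) := by ext <;> simp [sub_eq_add_neg]
    rw [sub_add_cancel, e]
    group

theorem Cyc_tr {G : Type} [Group G] (g : Gauge G) (ψ : Z3 → G) (h : Cyc (tr g ψ)) : Cyc g := by
  obtain ⟨φ, κ, hφ⟩ := h
  refine ⟨fun c => φ c * ψ c, κ, fun c d => ?_⟩
  have h1 := hφ c d
  rw [gst_tr] at h1
  have e : φ c * (ψ c * gst g c d * (ψ (c + vec d))⁻¹) * (φ (c + vec d))⁻¹ =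
      φ c * ψ c * gst g c d * (φ (c + vec d) * ψ (c + vec d))⁻¹ := by group
  rw [e] at h1
  exact h1

/-! ### edges of the word -/

theorem pos_mem_path (l1 l2 : List Dir) : pos l2 ∈ path (l1 ++ l2) := by
  induction l1 with
  | nil =>
    cases l2 with
    | nil => simp [path, pos]
    | cons d l => simp [path, pos]
  | cons d l ih => exact List.mem_cons_of_mem _ ih

theorem suffix_cases {v l1 l2 : List Dir} {f : Dir} (h : Dir.zm :: v = l1 ++ f :: l2) :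
    (f = .zm ∧ l2 = v) ∨ ∃ l, v = l ++ f :: l2 := by
  cases l1 with
  | nil =>
    rw [List.nil_append, List.cons.injEq] at h
    exact Or.inl ⟨h.1.symm, h.2.symm⟩
  | cons d l =>
    rw [List.cons_append, List.cons.injEq] at h
    exact Or.inr ⟨l, h.2⟩

theorem start_nonneg {v l1 l2 : List Dir} {f : Dir} (hv : ∀ p ∈ path v, 0 ≤ p.1)
    (h : Dir.zm :: v = l1 ++ f :: l2) : 0 ≤ (pos l2).1 := by
  rcases suffix_cases h with ⟨_, h1⟩ | ⟨l, h1⟩
  · subst h1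
    exact hv _ (pos_mem_path [] _)
  · apply hv
    rw [h1]
    have := pos_mem_path (l ++ [f]) l2
    rwa [List.append_assoc] at this

theorem not_Eg {v : List Dir} (hv : ∀ p ∈ path v, 0 ≤ p.1) {q : Z3} (hq : q.1 < 0) :
    ¬ Eg (.zm :: v) q .zp ∧ ¬ Eg (.zm :: v) q .yp ∧ ¬ Eg (.zm :: v) q .xp := by
  refine ⟨?_, ?_, ?_⟩
  · rintro ⟨l1, l2, ⟨h1, h2⟩ | ⟨h1, h2⟩⟩
    · have := start_nonneg hv h1
      rw [h2] at this
      omega
    · have := start_nonneg hv h1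
      rw [h2] at this
      simp only [vec, Prod.fst_add, add_zero] at this
      omega
  · rintro ⟨l1, l2, ⟨h1, h2⟩ | ⟨h1, h2⟩⟩
    · have := start_nonneg hv h1
      rw [h2] at this
      omega
    · have := start_nonneg hv h1
      rw [h2] at this
      simp only [vec, Prod.fst_add, add_zero] at this
      omega
  · rintro ⟨l1, l2, ⟨h1, h2⟩ | ⟨h1, h2⟩⟩
    · have := start_nonneg hv h1
      rw [h2] at this
      omega
    · rcases suffix_cases h1 with ⟨h3, _⟩ | ⟨l, h3⟩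
      · exact absurd h3 (by simp [neg])
      · have h4 := hv (pos (neg .xp :: l2)) (by
          rw [h3]
          exact pos_mem_path l _)
        have h5 : pos (neg .xp :: l2) = q := by
          show pos l2 + (-1, 0, 0) = q
          rw [h2]
          ext <;> simp [vec]
        rw [h5] at h4
        omega

end K3XNORM

open K3XNORM in
theorem X_norm_proof : X_norm := by
  intro G _ g v hv _ hg
  -- flatness in the layers below
  have hfl : ∀ q : Z3, q.1 < 0 → Fl12 g q ∧ Fl13 g q ∧ Fl23 g q := by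
    intro q hq
    obtain ⟨n1, n2, n3⟩ := not_Eg hv hq
    obtain ⟨h1, h2, h3⟩ := hg q
    exact ⟨h1.resolve_left n1, h2.resolve_left n2, h3.resolve_left n3⟩
  obtain ⟨ω, _, hω⟩ := exists_integ (fun y => g.g2 (-1, y, 0)) 0 1
  choose χ hχ0 hχ using fun y : ℤ => exists_integ (fun z => g.g3 (-1, y, z)) 0 (ω y)
  choose ρ hρ0 hρ using fun (y z : ℤ) => exists_integ (fun x => g.g1 (x, y, z)) (-1) (χ y z)
  set ψ : Z3 → G := fun c => ρ c.2.1 c.2.2 c.1 with hψ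
  have e1 : ∀ c, (tr g ψ).g1 c = 1 := by
    rintro ⟨x, y, z⟩
    show ψ (x, y, z) * g.g1 (x, y, z) * (ψ ((x, y, z) + (1, 0, 0)))⁻¹ = 1
    have h1 : ((x, y, z) : Z3) + (1, 0, 0) = (x + 1, y, z) := by simp
    rw [h1, mul_inv_eq_one]
    exact (hρ y z x).symm
  have e3 : ∀ y z : ℤ, (tr g ψ).g3 (-1, y, z) = 1 := by
    intro y z
    show ψ (-1, y, z) * g.g3 (-1, y, z) * (ψ ((-1, y, z) + (0, 0, 1)))⁻¹ = 1
    have h1 : ((-1, y, z) : Z3) + (0, 0, 1) = (-1, y, z + 1) := by simp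
    rw [h1, mul_inv_eq_one]
    show ρ y z (-1) * g.g3 (-1, y, z) = ρ y (z + 1) (-1)
    rw [hρ0, hρ0, hχ]
  have e20 : ∀ y : ℤ, (tr g ψ).g2 (-1, y, 0) = 1 := by
    intro y
    show ψ (-1, y, 0) * g.g2 (-1, y, 0) * (ψ ((-1, y, 0) + (0, 1, 0)))⁻¹ = 1
    have h1 : ((-1, y, 0) : Z3) + (0, 1, 0) = (-1, y + 1, 0) := by simp
    rw [h1, mul_inv_eq_one]
    show ρ y 0 (-1) * g.g2 (-1, y, 0) = ρ (y + 1) 0 (-1)
    rw [hρ0, hρ0, hχ0, hχ0, hω]
  have e2 : ∀ y z : ℤ, (tr g ψ).g2 (-1, y, z) = 1 := by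
    intro y z
    have hstep : ∀ t : ℤ, (tr g ψ).g2 (-1, y, t + 1) = (tr g ψ).g2 (-1, y, t) := by
      intro t
      have h1 := Fl23_tr ψ (hfl (-1, y + 1, t + 1) (by simp)).2.2
      unfold Fl23 at h1
      have a1 : ((-1, y + 1, t + 1) : Z3) - (0, 1, 1) = (-1, y, t) := by simp
      have a2 : ((-1, y + 1, t + 1) : Z3) - (0, 0, 1) = (-1, y + 1, t) := by simp
      have a3 : ((-1, y + 1, t + 1) : Z3) - (0, 1, 0) = (-1, y, t + 1) := by simp
      rw [a1, a2, a3, e3, e3, mul_one, one_mul] at h1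
      exact h1.symm
    rw [const_of_step (fun t => (tr g ψ).g2 (-1, y, t)) hstep z]
    exact e20 y
  refine ⟨tr g ψ, GF_tr ψ hg, e1, ?_, Cyc_tr g ψ⟩
  rintro ⟨x, y, z⟩ hx
  have hx' : x < 0 := hx
  constructor
  · rw [const_below (fun t => (tr g ψ).g2 (t, y, z)) ?_ x hx']
    · exact e2 y z
    · intro t ht
      have h1 := Fl12_tr ψ (hfl (t + 1, y + 1, z) (by show t + 1 < 0; omega)).1
      unfold Fl12 at h1
      have a1 : ((t + 1, y + 1, z) : Z3) - (1, 1, 0) = (t, y, z) := by simp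
      have a2 : ((t + 1, y + 1, z) : Z3) - (0, 1, 0) = (t + 1, y, z) := by simp
      rw [a1, a2, e1, e1, mul_one, one_mul] at h1
      exact h1
  · rw [const_below (fun t => (tr g ψ).g3 (t, y, z)) ?_ x hx']
    · exact e3 y z
    · intro t ht
      have h1 := Fl13_tr ψ (hfl (t + 1, y, z + 1) (by show t + 1 < 0; omega)).2.1
      unfold Fl13 at h1
      have a1 : ((t + 1, y, z + 1) : Z3) - (1, 0, 1) = (t, y, z) := by simp
      have a2 : ((t + 1, y, z + 1) : Z3) - (0, 0, 1) = (t + 1, y, z) := by simp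
      rw [a1, a2, e1, e1, mul_one, one_mul] at h1
      exact h1

end KN
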