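import Pool.Agent.H246K3.Stubs

/-! Task XOPEN: the set of points of a polygon is closed. -/

set_option autoImplicit false

namespace KN

namespace K3XOPEN

theorem ps_eq (l : List V) : ps l =
    ⋃ e ∈ (edges l).toFinset, (fun u : ℝ => lerp e.1 e.2 u) '' Set.Icc (0 : ℝ) 1 := by
  ext x
  simp only [ps, Set.mem_setOf_eq, Set.mem_iUnion, List.mem_toFinset, Set.mem_image, Set.mem_Icc]
  constructor
  · rintro ⟨e, he, u, h0, h1, rfl⟩
    exact ⟨e, he, u, ⟨h0, h1⟩, rfl⟩
  · rintro ⟨e, he, u, ⟨h0, h1⟩, rfl⟩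
    exact ⟨e, he, u, h0, h1, rfl⟩

end K3XOPEN

theorem X_open_proof : X_open := by
  intro l
  rw [isOpen_compl_iff, K3XOPEN.ps_eq]
  refine isClosed_biUnion_finset fun e _ => ?_
  refine (isCompact_Icc.image ?_).isClosed
  unfold lerp
  fun_prop

end KN
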