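import Mathlib
import Pool.Agent.H246K3.Stubs

/-! Project K3, task XSFLAT: the signed gauge field of a closed word is flat outside the word. -/

set_option autoImplicit false

namespace KN

open Finset Filter Topology

open scoped Classical

namespace K3XSFLAT

lemma Eg_cons {w : List Dir} {q : Z3} {f : Dir} (d : Dir) (h : Eg w q f) : Eg (d :: w) q f := by
  obtain ⟨l1, l2, h | h⟩ := h
  · exact ⟨d :: l1, l2, Or.inl ⟨by rw [h.1, List.cons_append], h.2⟩⟩
  · exact ⟨d :: l1, l2, Or.inr ⟨by rw [h.1, List.cons_append], h.2⟩⟩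

lemma Eg_head {w : List Dir} {q : Z3} {f : Dir} (h : pos w = q) : Eg (f :: w) q f :=
  ⟨[], w, Or.inl ⟨rfl, h⟩⟩

lemma Eg_head' {w : List Dir} {q : Z3} {f : Dir} (h : pos w = q + vec f) :
    Eg (neg f :: w) q f :=
  ⟨[], w, Or.inr ⟨rfl, h⟩⟩

lemma czs_step (w : List Dir) (x y z : ℤ) :
    Eg w (x, y, z) .zp ∨ czs w (x + 1) y z = czs w x y z := by
  induction w with
  | nil => exact Or.inr rfl
  | cons d w ih =>
    rcases ih with h | h
    · exact Or.inl (Eg_cons d h)
    · by_cases h1 : pos w = (x, y, z) ∧ d = .zp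
      · obtain ⟨h1, rfl⟩ := h1
        exact Or.inl (Eg_head h1)
      by_cases h2 : pos w = (x, y, z + 1) ∧ d = .zm
      · obtain ⟨h2, rfl⟩ := h2
        exact Or.inl (Eg_head' (f := .zp) (by rw [h2]; simp [vec]))
      right
      obtain ⟨⟨a, b, c⟩, hp⟩ : ∃ p, pos w = p := ⟨_, rfl⟩
      simp only [czs, h, hp]
      rw [hp] at h1 h2
      simp only [Prod.mk.injEq] at h1 h2
      have e1 : (d = .zp ∧ x + 1 ≤ a ∧ b = y ∧ c = z) ↔ (d = .zp ∧ x ≤ a ∧ b = y ∧ c = z) := by
        constructor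
        · rintro ⟨g1, g2, g3, g4⟩
          exact ⟨g1, by omega, g3, g4⟩
        · rintro ⟨g1, g2, g3, g4⟩
          refine ⟨g1, ?_, g3, g4⟩
          by_contra hlt
          exact h1 ⟨⟨by omega, g3, g4⟩, g1⟩
      have e2 : (d = .zm ∧ x + 1 ≤ a ∧ b = y ∧ c = z + 1) ↔
          (d = .zm ∧ x ≤ a ∧ b = y ∧ c = z + 1) := by
        constructor
        · rintro ⟨g1, g2, g3, g4⟩
          exact ⟨g1, by omega, g3, g4⟩
        · rintro ⟨g1, g2, g3, g4⟩
          refine ⟨g1, ?_, g3, g4⟩
          by_contra hlt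
          exact h2 ⟨⟨by omega, g3, g4⟩, g1⟩
      simp only [e1, e2]

lemma cys_step (w : List Dir) (x y z : ℤ) :
    Eg w (x, y, z) .yp ∨ cys w (x + 1) y z = cys w x y z := by
  induction w with
  | nil => exact Or.inr rfl
  | cons d w ih =>
    rcases ih with h | h
    · exact Or.inl (Eg_cons d h)
    · by_cases h1 : pos w = (x, y, z) ∧ d = .yp
      · obtain ⟨h1, rfl⟩ := h1
        exact Or.inl (Eg_head h1)
      by_cases h2 : pos w = (x, y + 1, z) ∧ d = .ym
      · obtain ⟨h2, rfl⟩ := h2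
        exact Or.inl (Eg_head' (f := .yp) (by rw [h2]; simp [vec]))
      right
      obtain ⟨⟨a, b, c⟩, hp⟩ : ∃ p, pos w = p := ⟨_, rfl⟩
      simp only [cys, h, hp]
      rw [hp] at h1 h2
      simp only [Prod.mk.injEq] at h1 h2
      have e1 : (d = .yp ∧ x + 1 ≤ a ∧ b = y ∧ c = z) ↔ (d = .yp ∧ x ≤ a ∧ b = y ∧ c = z) := by
        constructor
        · rintro ⟨g1, g2, g3, g4⟩
          exact ⟨g1, by omega, g3, g4⟩
        · rintro ⟨g1, g2, g3, g4⟩
          refine ⟨g1, ?_, g3, g4⟩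
          by_contra hlt
          exact h1 ⟨⟨by omega, g3, g4⟩, g1⟩
      have e2 : (d = .ym ∧ x + 1 ≤ a ∧ b = y + 1 ∧ c = z) ↔
          (d = .ym ∧ x ≤ a ∧ b = y + 1 ∧ c = z) := by
        constructor
        · rintro ⟨g1, g2, g3, g4⟩
          exact ⟨g1, by omega, g3, g4⟩
        · rintro ⟨g1, g2, g3, g4⟩
          refine ⟨g1, ?_, g3, g4⟩
          by_contra hlt
          exact h2 ⟨⟨by omega, g3, g4⟩, g1⟩
      simp only [e1, e2]

/-- indicator of the column -/
noncomputable def col (x y z : ℤ) (p : Z3) : ℤ := if x + 1 ≤ p.1 ∧ p.2.1 = y ∧ p.2.2 = z then 1 else 0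

lemma conserv (w : List Dir) (x y z : ℤ) : Eg w (x, y, z) .xp ∨
    czs w (x + 1) y (z - 1) - czs w (x + 1) y z + (cys w (x + 1) (y - 1) z - cys w (x + 1) y z) =
      col x y z (pos w) - col x y z 0 := by
  induction w with
  | nil =>
    right
    simp only [czs, cys, pos, sub_self, add_zero]
  | cons d w ih =>
    rcases ih with h | h
    · exact Or.inl (Eg_cons d h)
    · by_cases h1 : pos w = (x, y, z) ∧ d = .xp
      · obtain ⟨h1, rfl⟩ := h1
        exact Or.inl (Eg_head h1)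
      by_cases h2 : pos w = (x + 1, y, z) ∧ d = .xm
      · obtain ⟨h2, rfl⟩ := h2
        exact Or.inl (Eg_head' (f := .xp) (by rw [h2]; simp [vec]))
      right
      obtain ⟨⟨a, b, c⟩, hp⟩ : ∃ p, pos w = p := ⟨_, rfl⟩
      rw [hp] at h1 h2 h
      simp only [Prod.mk.injEq] at h1 h2
      simp only [czs, cys, pos, hp]
      have red : ∀ s t u v m e s1 s2 t1 t2 u1 u2 v1 v2 m' : ℤ, s - t + (u - v) = m - e →
          s1 - s2 - (t1 - t2) + (u1 - u2) - (v1 - v2) = m' - m →
          (s + s1 - s2) - (t + t1 - t2) + ((u + u1 - u2) - (v + v1 - v2)) = m' - e := by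
        intros; linarith
      refine red _ _ _ _ _ _ _ _ _ _ _ _ _ _ _ h ?_
      cases d <;> simp only [reduceCtorEq, false_and, if_false, true_and, not_false_iff,
        vec, col, add_zero, zero_add, Prod.mk_add_mk, and_true, and_false] at h1 h2 ⊢ <;>
      split_ifs <;> first
        | (exfalso; omega)
        | rfl

end K3XSFLAT

theorem X_sflat_proof : X_sflat := by
  intro G _ τ w hw q
  obtain ⟨q1, q2, q3⟩ := q
  refine ⟨?_, ?_, ?_⟩
  · rcases K3XSFLAT.czs_step w q1 q2 q3 with h | h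
    · exact Or.inl h
    · right
      simp only [Fl12, sgauge, Prod.mk_sub_mk, sub_zero, sub_add_cancel, one_mul, mul_one, h]
  · rcases K3XSFLAT.cys_step w q1 q2 q3 with h | h
    · exact Or.inl h
    · right
      simp only [Fl13, sgauge, Prod.mk_sub_mk, sub_zero, sub_add_cancel, one_mul, mul_one, h]
  · rcases K3XSFLAT.conserv w q1 q2 q3 with h | h
    · exact Or.inl h
    · right
      rw [hw, sub_self] at h
      simp only [Fl23, sgauge, Prod.mk_sub_mk, sub_zero, sub_add_cancel]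
      rw [← zpow_add, ← zpow_add]
      congr 1
      linarith

end KN
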