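import Pool.Agent.H246K3.Stubs

set_option autoImplicit false

namespace KN

open scoped Classical

namespace K3XTRE

theorem sap_tre : SAP (.zm :: v0) := by
  unfold SAP
  decide

end K3XTRE

theorem X_tre_proof (h1 : X_grp) (h2 : T_tflat) : X_tre := by
  refine h1 S3 tgauge (.zm :: v0) K3XTRE.sap_tre h2.1 (0, -1, -1) [.ym, .zm, .yp, .zp]
    [.xm, .xm, .ym, .ym, .ym, .zm, .yp, .zp, .yp, .yp, .xp, .xp] (by decide) (by decide) ?_
  simp [hol, gst, tgauge, pos, vec, tel, tcov, trow]
  decide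

end KN
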