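import Pool.Agent.H246K3.Stubs

set_option autoImplicit false

namespace KN

open Finset Filter Topology
open scoped Classical

namespace K3YBAS

lemma vec_rt (d f e : Dir) : vec (rt d f e) = Rp d f (vec e) := by
  have hxm : vec .xm = - vec .xp := by decide
  have hym : vec .ym = - vec .yp := by decide
  have hzm : vec .zm = - vec .zp := by decide
  have h1 : Rp d f (vec .xp) = vec d := by simp [Rp, vec]
  have h2 : Rp d f (vec .yp) = vec (cr f d) := by simp [Rp, vec]
  have h3 : Rp d f (vec .zp) = vec f := by simp [Rp, vec]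
  have hn : ∀ p : Z3, Rp d f (-p) = - Rp d f p := by
    intro p
    simp only [Rp, Prod.fst_neg, Prod.snd_neg, neg_smul]
    abel
  cases e
  · exact h1.symm
  · rw [hxm, hn, h1]
    exact vec_neg d
  · exact h2.symm
  · rw [hym, hn, h2]
    exact vec_neg _
  · exact h3.symm
  · rw [hzm, hn, h3]
    exact vec_neg f

lemma Rp_add (d f : Dir) (p q : Z3) : Rp d f (p + q) = Rp d f p + Rp d f q := by
  simp only [Rp, Prod.fst_add, Prod.snd_add, add_smul]
  abel

lemma Rp_zero (d f : Dir) : Rp d f 0 = 0 := by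
  simp [Rp]

lemma pos_map_rt (d f : Dir) (w : List Dir) : pos (w.map (rt d f)) = Rp d f (pos w) := by
  induction w with
  | nil => simp [pos, Rp_zero]
  | cons e w ih => simp only [List.map_cons, pos, ih, vec_rt, Rp_add]

lemma pos_rep (n : ℕ) (e : Dir) : pos (List.replicate n e) = n • vec e := by
  induction n with
  | zero => simp [pos]
  | succ n ih => rw [List.replicate_succ, pos, ih, succ_nsmul]

lemma pos_blk {L : ℕ} (T : ℕ) {v : List Dir} (hv : SmR L v) : pos (blk T v) = vec .zp := by
  have h1 : pos v + vec .zm = 0 := hv.1.2.1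
  have h2 : vec .zp + vec .zm = 0 := by decide
  have h3 : pos v = vec .zp := by
    have := h1.trans h2.symm
    exact add_right_cancel this
  have h4 : vec .xm = - vec .xp := by decide
  rw [blk, pos_append, pos_append, pos_rep, pos_rep, h3, h4, smul_neg]
  abel

lemma Rp_zp (d f : Dir) : Rp d f (vec .zp) = vec f := by
  simp [Rp, vec]

lemma pos_szw {L : ℕ} (T : ℕ) {v : ℕ → List Dir} (hv : ∀ i, SmR L (v i)) (s : Sz) :
    pos (szw T v s) = vec (szl s) := by
  cases s with
  | lt f => simp [szw, szl, pos]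
  | bl i d f => rw [szw, szl, pos_map_rt, pos_blk T (hv i), Rp_zp]

lemma blk_len (T : ℕ) (v : List Dir) : 1 ≤ (blk T v).length ∨ (blk T v).length = 0 := by
  omega

lemma szw_ne {L : ℕ} (T : ℕ) {v : ℕ → List Dir} (hv : ∀ i, SmR L (v i)) (s : Sz) :
    szw T v s ≠ [] := by
  intro h
  have h1 := pos_szw T hv s
  rw [h] at h1
  have h2 : ∀ e : Dir, vec e ≠ 0 := by decide
  exact h2 (szl s) (by rw [← h1]; rfl)

/-- the extra length of a symbol -/
def exl (T : ℕ) (v : ℕ → List Dir) (W : List Sz) : ℕ :=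
  ((lab W).map (fun i => (blk T (v i)).length - 1)).sum

lemma lab_cons (s : Sz) (W : List Sz) : lab (s :: W) = lab [s] ++ lab W := by
  cases s <;> simp [lab]

lemma exl_cons (T : ℕ) (v : ℕ → List Dir) (s : Sz) (W : List Sz) :
    exl T v (s :: W) = exl T v [s] + exl T v W := by
  rw [exl, exl, exl, lab_cons, List.map_append, List.sum_append]

lemma szw_len {L : ℕ} (T : ℕ) {v : ℕ → List Dir} (hv : ∀ i, SmR L (v i)) (s : Sz) :
    (szw T v s).length = 1 + exl T v [s] := by
  cases s with
  | lt f => simp [szw, exl, lab]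
  | bl i d f =>
    have h1 : (blk T (v i)).length ≠ 0 := by
      intro h
      have := szw_ne T hv (.bl i d f)
      rw [szw] at this
      apply this
      rw [List.map_eq_nil_iff]
      exact List.length_eq_zero_iff.1 h
    simp [szw, exl, lab]
    omega

lemma EZ_cons (T : ℕ) (v : ℕ → List Dir) (s : Sz) (W : List Sz) :
    EZ T v (s :: W) = szw T v s ++ EZ T v W := by
  simp [EZ]

lemma BZ_cons (s : Sz) (W : List Sz) : BZ (s :: W) = szl s :: BZ W := by
  simp [BZ]

lemma EZ_len {L : ℕ} (T : ℕ) {v : ℕ → List Dir} (hv : ∀ i, SmR L (v i)) (W : List Sz) :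
    (EZ T v W).length = W.length + exl T v W := by
  induction W with
  | nil => simp [EZ, exl, lab]
  | cons s W ih =>
    rw [EZ_cons, List.length_append, ih, szw_len T hv, exl_cons T v s W, List.length_cons]
    ring

lemma BZ_len (W : List Sz) : (BZ W).length = W.length := by simp [BZ]

lemma EZ_ge {L : ℕ} (T : ℕ) {v : ℕ → List Dir} (hv : ∀ i, SmR L (v i)) (W : List Sz) :
    W.length ≤ (EZ T v W).length := by
  rw [EZ_len T hv]
  exact Nat.le_add_right _ _

lemma pos_EZ {L : ℕ} (T : ℕ) {v : ℕ → List Dir} (hv : ∀ i, SmR L (v i)) (W : List Sz) :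
    pos (EZ T v W) = pos (BZ W) := by
  induction W with
  | nil => simp [EZ, BZ]
  | cons s W ih =>
    rw [EZ_cons, BZ_cons, pos_append, ih, pos_szw T hv, pos]
    abel

lemma key (h : T_Wrep) {L : ℕ} (T : ℕ) {v : ℕ → List Dir} (hv : ∀ i, SmR L (v i))
    (W : List Sz) :
    ∀ P : List Dir, (∀ p ∈ path (P ++ BZ W), p ∈ path (P ++ EZ T v W)) ∧
      (SAP (P ++ EZ T v W) → 4 ≤ (P ++ BZ W).length → SAP (P ++ BZ W)) := by
  induction W with
  | nil =>
    intro P
    exact ⟨fun p hp => by simpa [EZ, BZ] using hp, fun h1 _ => by simpa [EZ, BZ] using h1⟩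
  | cons s W ih =>
    intro P
    obtain ⟨h1, h2⟩ := h P (EZ T v W) (szw T v s) (szl s) (pos_szw T hv s) (szw_ne T hv s)
    obtain ⟨h3, h4⟩ := ih (P ++ [szl s])
    have e1 : P ++ BZ (s :: W) = P ++ [szl s] ++ BZ W := by
      rw [BZ_cons]
      simp
    have e2 : P ++ EZ T v (s :: W) = P ++ szw T v s ++ EZ T v W := by
      rw [EZ_cons]
      simp
    have e3 : P ++ [szl s] ++ EZ T v W = P ++ szl s :: EZ T v W := by simp
    rw [e1, e2]
    rw [e3] at h3 h4
    refine ⟨fun p hp => h1 p (h3 p hp), fun h5 h6 => h4 (h2 h5 ?_) h6⟩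
    have h7 := EZ_ge T hv W
    have h8 := BZ_len W
    simp only [List.length_append, List.length_cons, List.length_nil] at h6 ⊢
    omega

lemma rt_rt : ∀ d f d' f' e : Dir, perp d f → perp d' f' →
    rt d f (rt d' f' e) = rt (rt d f d') (rt d f f') e := by
  decide +kernel

lemma rot (T : ℕ) (v : ℕ → List Dir) (d f : Dir) (hdf : perp d f) (W : List Sz)
    (hW : ∀ A B i d' f', W = A ++ .bl i d' f' :: B → perp d' f') :
    (EZ T v W).map (rt d f) = EZ T v (W.map (rZ d f)) ∧
    (BZ W).map (rt d f) = BZ (W.map (rZ d f)) ∧ lab (W.map (rZ d f)) = lab W := by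
  induction W with
  | nil => simp [EZ, BZ, lab]
  | cons s W ih =>
    obtain ⟨h1, h2, h3⟩ := ih (fun A B i d' f' e => hW (s :: A) B i d' f' (by rw [e]; rfl))
    refine ⟨?_, ?_, ?_⟩
    · rw [EZ_cons, List.map_append, h1, List.map_cons, EZ_cons]
      congr 1
      cases s with
      | lt e => simp [szw, rZ]
      | bl i d' f' =>
        have hp : perp d' f' := hW [] W i d' f' rfl
        simp only [szw, rZ, List.map_map]
        apply List.map_congr_left
        intro e _
        exact rt_rt d f d' f' e hdf hp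
    · rw [BZ_cons, List.map_cons, h2, List.map_cons, BZ_cons]
      congr 1
      cases s <;> rfl
    · rw [List.map_cons, lab_cons, h3, lab_cons s W]
      congr 1
      cases s <;> rfl

end K3YBAS

theorem Y_bas_proof (h : T_Wrep) : Y_bas := by
  intro T L B v hB W
  have hv : ∀ i, SmR L (v i) := fun i => (hB i).1
  have hk := K3YBAS.key h T hv W []
  simp only [List.nil_append] at hk
  refine ⟨K3YBAS.pos_EZ T hv W, hk.1, K3YBAS.EZ_len T hv W, ?_, ?_⟩
  · intro h1 h2
    exact hk.2 h1 (by rw [K3YBAS.BZ_len]; exact h2)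
  · intro d f hdf hW
    exact K3YBAS.rot T v d f hdf W hW

end KN
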