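import Pool.Agent.H246K3.Stubs
import Pool.Agent.H246KN.Basic

/-!
# Task YINS: insertion of a block (adapted from WINS)
-/

set_option autoImplicit false

namespace KN

open Finset Filter Topology
open scoped Classical

namespace K3YINS

theorem rt_id (e : Dir) : rt .xp .zp e = e := by cases e <;> rfl

theorem map_rt_id (w : List Dir) : w.map (rt .xp .zp) = w := by
  induction w with
  | nil => rfl
  | cons d l ih => simp only [List.map_cons, rt_id, ih]

theorem Rp_id (p : Z3) : Rp .xp .zp p = p := by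
  obtain ⟨a, b, c⟩ := p
  simp [Rp, cr, vec]

/-- rotations do not increase the sup norm -/
theorem Rp_sup (d f : Dir) (h : perp d f) (p : Z3) (M : ℤ) (h1 : |p.1| ≤ M) (h2 : |p.2.1| ≤ M)
    (h3 : |p.2.2| ≤ M) : |(Rp d f p).1| ≤ M ∧ |(Rp d f p).2.1| ≤ M ∧ |(Rp d f p).2.2| ≤ M := by
  obtain ⟨a, b, c⟩ := p
  simp only at h1 h2 h3
  rw [abs_le] at h1 h2 h3
  cases d <;> cases f <;>
    first
    | exact absurd rfl h
    | (simp only [Rp, cr, vec, neg, abs_le, Prod.smul_mk, smul_eq_mul, Prod.mk_add_mk, mul_one,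
        mul_zero, mul_neg, add_zero, zero_add, neg_zero]
       refine ⟨⟨?_, ?_⟩, ⟨?_, ?_⟩, ⟨?_, ?_⟩⟩ <;> omega)

/-- the end point of a walk is at distance at most its length -/
theorem pos_le (w : List Dir) : |(pos w).1| ≤ w.length ∧ |(pos w).2.1| ≤ w.length ∧
    |(pos w).2.2| ≤ w.length := by
  induction w with
  | nil => simp [pos]
  | cons d l ih =>
    obtain ⟨h1, h2, h3⟩ := ih
    rw [abs_le] at h1 h2 h3
    cases d <;>
      (simp only [pos, vec, Prod.fst_add, Prod.snd_add, List.length_cons, abs_le]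
       push_cast
       refine ⟨⟨?_, ?_⟩, ⟨?_, ?_⟩, ⟨?_, ?_⟩⟩ <;> omega)

/-- vertices of a walk with a replaced edge -/
theorem path_rep (l1 l2 I : List Dir) (f : Dir) (hI : pos I = vec f) (p : Z3)
    (hp : p ∈ path (l1 ++ (I ++ l2))) :
    p ∈ path (l1 ++ f :: l2) ∨ ∃ i, p = pos (I.drop i) + pos l2 := by
  rw [path_append, List.mem_append] at hp
  have hpos : pos (I ++ l2) = pos (f :: l2) := by
    rw [pos_append, hI, pos, add_comm]
  rcases hp with hp | hp
  · left
    rw [path_append, List.mem_append]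
    left
    rw [← hpos]
    exact hp
  · rw [path_append, List.mem_append] at hp
    rcases hp with hp | hp
    · right
      obtain ⟨q, hq, rfl⟩ := List.mem_map.mp hp
      have hq' : q ∈ path I := List.mem_of_mem_dropLast hq
      obtain ⟨i, -, rfl⟩ := (mem_path_iff I q).mp hq'
      exact ⟨i, rfl⟩
    · left
      rw [path_append, List.mem_append]
      right
      rw [path]
      exact List.mem_cons_of_mem _ hp

/-- length of a block -/
theorem blk_le {L B : ℕ} {v : ℕ → List Dir} (hv : SmB L B v) (T i : ℕ) :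
    (blk T (v i)).length ≤ B + 2 * T := by
  have h := (hv i).2
  simp only [blk, List.length_append, List.length_replicate] at h ⊢
  omega

/-- the room of an old block is not touched by the new block -/
theorem room_aux (T L B : ℕ) (d f : Dir) (hdf : perp d f) (y y1 : Z3) (P Q : List Z3)
    (hfar : ¬ near (raZ T L B - 20) y y1)
    (hold : (∀ j : ℕ, 1 ≤ j → j ≤ T → y1 + Rp d f ((j : ℤ), 0, 0) ∉ P ∧
      y1 + Rp d f ((j : ℤ), 0, 1) ∉ P) ∧
      ∀ h : Z3, (T : ℤ) + 1 ≤ h.1 → h.1 ≤ T + L + 1 → |h.2.1| ≤ L → -(L : ℤ) ≤ h.2.2 →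
        h.2.2 ≤ L + 1 → y1 + Rp d f h ∉ P)
    (hQ : ∀ p ∈ Q, p ∈ P ∨ ∃ q : Z3, p = q + y ∧ |q.1| ≤ (B : ℤ) + 2 * T ∧
      |q.2.1| ≤ (B : ℤ) + 2 * T ∧ |q.2.2| ≤ (B : ℤ) + 2 * T) :
    (∀ j : ℕ, 1 ≤ j → j ≤ T → y1 + Rp d f ((j : ℤ), 0, 0) ∉ Q ∧
      y1 + Rp d f ((j : ℤ), 0, 1) ∉ Q) ∧
      ∀ h : Z3, (T : ℤ) + 1 ≤ h.1 → h.1 ≤ T + L + 1 → |h.2.1| ≤ L → -(L : ℤ) ≤ h.2.2 →
        h.2.2 ≤ L + 1 → y1 + Rp d f h ∉ Q := by
  have key : ∀ h : Z3, |h.1| ≤ T + L + 1 → |h.2.1| ≤ T + L + 1 → |h.2.2| ≤ T + L + 1 →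
      y1 + Rp d f h ∉ P → y1 + Rp d f h ∉ Q := by
    intro h h1 h2 h3 hP hmem
    rcases hQ _ hmem with hc | ⟨q, hq, q1, q2, q3⟩
    · exact hP hc
    · apply hfar
      obtain ⟨r1, r2, r3⟩ := Rp_sup d f hdf h _ h1 h2 h3
      have e1 := congrArg (fun p : Z3 => p.1) hq
      have e2 := congrArg (fun p : Z3 => p.2.1) hq
      have e3 := congrArg (fun p : Z3 => p.2.2) hq
      simp only [Prod.fst_add, Prod.snd_add] at e1 e2 e3
      have hr : ((raZ T L B - 20 : ℕ) : ℤ) = 4 * (B + 3 * T + L + 10) - 20 := by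
        unfold raZ; push_cast [Nat.cast_sub]; omega
      rw [abs_le] at q1 q2 q3 r1 r2 r3
      refine ⟨?_, ?_, ?_⟩
      · rw [hr, abs_le]; constructor <;> omega
      · rw [hr, abs_le]; constructor <;> omega
      · rw [hr, abs_le]; constructor <;> omega
  refine ⟨fun j hj1 hj2 => ⟨?_, ?_⟩, fun h g1 g2 g3 g4 g5 => ?_⟩
  · refine key _ ?_ ?_ ?_ (hold.1 j hj1 hj2).1
    · rw [abs_le]; constructor <;> simp only <;> omega
    · simp only [abs_zero]; omega
    · simp only [abs_zero]; omega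
  · refine key _ ?_ ?_ ?_ (hold.1 j hj1 hj2).2
    · rw [abs_le]; constructor <;> simp only <;> omega
    · simp only [abs_zero]; omega
    · simp only [abs_one]; omega
  · rw [abs_le] at g3
    refine key h ?_ ?_ ?_ (hold.2 h g1 g2 (abs_le.mpr g3) g4 g5)
    · rw [abs_le]; constructor <;> omega
    · rw [abs_le]; constructor <;> omega
    · rw [abs_le]; constructor <;> omega

theorem EZ_append (T : ℕ) (v : ℕ → List Dir) (A B : List Sz) :
    EZ T v (A ++ B) = EZ T v A ++ EZ T v B := by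
  simp [EZ]

theorem EZ_lt (T : ℕ) (v : ℕ → List Dir) (e : Dir) (B : List Sz) :
    EZ T v (.lt e :: B) = e :: EZ T v B := by
  simp [EZ, szw]

theorem EZ_bl (T : ℕ) (v : ℕ → List Dir) (i : ℕ) (d f : Dir) (B : List Sz) :
    EZ T v (.bl i d f :: B) = (blk T (v i)).map (rt d f) ++ EZ T v B := by
  simp [EZ, szw]

theorem BZ_eq (i : ℕ) (A B : List Sz) : BZ (A ++ .bl i .xp .zp :: B) = BZ (A ++ .lt .zp :: B) := by
  simp [BZ, szl]

/-- position of a decomposition -/
theorem decomp (A B A1 B1 : List Sz) (s t : Sz) (h : A ++ s :: B = A1 ++ t :: B1) :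
    (A1 = A ∧ t = s ∧ B1 = B) ∨ (∃ A2, A = A1 ++ t :: A2 ∧ B1 = A2 ++ s :: B) ∨
      ∃ B2, B = B2 ++ t :: B1 ∧ A1 = A ++ s :: B2 := by
  rcases List.append_eq_append_iff.mp h with ⟨a', h1, h2⟩ | ⟨c', h1, h2⟩
  · cases a' with
    | nil =>
      left
      simp only [List.nil_append, List.cons.injEq] at h2
      exact ⟨by simpa using h1, h2.1.symm, h2.2.symm⟩
    | cons a l =>
      right; right
      simp only [List.cons_append, List.cons.injEq] at h2
      obtain ⟨rfl, h2⟩ := h2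
      exact ⟨l, h2, h1⟩
  · cases c' with
    | nil =>
      left
      simp only [List.nil_append, List.cons.injEq] at h2
      exact ⟨by simpa using h1.symm, h2.1, h2.2⟩
    | cons a l =>
      right; left
      simp only [List.cons_append, List.cons.injEq] at h2
      obtain ⟨rfl, h2⟩ := h2
      exact ⟨l, h1, h2⟩

end K3YINS

open K3YINS

theorem Y_ins_proof (hbas : Y_bas) (hssap : T_ssap) : Y_ins := by
  intro T L B v hv A B' i hval hspot hfar
  have hvi := hv i
  have hpb : pos (blk T (v i)) = vec .zp := by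
    have := (hbas T L B v hv [.bl i .xp .zp]).1
    simpa [EZ, szw, BZ, szl, map_rt_id, pos] using this
  have hlen : ((blk T (v i)).length : ℤ) ≤ (B : ℤ) + 2 * T := by
    have := blk_le hv T i
    exact_mod_cast this
  have hEZ : EZ T v (A ++ .bl i .xp .zp :: B') = EZ T v A ++ blk T (v i) ++ EZ T v B' := by
    rw [EZ_append, EZ_bl, map_rt_id, List.append_assoc]
  have hdrop : ∀ j, |(pos ((blk T (v i)).drop j)).1| ≤ (B : ℤ) + 2 * T ∧
      |(pos ((blk T (v i)).drop j)).2.1| ≤ (B : ℤ) + 2 * T ∧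
      |(pos ((blk T (v i)).drop j)).2.2| ≤ (B : ℤ) + 2 * T := by
    intro j
    have h1 := pos_le ((blk T (v i)).drop j)
    have h2 : ((blk T (v i)).drop j).length ≤ (blk T (v i)).length := by simp
    have h3 : (((blk T (v i)).drop j).length : ℤ) ≤ (blk T (v i)).length := by exact_mod_cast h2
    have h4 := h3.trans hlen
    exact ⟨h1.1.trans h4, h1.2.1.trans h4, h1.2.2.trans h4⟩
  refine ⟨?_, ?_, ?_, ?_⟩
  · rw [BZ_eq]; exact hval.u
  · rw [BZ_eq]; exact hval.base
  · rw [hEZ]; exact hssap T L _ _ (v i) hspot hvi.1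
  · intro A1 B1 i1 d f hdec
    rcases decomp A B' A1 B1 _ _ hdec with ⟨rfl, hs, rfl⟩ | ⟨A2, hA, hB1⟩ | ⟨B2, hB, hA1⟩
    · -- the new block
      simp only [Sz.bl.injEq] at hs
      obtain ⟨rfl, rfl, rfl⟩ := hs
      refine ⟨by decide, ?_⟩
      have := hspot.2
      unfold Rm at this
      unfold RmD
      simpa only [Rp_id] using this
    · -- the block is walked after the new one
      have hW : A ++ .lt .zp :: B' = A1 ++ .bl i1 d f :: (A2 ++ .lt .zp :: B') := by
        rw [hA]; simp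
      obtain ⟨hdf, hrm⟩ := hval.room _ _ _ _ _ hW
      have hf := hfar _ _ _ _ _ hW
      have hpos : pos (EZ T v B1) = pos (EZ T v (A2 ++ .lt .zp :: B')) := by
        rw [(hbas T L B v hv B1).1, (hbas T L B v hv _).1, hB1, BZ_eq]
      refine ⟨hdf, ?_⟩
      rw [hpos]
      refine room_aux T L B d f hdf (pos (EZ T v B')) _ _ _ hf hrm ?_
      intro p hp
      have e1 : EZ T v A1 ++ f :: EZ T v B1
          = (EZ T v A1 ++ f :: EZ T v A2) ++ (blk T (v i) ++ EZ T v B') := by
        rw [hB1, EZ_append, EZ_bl, map_rt_id]; simp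
      have e2 : EZ T v A1 ++ f :: EZ T v (A2 ++ .lt .zp :: B')
          = (EZ T v A1 ++ f :: EZ T v A2) ++ .zp :: EZ T v B' := by
        rw [EZ_append, EZ_lt]; simp
      rw [e1] at hp
      rw [e2]
      rcases path_rep _ _ _ _ hpb p hp with h | ⟨j, h⟩
      · exact Or.inl h
      · exact Or.inr ⟨_, h, hdrop j⟩
    · -- the block is walked before the new one
      have hW : A ++ .lt .zp :: B' = (A ++ .lt .zp :: B2) ++ .bl i1 d f :: B1 := by
        rw [hB]; simp
      obtain ⟨hdf, hrm⟩ := hval.room _ _ _ _ _ hW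
      have hf := hfar _ _ _ _ _ hW
      refine ⟨hdf, ?_⟩
      refine room_aux T L B d f hdf (pos (EZ T v B')) _ _ _ hf hrm ?_
      intro p hp
      have e1 : EZ T v A1 ++ f :: EZ T v B1
          = EZ T v A ++ (blk T (v i) ++ (EZ T v B2 ++ f :: EZ T v B1)) := by
        rw [hA1, EZ_append, EZ_bl, map_rt_id]; simp
      have e2 : EZ T v (A ++ .lt .zp :: B2) ++ f :: EZ T v B1
          = EZ T v A ++ .zp :: (EZ T v B2 ++ f :: EZ T v B1) := by
        rw [EZ_append, EZ_lt]; simp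
      have hpos : pos (EZ T v B2 ++ f :: EZ T v B1) = pos (EZ T v B') := by
        have hb := (hbas T L B v hv [.bl i1 d f]).1
        have hb' : pos ((blk T (v i1)).map (rt d f)) = vec f := by
          simpa [EZ, szw, BZ, szl, pos] using hb
        rw [hB, EZ_append, EZ_bl, pos_append, pos_append, pos_append, hb', pos,
          add_comm (pos (EZ T v B1)) (vec f)]
      rw [e1] at hp
      rw [e2]
      rcases path_rep _ _ _ _ hpb p hp with h | ⟨j, h⟩
      · exact Or.inl h
      · right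
        rw [hpos] at h
        exact ⟨_, h, hdrop j⟩

end KN
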