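import Pool.Agent.H246K3.Stubs

/-!
# Project K3, task YMEM (helper365): membership in `VZ`
-/

set_option autoImplicit false

namespace KN

open Finset Filter Topology
open scoped Classical

namespace K3YMEM

theorem mem_WZ {N n : ℕ} {W : List Sz} : W ∈ WZ N n ↔ W.length = n ∧ ∀ s ∈ W, s ∈ SyZ N := by
  unfold WZ
  rw [mem_image]
  constructor
  · rintro ⟨f, hf, rfl⟩
    rw [Fintype.mem_piFinset] at hf
    refine ⟨List.length_ofFn, fun s hs => ?_⟩
    rw [List.mem_ofFn] at hs
    obtain ⟨i, rfl⟩ := hs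
    exact hf i
  · rintro ⟨rfl, h⟩
    refine ⟨fun i => W[i], ?_, List.ofFn_getElem⟩
    rw [Fintype.mem_piFinset]
    intro i
    exact h _ (List.getElem_mem _)

theorem mem_SyZ {N : ℕ} {W : List Sz} (h : (lab W).Perm (List.range N)) :
    ∀ s ∈ W, s ∈ SyZ N := by
  intro s hs
  unfold SyZ
  rw [mem_union]
  cases s with
  | lt f =>
    left
    exact mem_image_of_mem _ (mem_univ _)
  | bl i d f =>
    right
    rw [mem_image]
    refine ⟨(i, d, f), ?_, rfl⟩
    rw [mem_product]
    refine ⟨?_, mem_univ _⟩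
    have hi : i ∈ lab W := by
      unfold lab
      rw [List.mem_filterMap]
      exact ⟨_, hs, rfl⟩
    have := h.mem_iff.1 hi
    rw [List.mem_range] at this
    exact Finset.mem_range.2 this

end K3YMEM

open K3YMEM in
theorem Y_mem_proof : Y_mem := by
  intro T L v N n W
  unfold VZ
  rw [mem_filter, mem_WZ]
  constructor
  · rintro ⟨⟨h1, -⟩, h2, h3⟩
    exact ⟨h1, h2, h3⟩
  · rintro ⟨h1, h2, h3⟩
    exact ⟨⟨h1, mem_SyZ h2⟩, h2, h3⟩

end KN
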