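import Pool.Agent.H246K3.Stubs

/-!
# K3 YOVER: every block of `W` overlaps a block of `W₀`
-/

set_option autoImplicit false

namespace KN.K3YOVER

open Finset Filter Topology
open scoped Classical

theorem EZ_append (T : ℕ) (v : ℕ → List Dir) (X Y : List Sz) :
    EZ T v (X ++ Y) = EZ T v X ++ EZ T v Y := by
  simp [EZ, List.flatMap_append]

theorem EZ_cons (T : ℕ) (v : ℕ → List Dir) (s : Sz) (Y : List Sz) :
    EZ T v (s :: Y) = szw T v s ++ EZ T v Y := by
  simp [EZ]

theorem BZ_append (X Y : List Sz) : BZ (X ++ Y) = BZ X ++ BZ Y := by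
  simp [BZ]

theorem BZ_cons (s : Sz) (Y : List Sz) : BZ (s :: Y) = szl s :: BZ Y := by
  simp [BZ]

theorem len_lt (T : ℕ) (v : ℕ → List Dir) (f : Dir) : (szw T v (.lt f)).length = 1 := by
  simp [szw]

theorem len_bl (T : ℕ) (v : ℕ → List Dir) (i : ℕ) (d f : Dir) :
    (szw T v (.bl i d f)).length = (blk T (v i)).length := by
  simp [szw]

theorem blk_pos (T : ℕ) (v : List Dir) : 0 < (blk T v).length := by
  simp [blk]

theorem blk_le {L B : ℕ} {v : ℕ → List Dir} (hv : SmB L B v) (T i : ℕ) :
    (blk T (v i)).length ≤ B + 2 * T := by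
  have h := (hv i).2
  simp only [blk, List.length_append, List.length_replicate] at h ⊢
  omega

/-- splitting at a position that is not inside a block -/
theorem split (T : ℕ) (v : ℕ → List Dir) (W : List Sz) : ∀ n : ℕ, n ≤ (EZ T v W).length →
    (∀ A B i d f, W = A ++ .bl i d f :: B →
      ¬ ((EZ T v A).length < n ∧ n < (EZ T v A).length + (blk T (v i)).length)) →
    ∃ X Y, W = X ++ Y ∧ (EZ T v X).length = n := by
  induction W with
  | nil =>
    intro n hn _
    refine ⟨[], [], rfl, ?_⟩
    simp [EZ] at hn ⊢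
    omega
  | cons s W ih =>
    intro n hn hb
    by_cases h0 : n = 0
    · exact ⟨[], s :: W, rfl, by simp [EZ, h0]⟩
    · have hs : (szw T v s).length ≤ n := by
        cases s with
        | lt f => rw [len_lt]; omega
        | bl i d f =>
          rw [len_bl]
          have := hb [] W i d f rfl
          simp [EZ] at this
          exact this (by omega)
      rw [EZ_cons, List.length_append] at hn
      obtain ⟨X, Y, hXY, hX⟩ := ih (n - (szw T v s).length) (by omega) (by
        intro A B i d f hW hc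
        apply hb (s :: A) B i d f (by rw [hW]; rfl)
        rw [EZ_cons, List.length_append]
        omega)
      refine ⟨s :: X, Y, by rw [hXY]; rfl, ?_⟩
      rw [EZ_cons, List.length_append, hX]
      omega

/-- a word without blocks -/
theorem noblock (T : ℕ) (v : ℕ → List Dir) (C : List Sz)
    (h : ∀ A B i d f, C ≠ A ++ .bl i d f :: B) : EZ T v C = BZ C := by
  induction C with
  | nil => rfl
  | cons s C ih =>
    rw [EZ_cons, BZ_cons, ih (fun A B i d f hC => h (s :: A) B i d f (by rw [hC]; rfl))]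
    cases s with
    | lt f => rfl
    | bl i d f => exact absurd rfl (h [] C i d f)

theorem main (T : ℕ) (v : ℕ → List Dir) (W₀ : List Sz) (l1 I l2 : List Dir)
    (hI : 0 < I.length) (hW : EZ T v W₀ = l1 ++ I ++ l2)
    (hb : ∀ A B i d f, W₀ = A ++ .bl i d f :: B →
      ¬ (l1.length < (EZ T v A).length + (blk T (v i)).length ∧
        (EZ T v A).length < l1.length + I.length)) :
    ∃ X C Z, W₀ = X ++ C ++ Z ∧ EZ T v X = l1 ∧ EZ T v Z = l2 ∧ BZ C = I := by
  obtain ⟨X, Y, hXY, hX⟩ := split T v W₀ l1.length (by rw [hW]; simp) (by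
    intro A B i d f hAB hc
    exact hb A B i d f hAB ⟨hc.2, by omega⟩)
  subst hXY
  rw [EZ_append, List.append_assoc] at hW
  obtain ⟨hX1, hY1⟩ := List.append_inj hW hX
  obtain ⟨C, Z, hCZ, hC⟩ := split T v Y I.length (by rw [hY1]; simp) (by
    intro A B i d f hAB hc
    apply hb (X ++ A) B i d f (by rw [hAB]; simp)
    rw [EZ_append, List.length_append, hX]
    have := blk_pos T (v i)
    omega)
  subst hCZ
  rw [EZ_append] at hY1
  obtain ⟨hC1, hZ1⟩ := List.append_inj hY1 hC
  refine ⟨X, C, Z, by simp, hX1, hZ1, ?_⟩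
  rw [← hC1, ← noblock T v C]
  intro A B i d f hAB
  apply hb (X ++ A) (B ++ Z) i d f (by rw [hAB]; simp)
  have h1 : (EZ T v C).length =
      (EZ T v A).length + ((blk T (v i)).length + (EZ T v B).length) := by
    rw [hAB, EZ_append, EZ_cons, List.length_append, List.length_append, len_bl]
  have h2 := blk_pos T (v i)
  rw [EZ_append, List.length_append, hX]
  omega

end KN.K3YOVER

namespace KN

open Finset Filter Topology
open scoped Classical
open K3YOVER

theorem Y_over_proof (hT2 : T_T2) (hbas : Y_bas) (hrep : T_Wrep) (hrt : T_rt)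
    (hrtc : T_rtc) : Y_over := by
  intro ks hk T L Bd v hv hsame W₀ W hV₀ hV hlen hEX A B i d f hW
  by_contra hno
  have hD := blk_pos T (v i)
  have hle := blk_le hv T i
  obtain ⟨hperp, hroom⟩ := hV.room A B i d f hW
  obtain ⟨⟨d', f', hperp', hd', hf', hinv1, hinv2, hR1, hR2⟩, hneg, hpp, hadd⟩ :=
    hrtc d f hperp
  obtain ⟨_, hneg', hpp', hadd'⟩ := hrtc d' f' hperp'
  have hEXW : EZ T v W₀ = EZ T v A ++ (blk T (v i)).map (rt d f) ++ EZ T v B := by
    rw [hEX, hW, EZ_append, EZ_cons]
    simp [szw]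
  obtain ⟨X, C, Z, hXCZ, hX, hZ, hC⟩ := main T v W₀ (EZ T v A) ((blk T (v i)).map (rt d f))
    (EZ T v B) (by simpa using hD) hEXW (by
      intro A₀ B₀ i₀ d₀ f₀ h0 hc
      have h1 := blk_le hv T i₀
      rw [List.length_map] at hc
      exact hno ⟨A₀, B₀, i₀, d₀, f₀, h0, by omega, by omega⟩)
  have hBS : BZ W₀ = BZ X ++ (blk T (v i)).map (rt d f) ++ BZ Z := by
    rw [hXCZ, BZ_append, BZ_append, hC]
  -- the position of the block
  have hposv : pos (v i) = (0, 0, 1) := by
    have h1 := (hv i).1.1.2.1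
    simp only [pos] at h1
    have : pos (v i) = - vec .zm := eq_neg_of_add_eq_zero_left h1
    rw [this]; rfl
  have hrepx : ∀ n : ℕ, pos (List.replicate n .xm) = (-(n : ℤ), 0, 0) := by
    intro n
    induction n with
    | zero => rfl
    | succ n ih =>
      rw [List.replicate_succ, pos, ih]
      simp only [vec, Prod.mk_add_mk, Prod.mk.injEq]
      push_cast
      refine ⟨by ring, by simp, by simp⟩
  have hrepp : ∀ n : ℕ, pos (List.replicate n .xp) = ((n : ℤ), 0, 0) := by
    intro n
    induction n with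
    | zero => rfl
    | succ n ih =>
      rw [List.replicate_succ, pos, ih]
      simp only [vec, Prod.mk_add_mk, Prod.mk.injEq]
      push_cast
      refine ⟨by ring, by simp, by simp⟩
  have hposb : pos (blk T (v i)) = vec .zp := by
    rw [blk, pos_append, pos_append, hrepx, hrepp, hposv]
    simp [vec]
  have hposI : pos ((blk T (v i)).map (rt d f)) = vec f := by
    rw [(hpp _).1, hposb]
    simp [Rp, vec]
  have hIne : (blk T (v i)).map (rt d f) ≠ [] := by
    intro h
    have := congrArg List.length h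
    simp at this
    rw [this] at hD
    simp at hD
  -- SAP of the word without the block
  have hlenBS : (BZ X ++ f :: BZ Z).length + (blk T (v i)).length = W₀.length + 1 := by
    have h1 : (BZ C).length = (blk T (v i)).length := by rw [hC]; simp
    have h2 : (BZ C).length = C.length := by simp [BZ]
    rw [hXCZ]
    simp only [List.length_append, List.length_cons]
    have h3 : (BZ X).length = X.length := by simp [BZ]
    have h4 : (BZ Z).length = Z.length := by simp [BZ]
    omega
  have hSAP1 : SAP (BZ X ++ f :: BZ Z) := by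
    apply (hrep (BZ X) (BZ Z) ((blk T (v i)).map (rt d f)) f hposI hIne).2
    · rw [← hBS]; exact hV₀.base
    · omega
  -- rotated
  have hSAP2 := (hrt d' f' hperp' _ hSAP1).1
  have hmapf : (BZ X ++ f :: BZ Z).map (rt d' f') =
      (BZ X).map (rt d' f') ++ .zp :: (BZ Z).map (rt d' f') := by
    rw [List.map_append, List.map_cons, hf']
  have hmapI : ((blk T (v i)).map (rt d f)).map (rt d' f') = blk T (v i) := by
    rw [List.map_map]
    conv_rhs => rw [← List.map_id (blk T (v i))]
    apply List.map_congr_left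
    intro e _
    exact hinv1 e
  have hmapW : (BZ W₀).map (rt d' f') =
      (BZ X).map (rt d' f') ++ blk T (v i) ++ (BZ Z).map (rt d' f') := by
    rw [hBS, List.map_append, List.map_append, hmapI]
  -- the room
  have hsub : ∀ p ∈ path (BZ X ++ f :: BZ Z), p ∈ path (EZ T v A ++ f :: EZ T v B) := by
    intro p hp
    have h := (hbas T L Bd v hv (X ++ .lt f :: Z)).2.1 p (by
      rw [BZ_append, BZ_cons]; exact hp)
    rw [EZ_append, EZ_cons, hX, hZ] at h
    simpa [szw] using h
  have hposZ : pos (EZ T v B) = pos (BZ Z) := by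
    rw [← hZ]; exact (hbas T L Bd v hv Z).1
  have hroom2 : RmD T L d f (BZ X ++ f :: BZ Z) (pos (BZ Z)) := by
    rw [hposZ] at hroom
    refine ⟨fun j h1 h2 => ⟨fun h => (hroom.1 j h1 h2).1 (hsub _ h),
      fun h => (hroom.1 j h1 h2).2 (hsub _ h)⟩, fun h a b c e g hm => hroom.2 h a b c e g
        (hsub _ hm)⟩
  have hkey : ∀ h : Z3, pos ((BZ Z).map (rt d' f')) + h ∈
      path ((BZ X).map (rt d' f') ++ .zp :: (BZ Z).map (rt d' f')) →
      pos (BZ Z) + Rp d f h ∈ path (BZ X ++ f :: BZ Z) := by
    intro h hm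
    rw [← hmapf, (hpp' _).2, (hpp' _).1] at hm
    obtain ⟨p, hp, hpe⟩ := List.mem_map.1 hm
    have h1 := congrArg (Rp d f) hpe
    rw [hR2, hadd, hR2] at h1
    rwa [← h1]
  have hspot : Spot T L ((BZ X).map (rt d' f')) ((BZ Z).map (rt d' f')) := by
    refine ⟨by rw [← hmapf]; exact hSAP2, ?_, ?_⟩
    · intro j h1 h2
      exact ⟨fun h => (hroom2.1 j h1 h2).1 (hkey _ h), fun h => (hroom2.1 j h1 h2).2 (hkey _ h)⟩
    · intro h a b c e g hm
      exact hroom2.2 h a b c e g (hkey _ hm)
  apply hT2 (ks i) (hk i) T L _ _ (v i) hspot (hv i).1 (hsame i)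
  rw [← hmapW]
  have hs := (hrt d' f' hperp' _ hV₀.base).2
  rcases hV₀.u with h | h
  · exact Or.inl (hs.symm.trans h)
  · exact Or.inr (hs.symm.trans h)

end KN
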