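import Pool.Agent.H246K3.Stubs

/-!
# Project K3, task YROT: rotations of words with blocks of several types
-/

set_option autoImplicit false

namespace KN.K3YROT

open KN

theorem Rp_vec : ∀ d f e : Dir, Rp d f (vec e) = vec (rt d f e) := by
  decide +kernel

theorem rt_perp : ∀ d f d1 f1 : Dir, perp d f → perp d1 f1 →
    perp (rt d f d1) (rt d f f1) ∧ cr (rt d f f1) (rt d f d1) = rt d f (cr f1 d1) := by
  decide +kernel

theorem Rp_smul (d f : Dir) (a : ℤ) (p : Z3) : Rp d f (a • p) = a • Rp d f p := by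
  unfold Rp
  simp only [Prod.smul_fst, Prod.smul_snd, smul_add, smul_eq_mul, mul_smul]

theorem Rp_comp (h3 : T_rtc) {d f d1 f1 : Dir} (hdf : perp d f) (h11 : perp d1 f1) (h : Z3) :
    Rp (rt d f d1) (rt d f f1) h = Rp d f (Rp d1 f1 h) := by
  obtain ⟨-, -, -, hadd⟩ := h3 d f hdf
  have e1 : Rp d1 f1 h = h.1 • vec d1 + h.2.1 • vec (cr f1 d1) + h.2.2 • vec f1 := rfl
  have e2 : Rp (rt d f d1) (rt d f f1) h = h.1 • vec (rt d f d1) +
    h.2.1 • vec (cr (rt d f f1) (rt d f d1)) + h.2.2 • vec (rt d f f1) := rfl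
  rw [e1, e2, hadd, hadd, Rp_smul, Rp_smul, Rp_smul, Rp_vec, Rp_vec, Rp_vec,
    (rt_perp d f d1 f1 hdf h11).2]

theorem map_eq {d f d' f' : Dir} {i : ℕ} {W A' B' : List Sz}
    (h : W.map (rZ d f) = A' ++ .bl i d' f' :: B') :
    ∃ (A B : List Sz) (d1 f1 : Dir), W = A ++ .bl i d1 f1 :: B ∧ A.map (rZ d f) = A' ∧
      B.map (rZ d f) = B' ∧ rt d f d1 = d' ∧ rt d f f1 = f' := by
  rw [List.map_eq_append_iff] at h
  obtain ⟨A, R, rfl, hA, hR⟩ := h
  rw [List.map_eq_cons_iff] at hR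
  obtain ⟨s, B, rfl, hs, hB⟩ := hR
  cases s with
  | lt e => simp [rZ] at hs
  | bl i1 d1 f1 =>
    simp only [rZ, Sz.bl.injEq] at hs
    obtain ⟨rfl, hs1, hs2⟩ := hs
    exact ⟨A, B, d1, f1, rfl, hA, hB, hs1, hs2⟩

theorem U_map (h2 : T_rt) {d f : Dir} (hdf : perp d f) {w : List Dir} (hw : SAP w) (hU : U w) :
    U (w.map (rt d f)) := by
  have h := (h2 d f hdf w hw).2
  rcases hU with h1 | h1
  · exact Or.inl (h.symm.trans h1)
  · exact Or.inr (h.symm.trans h1)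

end KN.K3YROT

namespace KN

theorem Y_rot_proof (h1 : Y_bas) (h2 : T_rt) (h3 : T_rtc) : Y_rot := by
  intro T L B0 v hv W hW d f hdf
  have hperp : ∀ A B i d' f', W = A ++ .bl i d' f' :: B → perp d' f' :=
    fun A B i d' f' h => (hW.room A B i d' f' h).1
  obtain ⟨-, -, -, -, hmap⟩ := h1 T L B0 v hv W
  obtain ⟨m1, m2, -⟩ := hmap d f hdf hperp
  obtain ⟨⟨d'', f'', -, -, -, -, -, hinv, -⟩, -, hpp, hadd⟩ := h3 d f hdf
  refine ⟨?_, ?_, ?_, ?_⟩
  · rw [← m2]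
    exact K3YROT.U_map h2 hdf hW.base hW.u
  · rw [← m2]
    exact (h2 d f hdf _ hW.base).1
  · rw [← m1]
    exact (h2 d f hdf _ hW.ext).1
  · intro A' B' i d' f' h
    obtain ⟨A, B, d1, f1, rfl, rfl, rfl, rfl, rfl⟩ := K3YROT.map_eq h
    obtain ⟨hp1, hr1, hr2⟩ := hW.room A B i d1 f1 rfl
    have hA : EZ T v (A.map (rZ d f)) = (EZ T v A).map (rt d f) := by
      obtain ⟨-, -, -, -, hm⟩ := h1 T L B0 v hv A
      refine (hm d f hdf ?_).1.symm
      rintro A1 B1 i2 d2 f2 rfl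
      exact hperp A1 (B1 ++ .bl i d1 f1 :: B) i2 d2 f2 (by simp)
    have hB : EZ T v (B.map (rZ d f)) = (EZ T v B).map (rt d f) := by
      obtain ⟨-, -, -, -, hm⟩ := h1 T L B0 v hv B
      refine (hm d f hdf ?_).1.symm
      rintro A1 B1 i2 d2 f2 rfl
      exact hperp (A ++ .bl i d1 f1 :: A1) B1 i2 d2 f2 (by simp)
    have hw : EZ T v (A.map (rZ d f)) ++ rt d f f1 :: EZ T v (B.map (rZ d f)) =
        (EZ T v A ++ f1 :: EZ T v B).map (rt d f) := by
      rw [hA, hB, List.map_append, List.map_cons]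
    have hpos : pos (EZ T v (B.map (rZ d f))) = Rp d f (pos (EZ T v B)) := by
      rw [hB, (hpp _).1]
    have key : ∀ h : Z3, pos (EZ T v B) + Rp d1 f1 h ∉ path (EZ T v A ++ f1 :: EZ T v B) →
        pos (EZ T v (B.map (rZ d f))) + Rp (rt d f d1) (rt d f f1) h ∉
          path (EZ T v (A.map (rZ d f)) ++ rt d f f1 :: EZ T v (B.map (rZ d f))) := by
      intro h hn hcon
      rw [hw, (hpp _).2, hpos, K3YROT.Rp_comp h3 hdf hp1, ← hadd, List.mem_map] at hcon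
      obtain ⟨p, hp, hpe⟩ := hcon
      have hpe2 := congrArg (Rp d'' f'') hpe
      rw [hinv, hinv] at hpe2
      rw [hpe2] at hp
      exact hn hp
    refine ⟨(K3YROT.rt_perp d f d1 f1 hdf hp1).1, ?_, ?_⟩
    · intro j hj1 hj2
      exact ⟨key _ (hr1 j hj1 hj2).1, key _ (hr1 j hj1 hj2).2⟩
    · intro h a1 a2 a3 a4 a5
      exact key _ (hr2 h a1 a2 a3 a4 a5)

end KN
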