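import Pool.Agent.H246K3.Stubs
import Pool.Agent.H246K2.TOWU

/-!
# Task YSUMU: iterated connected sums are unique
-/

set_option autoImplicit false

namespace KN

open Finset Filter Topology
open scoped Classical

open K2TOWU in
theorem Y_sumu_proof (hW : T_wconL) : Y_sumu := by
  intro ks N
  induction N with
  | zero =>
    intro l l' h h'
    exact Same.trans h (Same.symm h')
  | succ N ih =>
    rintro l l' ⟨l1, v, l2, hF, ht, hk, hl⟩ ⟨m1, v', m2, hF', ht', hk', hl'⟩
    have h1 := ih _ _ ht ht'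
    have h2 : Same (vl (.zm :: v)) (vl (.zm :: v')) := hk.trans hk'.symm
    have hFm : Facing l1 v' l2 := ⟨hF.1, hF.2.1, hF'.2.2.1, hF'.2.2.2⟩
    have h3 := join_same hF hFm h2
    have h4 := hW v'.length l1 l2 m1 m2 v' (bgL _ hF.1 hF.2.1) (bgL _ hF'.1 hF'.2.1)
      (smR hF'.2.2.1 hF'.2.2.2) h1
    exact hl.trans ((h3.trans h4).trans hl'.symm)

end KN
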