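import Pool.Agent.H246K2.All2
import Pool.Agent.H246K3.XBOX
import Pool.Agent.H246K3.XCYC
import Pool.Agent.H246K3.XDISC
import Pool.Agent.H246K3.XGRP
import Pool.Agent.H246K3.XHOMOT
import Pool.Agent.H246K3.XKCYC
import Pool.Agent.H246K3.XKFLAT
import Pool.Agent.H246K3.XNAF
import Pool.Agent.H246K3.XNCG
import Pool.Agent.H246K3.XNINV
import Pool.Agent.H246K3.XNORM
import Pool.Agent.H246K3.XOPEN
import Pool.Agent.H246K3.XSFLAT
import Pool.Agent.H246K3.XTRE
import Pool.Agent.H246K3.YALL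
import Pool.Agent.H246K3.YBAS
import Pool.Agent.H246K3.YCNT
import Pool.Agent.H246K3.YCON
import Pool.Agent.H246K3.YFLIP
import Pool.Agent.H246K3.YINS
import Pool.Agent.H246K3.YLOOK
import Pool.Agent.H246K3.YMEM
import Pool.Agent.H246K3.YMUL
import Pool.Agent.H246K3.YOVER
import Pool.Agent.H246K3.YROT
import Pool.Agent.H246K3.YSUME
import Pool.Agent.H246K3.YSUMU
import Pool.Agent.H246K3.YTYPE
import Pool.Agent.H246K3.YZERO

/-!
# Project K3: the composed theorems
-/

set_option autoImplicit false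

namespace KN

open Filter

theorem e_disc : X_disc := X_disc_proof d_convex T_pot2_proof X_box_proof
theorem e_kflat : X_kflat := X_kflat_proof X_sflat_proof
theorem e_ninv : X_ninv :=
  X_ninv_proof d_amb d_gauge d_unab X_naf_proof e_disc X_cyc_proof X_norm_proof e_kflat
    X_kcyc_proof
theorem e_homot : X_homot := X_homot_proof T_lift_proof T_luniq_proof
theorem e_grp : X_grp := X_grp_proof e_homot d_gauge
theorem e_tre : X_tre := X_tre_proof e_grp T_tflat_proof
theorem e_bas : Y_bas := Y_bas_proof T_Wrep_proof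
theorem e_rot : Y_rot := Y_rot_proof e_bas T_rt_proof T_rtc_proof
theorem e_flip : Y_flip := Y_flip_proof e_bas T_Wrep_proof T_flip_proof
theorem e_ins : Y_ins := Y_ins_proof e_bas d_ssap
theorem e_con : Y_con :=
  Y_con_proof d_step e_bas e_rot Y_look_proof e_flip e_ins T_rtc_proof
theorem e_cnt : Y_cnt := Y_cnt_proof e_con e_bas Y_mem_proof d_many T_rtc_proof
theorem e_zero : Y_zero := Y_zero_proof Y_mem_proof
theorem e_over : Y_over := Y_over_proof d_T2 e_bas T_Wrep_proof T_rt_proof T_rtc_proof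
theorem e_mul : Y_mul := Y_mul_proof Y_mem_proof e_over
theorem e_type : Y_type :=
  Y_type_proof d_master e_bas T_Wrep_proof e_rot T_rt_proof T_rtc_proof
theorem e_sumu : Y_sumu := Y_sumu_proof d_wconL
theorem e_sume : Y_sume := Y_sume_proof T_vex_proof
theorem e_all : Y_all :=
  Y_all_proof Y_mem_proof e_cnt e_zero e_mul e_type e_sumu e_bas T_vex_proof d_LL

/-- a polygon with non-commutative knot group has no inverse -/
theorem ncg_ninv (k : List V) (hk : NCG k) : NonInv k :=
  e_ninv k (X_ncg_proof k (X_open_proof k) hk)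

theorem K3_main (ks : ℕ → List V) (N : ℕ) (hk : ∀ i < N, NCG (ks i))
    (hw : ∀ i < N, ∃ w, SAP w ∧ Same (vl w) (ks i)) (l : List V) (hl : Sums ks N l) :
    ∃ c : ℝ, 0 < c ∧ ∀ᶠ j : ℕ in atTop,
      c * (2 * j : ℝ) ^ (2 * N / 3 : ℝ) * pq U (2 * j) ≤ pq (KT l) (2 * j) := by
  obtain ⟨c, m, hc, hm, h⟩ := e_all ks N (fun i hi => ncg_ninv _ (hk i hi)) hw l hl
  exact T_shift_proof (KT l) (2 * N / 3) c m (by positivity) hc hm h

end KN
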