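import Pool.Agent.H246K3.Stubs
import Pool.Agent.H246KN.SQ
import Pool.Agent.H246KN.SIM
import Pool.Agent.H246KN.MOT

/-!
# Project K3, task YALL (helper485): several blocks
-/

set_option autoImplicit false

namespace KN

open Finset Filter Topology
open scoped Classical

namespace K3YALL

/-- the number of words with `N` blocks -/
theorem step1 (hcnt : Y_cnt) (hzero : Y_zero) {T L B R : ℕ} {v : ℕ → List Dir} (hv : SmB L B v)
    (hLL : LLat T L R) (hR : 1 ≤ R) (N : ℕ) : ∃ c : ℝ, 0 < c ∧ ∀ᶠ n : ℕ in atTop,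
      c * (n : ℝ) ^ (2 * N / 3 : ℝ) * a U n ≤ (VZ T L v N n).card := by
  induction N with
  | zero =>
    refine ⟨1, one_pos, Eventually.of_forall fun n => ?_⟩
    rw [hzero T L v n]
    simp
  | succ N ih =>
    obtain ⟨c, hc, h1⟩ := ih
    obtain ⟨c', hc', h2⟩ := hcnt T L B R v hv hLL hR N
    refine ⟨c' * c, by positivity, ?_⟩
    filter_upwards [h1, h2, eventually_gt_atTop 0] with n h1 h2 hn
    have hn' : (0 : ℝ) < n := by exact_mod_cast hn
    have e : (n : ℝ) ^ (2 * ((N + 1 : ℕ) : ℝ) / 3 : ℝ) =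
        (n : ℝ) ^ (2 / 3 : ℝ) * (n : ℝ) ^ (2 * (N : ℝ) / 3 : ℝ) := by
      rw [← Real.rpow_add hn']
      congr 1
      push_cast
      ring
    rw [e]
    calc c' * c * ((n : ℝ) ^ (2 / 3 : ℝ) * (n : ℝ) ^ (2 * (N : ℝ) / 3 : ℝ)) * a U n
        = c' * (n : ℝ) ^ (2 / 3 : ℝ) * (c * (n : ℝ) ^ (2 * (N : ℝ) / 3 : ℝ) * a U n) := by ring
      _ ≤ c' * (n : ℝ) ^ (2 / 3 : ℝ) * (VZ T L v N n).card :=
          mul_le_mul_of_nonneg_left h1 (by positivity)
      _ ≤ _ := h2

/-- connected sums only use the indices below `N` -/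
theorem Sums_congr {ks ks' : ℕ → List V} : ∀ {N : ℕ} {l : List V}, (∀ i < N, ks i = ks' i) →
    Sums ks N l → Sums ks' N l
  | 0, _, _, hl => hl
  | N + 1, _, h, ⟨l1, v, l2, h1, h2, h3, h4⟩ =>
    ⟨l1, v, l2, h1, Sums_congr (fun i hi => h i (by omega)) h2, h N (by omega) ▸ h3, h4⟩

theorem SmR_mono {L L' : ℕ} {v : List Dir} (h : L ≤ L') (hv : SmR L v) : SmR L' v := by
  have hL : (L : ℤ) ≤ L' := by exact_mod_cast h
  refine ⟨hv.1, fun p hp => ?_⟩
  obtain ⟨h1, h2, h3, h4, h5⟩ := hv.2 p hp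
  exact ⟨h1, by omega, h3.trans hL, by omega, by omega⟩

theorem sum_even : ∀ l : List ℕ, (∀ x ∈ l, x % 2 = 0) → l.sum % 2 = 0
  | [], _ => rfl
  | x :: l, h => by
    have h1 := h x (by simp)
    have h2 := sum_even l (fun y hy => h y (by simp [hy]))
    rw [List.sum_cons]
    omega

/-- the case of an infinite family with bounded blocks -/
theorem main (hmem : Y_mem) (hcnt : Y_cnt) (hzero : Y_zero) (hmul : Y_mul) (htype : Y_type)
    (hsumu : Y_sumu) (hbas : Y_bas) (hLL : T_LL) (ks : ℕ → List V) (hk : ∀ i, NonInv (ks i))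
    (L B : ℕ) (v : ℕ → List Dir) (hv : SmB L B v) (hvk : ∀ i, Same (vl (.zm :: v i)) (ks i))
    (N : ℕ) (l : List V) (hl : Sums ks N l) : ∃ (c : ℝ) (m : ℕ), 0 < c ∧ m % 2 = 0 ∧
      ∀ᶠ n : ℕ in atTop, c * (n : ℝ) ^ (2 * N / 3 : ℝ) * a U n ≤ a (KT l) (n + m) := by
  obtain ⟨R, hR, hLR⟩ := hLL (2 * L + 4) L le_rfl
  obtain ⟨c, hc, h1⟩ := step1 hcnt hzero hv hLR hR N
  obtain ⟨C, hC⟩ := hmul ks hk (2 * L + 4) L B v hv hvk N
  set T := 2 * L + 4 with hT
  set m : ℕ := ((List.range N).map (fun i => (blk T (v i)).length - 1)).sum with hm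
  refine ⟨c / (C + 1), m, by positivity, ?_, ?_⟩
  · rw [hm]
    apply sum_even
    intro x hx
    obtain ⟨i, -, rfl⟩ := List.mem_map.1 hx
    have hlen : (blk T (v i)).length = 2 * (T + 1) + (v i).length := by
      unfold blk
      simp only [List.length_append, List.length_replicate]
      omega
    have hodd : ((v i).length + 1) % 2 = 0 := by
      have h2 := even_of_closed ((hv i).1.1.2.1)
      simpa using h2
    omega
  · filter_upwards [h1] with n h1
    have h3 : (VZ T L v N n).card ≤ C * a (KT l) (n + m) := by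
      have h4 : (VZ T L v N n).card ≤ C * ((VZ T L v N n).image (EZ T v)).card := by
        apply Finset.card_le_mul_card_image
        intro w _
        exact hC n w
      refine h4.trans (Nat.mul_le_mul_left _ ?_)
      unfold a
      apply Finset.card_le_card
      intro w hw
      obtain ⟨W, hW, rfl⟩ := Finset.mem_image.1 hw
      obtain ⟨hW1, hW2, hW3⟩ := (hmem T L v N n W).1 hW
      rw [mem_K]
      refine ⟨?_, hW3.ext, Or.inl ?_⟩
      · rw [(hbas T L B v hv W).2.2.1, hW1, hm, (hW2.map _).sum_eq]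
      · exact hsumu ks N _ _ (htype ks T L B v hv hvk N W hW2 hW3) hl
    have h5 : ((VZ T L v N n).card : ℝ) ≤ (C + 1) * (a (KT l) (n + m) : ℝ) := by
      have h6 : ((VZ T L v N n).card : ℝ) ≤ (C : ℝ) * (a (KT l) (n + m) : ℝ) := by
        exact_mod_cast h3
      have h7 : (0 : ℝ) ≤ (a (KT l) (n + m) : ℝ) := Nat.cast_nonneg _
      linarith
    have hC0 : (0 : ℝ) < (C : ℝ) + 1 := by positivity
    have h8 := h1.trans h5
    have h9 : c / (C + 1) * (n : ℝ) ^ (2 * (N : ℝ) / 3 : ℝ) * (a U n : ℝ) =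
        (c * (n : ℝ) ^ (2 * (N : ℝ) / 3 : ℝ) * (a U n : ℝ)) / (C + 1) := by ring
    rw [h9, div_le_iff₀ hC0]
    linarith

/-- no blocks -/
theorem zero_case {l : List V} (hl : Same l sq) (n : ℕ) : a U n ≤ a (KT l) n := by
  have hsq : S_sq := S_sq_proof S_simple_proof S_motion_proof
  unfold a
  apply Finset.card_le_card
  intro w hw
  obtain ⟨h1, h2, h3⟩ := mem_K.1 hw
  refine mem_K.2 ⟨h1, h2, Or.inl ?_⟩
  have h4 : Same (vl w) sq := by
    rcases h3 with h3 | h3
    · exact h3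
    · exact Relation.EqvGen.trans _ _ _ h3 (Relation.EqvGen.symm _ _ hsq.2.2)
  exact Relation.EqvGen.trans _ _ _ h4 (Relation.EqvGen.symm _ _ hl)

end K3YALL

open K3YALL in
theorem Y_all_proof (hmem : Y_mem) (hcnt : Y_cnt) (hzero : Y_zero) (hmul : Y_mul)
    (htype : Y_type) (hsumu : Y_sumu) (hbas : Y_bas) (hvex : T_vex) (hLL : T_LL) : Y_all := by
  intro ks N hk hex l hl
  rcases Nat.eq_zero_or_pos N with rfl | hN
  · refine ⟨1, 0, one_pos, rfl, Eventually.of_forall fun n => ?_⟩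
    have h := zero_case hl n
    have h' : (a U n : ℝ) ≤ (a (KT l) n : ℝ) := by exact_mod_cast h
    simpa using h'
  · have hlt : ∀ i, min i (N - 1) < N := fun i => by omega
    have h1 : ∀ i, ∃ (L : ℕ) (v : List Dir), SmR L v ∧
        Same (vl (.zm :: v)) (ks (min i (N - 1))) := fun i => hvex _ (hex _ (hlt i))
    choose L v hv hvk using h1
    have hmin : ∀ i, min (min i (N - 1)) (N - 1) = min i (N - 1) := fun i => by omega
    refine main hmem hcnt hzero hmul htype hsumu hbas hLL (fun i => ks (min i (N - 1)))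
      (fun i => hk _ (hlt i)) ((range N).sup L)
      ((range N).sup (fun i => (blk 0 (v i)).length)) (fun i => v (min i (N - 1))) ?_ ?_ N l ?_
    · intro i
      refine ⟨SmR_mono ?_ (hv _), ?_⟩
      · exact Finset.le_sup (f := L) (Finset.mem_range.2 (hlt i))
      · exact Finset.le_sup (f := fun i => (blk 0 (v i)).length) (Finset.mem_range.2 (hlt i))
    · intro i
      have := hvk (min i (N - 1))
      rwa [hmin] at this
    · refine Sums_congr (fun i hi => ?_) hl
      have : min i (N - 1) = i := by omega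
      rw [this]

end KN
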